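import Pool.Agent.Lib_helper92.SQ.Defs

set_option autoImplicit false

namespace Pool.Agent.SQ

open Finset

theorem rsum2_divs {r : ℕ} (hr : 0 < r) :
    ∏ p ∈ r.primeFactors, (1 + (√(p : ℝ))⁻¹) ≤ ∑ d ∈ r.divisors, (√(d : ℝ))⁻¹ := by
  have hinj : Set.InjOn (fun S : Finset ℕ => ∏ p ∈ S, p) (r.primeFactors.powerset : Set (Finset ℕ)) := by
    intro S hS T hT h
    have hS' : ∀ p ∈ S, p.Prime := fun p hp =>
      Nat.prime_of_mem_primeFactors (Finset.mem_powerset.mp (Finset.mem_coe.mp hS) hp)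
    have hT' : ∀ p ∈ T, p.Prime := fun p hp =>
      Nat.prime_of_mem_primeFactors (Finset.mem_powerset.mp (Finset.mem_coe.mp hT) hp)
    have h1 := Nat.primeFactors_prod hS'
    have h2 := Nat.primeFactors_prod hT'
    simp only at h
    rw [← h1, ← h2, h]
  have h1 : ∏ p ∈ r.primeFactors, (1 + (√(p : ℝ))⁻¹) =
      ∑ S ∈ r.primeFactors.powerset, (√((∏ p ∈ S, p : ℕ) : ℝ))⁻¹ := by
    rw [Finset.prod_one_add]
    refine Finset.sum_congr rfl (fun S _ => ?_)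
    rw [Finset.prod_inv_distrib, Nat.cast_prod, Real.sqrt_prod _ (fun p _ => Nat.cast_nonneg p)]
  rw [h1, ← Finset.sum_image (f := fun d : ℕ => (√(d : ℝ))⁻¹)
    (g := fun S : Finset ℕ => ∏ p ∈ S, p) hinj]
  refine Finset.sum_le_sum_of_subset_of_nonneg ?_ (fun d _ _ => by positivity)
  intro d hd
  obtain ⟨S, hS, rfl⟩ := Finset.mem_image.mp hd
  rw [Nat.mem_divisors]
  refine ⟨dvd_trans (Finset.prod_dvd_prod_of_subset _ _ _ (Finset.mem_powerset.mp hS))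
    (Nat.prod_primeFactors_dvd r), hr.ne'⟩

theorem rsum2_factor {p : ℕ} (hp : p.Prime) :
    ((1 - (p : ℝ)⁻¹)⁻¹) ^ 4 ≤ (if p < 25 then 16 else 1) * (1 + (√(p : ℝ))⁻¹) := by
  have hp2 : (2 : ℝ) ≤ p := by exact_mod_cast hp.two_le
  have hp0 : (0 : ℝ) < p := by linarith
  have hsq : 0 < √(p : ℝ) := Real.sqrt_pos.mpr hp0
  split_ifs with h
  · have h1 : (1 - (p : ℝ)⁻¹)⁻¹ ≤ 2 := by
      have h2 : (p : ℝ)⁻¹ ≤ 2⁻¹ := inv_anti₀ (by norm_num) hp2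
      rw [inv_le_comm₀ (by linarith) (by norm_num)]
      linarith
    have h0 : 0 ≤ (1 - (p : ℝ)⁻¹)⁻¹ := by
      have h2 : (p : ℝ)⁻¹ ≤ 2⁻¹ := inv_anti₀ (by norm_num) hp2
      exact inv_nonneg.mpr (by linarith)
    have h3 : ((1 - (p : ℝ)⁻¹)⁻¹) ^ 4 ≤ 2 ^ 4 := pow_le_pow_left₀ h0 h1 4
    have h4 : 0 < (√(p : ℝ))⁻¹ := inv_pos.mpr hsq
    linarith
  · push Not at h
    have hp25 : (25 : ℝ) ≤ p := by exact_mod_cast h
    set y : ℝ := (√(p : ℝ))⁻¹ with hy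
    have hy0 : 0 < y := inv_pos.mpr hsq
    have hy1 : y ≤ 1 / 5 := by
      rw [hy, one_div]
      refine inv_anti₀ (by norm_num) ?_
      exact Real.le_sqrt_of_sq_le (by linarith)
    have hpy : (p : ℝ)⁻¹ = y ^ 2 := by
      rw [hy, inv_pow, Real.sq_sqrt hp0.le]
    rw [hpy, one_mul, inv_pow]
    have h1 : 0 < 1 - y ^ 2 := by nlinarith
    rw [inv_le_iff_one_le_mul₀ (by positivity)]
    have h2 : 1 - 4 * y ^ 2 ≤ (1 - y ^ 2) ^ 4 := by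
      nlinarith [sq_nonneg (y ^ 2), sq_nonneg (y ^ 2 - 1), mul_nonneg (sq_nonneg (y ^ 2)) h1.le,
        mul_nonneg (sq_nonneg (y ^ 2)) (sq_nonneg (y ^ 2 - 1))]
    have h3 : (1 - 4 * y ^ 2) * (1 + y) ≤ (1 - y ^ 2) ^ 4 * (1 + y) :=
      mul_le_mul_of_nonneg_right h2 (by linarith)
    have h4 : 1 ≤ (1 - 4 * y ^ 2) * (1 + y) := by
      have h5 : 0 ≤ 1 - 4 * y - 4 * y ^ 2 := by nlinarith
      nlinarith
    linarith

theorem rsum2_pr : ∃ C : ℝ, 0 ≤ C ∧ ∀ r : ℕ, 0 < r → ((r : ℝ) / r.totient) ^ 4 ≤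
    C * ∑ d ∈ r.divisors, (√d)⁻¹ := by
  refine ⟨16 ^ 25, by positivity, fun r hr => ?_⟩
  have hr0 : (0 : ℝ) < r := by exact_mod_cast hr
  have hphi : (r : ℝ) / r.totient = ∏ p ∈ r.primeFactors, (1 - (p : ℝ)⁻¹)⁻¹ := by
    have h3 := Nat.totient_eq_mul_prod_factors r
    have h4 : ((r.totient : ℚ) : ℝ) = ((r * ∏ p ∈ r.primeFactors, (1 - (p : ℚ)⁻¹) : ℚ) : ℝ) := by
      rw [h3]
    push_cast at h4
    rw [h4, Finset.prod_inv_distrib, ← div_div, div_self hr0.ne', one_div]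
  rw [hphi, ← Finset.prod_pow]
  have h1 : ∏ p ∈ r.primeFactors, ((1 - (p : ℝ)⁻¹)⁻¹) ^ 4 ≤
      ∏ p ∈ r.primeFactors, ((if p < 25 then 16 else 1) * (1 + (√(p : ℝ))⁻¹)) := by
    refine Finset.prod_le_prod (fun p _ => ?_) (fun p hp =>
      rsum2_factor (Nat.prime_of_mem_primeFactors hp))
    exact Even.pow_nonneg (by decide) _
  have h2 : ∏ p ∈ r.primeFactors, (if p < 25 then (16 : ℝ) else 1) ≤ 16 ^ 25 := by
    rw [Finset.prod_ite, Finset.prod_const, Finset.prod_const_one, mul_one]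
    refine pow_le_pow_right₀ (by norm_num) ?_
    have h3 : (r.primeFactors.filter (fun p => p < 25)) ⊆ Finset.range 25 := by
      intro p hp
      exact Finset.mem_range.mpr (Finset.mem_filter.mp hp).2
    have h4 := Finset.card_le_card h3
    rwa [Finset.card_range] at h4
  rw [Finset.prod_mul_distrib] at h1
  have h5 : 0 ≤ ∏ p ∈ r.primeFactors, (1 + (√(p : ℝ))⁻¹) :=
    Finset.prod_nonneg (fun p _ => by positivity)
  calc ∏ p ∈ r.primeFactors, ((1 - (p : ℝ)⁻¹)⁻¹) ^ 4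
      ≤ (∏ p ∈ r.primeFactors, (if p < 25 then (16 : ℝ) else 1)) *
        ∏ p ∈ r.primeFactors, (1 + (√(p : ℝ))⁻¹) := h1
    _ ≤ 16 ^ 25 * ∏ p ∈ r.primeFactors, (1 + (√(p : ℝ))⁻¹) := mul_le_mul_of_nonneg_right h2 h5
    _ ≤ 16 ^ 25 * ∑ d ∈ r.divisors, (√(d : ℝ))⁻¹ :=
        mul_le_mul_of_nonneg_left (rsum2_divs hr) (by positivity)

end Pool.Agent.SQ

namespace Pool.Agent.SQ

theorem rsum2 : type_of% @rsum2_pr := @rsum2_pr

end Pool.Agent.SQ
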