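import Pool.Agent.Lib_helper92.SQ.Defs

/-! Block ZETA (helper35). -/

namespace Pool.Agent.SQ

open Complex MeasureTheory Filter Topology

theorem zeta_norm_LSeries_le {f : ℕ → ℂ} (hf : ∀ n, ‖f n‖ ≤ 1) {s : ℂ} (hs : 1 < s.re) :
    LSeriesSummable f s ∧ ‖LSeries f s‖ ≤ 1 + 1 / (s.re - 1) := by
  have hsum : LSeriesSummable f s :=
    LSeriesSummable_of_bounded_of_one_lt_re (m := 1) (fun n _ => hf n) hs
  refine ⟨hsum, ?_⟩
  have hn : Summable fun n => ‖LSeries.term f s n‖ := hsum.norm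
  have h1 : ‖LSeries f s‖ ≤ ∑' n, ‖LSeries.term f s n‖ := norm_tsum_le_tsum_norm hn
  have h2 : ∑' n, ‖LSeries.term f s n‖ = ∑' n : ℕ, ‖LSeries.term f s (n + 1)‖ := by
    rw [hn.tsum_eq_zero_add]
    simp
  have hsr : Summable fun n : ℕ => 1 / ((n : ℝ) + 1) ^ s.re := by
    have := (summable_nat_add_iff 1).mpr (Real.summable_one_div_nat_rpow.mpr hs)
    exact_mod_cast this
  have h3 : ∑' n : ℕ, ‖LSeries.term f s (n + 1)‖ ≤ ∑' n : ℕ, 1 / ((n : ℝ) + 1) ^ s.re := by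
    refine Summable.tsum_le_tsum (fun n => ?_) ((summable_nat_add_iff 1).mpr hn) hsr
    rw [LSeries.norm_term_eq, if_neg (Nat.succ_ne_zero n)]
    push_cast
    gcongr
    exact hf _
  have h4 := ZetaAsymptotics.zeta_limit_aux1 hs
  have h5 : 0 ≤ ZetaAsymptotics.termTSum s.re :=
    tsum_nonneg fun n => ZetaAsymptotics.term_nonneg (n + 1) s.re
  have h6 : 0 ≤ s.re * ZetaAsymptotics.termTSum s.re := mul_nonneg (by linarith) h5
  rw [h2] at h1
  linarith

theorem zeta_low'_pr (η t : ℝ) (hη : 0 < η) :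
    1 ≤ (1 + 1 / η) * ‖riemannZeta (1 + η + t * I)‖ := by
  set s : ℂ := 1 + η + t * I with hs
  have hre : s.re = 1 + η := by simp [hs]
  have hs1 : 1 < s.re := by rw [hre]; linarith
  have h1 := LSeries_one_mul_Lseries_moebius hs1
  rw [LSeries_one_eq_riemannZeta hs1] at h1
  have h2 := (zeta_norm_LSeries_le (f := fun n => ((ArithmeticFunction.moebius n : ℤ) : ℂ))
    (fun n => by
      have := ArithmeticFunction.abs_moebius_le_one (n := n)
      rw [Complex.norm_intCast]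
      exact_mod_cast this) hs1).2
  have h3 : ‖riemannZeta s‖ * ‖LSeries (fun n => ((ArithmeticFunction.moebius n : ℤ) : ℂ)) s‖ = 1 := by
    rw [← norm_mul, h1, norm_one]
  rw [hre, add_sub_cancel_left] at h2
  calc (1 : ℝ) = ‖riemannZeta s‖ *
        ‖LSeries (fun n => ((ArithmeticFunction.moebius n : ℤ) : ℂ)) s‖ := h3.symm
    _ ≤ ‖riemannZeta s‖ * (1 + 1 / η) := by gcongr
    _ = (1 + 1 / η) * ‖riemannZeta s‖ := mul_comm _ _

theorem zeta_low_pr : ∃ C : ℝ, 0 < C ∧ ∀ η t : ℝ, 0 < η → η ≤ 3 → |t| ≤ 1 →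
    1 ≤ C * ‖(η : ℂ) + t * I‖ * ‖riemannZeta (1 + η + t * I)‖ := by
  have hcont : Continuous fun p : ℝ × ℝ => ‖riemannZeta₁ (1 + p.1 + p.2 * I)‖ := by
    refine continuous_norm.comp (differentiable_riemannZeta₁.continuous.comp ?_)
    fun_prop
  obtain ⟨p, hp, hmin⟩ := (isCompact_Icc.prod isCompact_Icc :
    IsCompact (Set.Icc (0 : ℝ) 3 ×ˢ Set.Icc (-1 : ℝ) 1)).exists_isMinOn
      ⟨(0, 0), by simp⟩ hcont.continuousOn
  have hne : riemannZeta₁ (1 + p.1 + p.2 * I) ≠ 0 := by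
    by_cases h1 : (1 + p.1 + p.2 * I : ℂ) = 1
    · rw [h1, riemannZeta₁_one]; exact one_ne_zero
    · intro h0
      have h2 := riemannZeta_eq_inv_sub_mul h1
      rw [h0, mul_zero] at h2
      refine riemannZeta_ne_zero_of_one_le_re ?_ h2
      simp only [Set.mem_prod, Set.mem_Icc] at hp
      simp [hp.1.1]
  have hm : 0 < ‖riemannZeta₁ (1 + p.1 + p.2 * I)‖ := norm_pos_iff.mpr hne
  refine ⟨1 / ‖riemannZeta₁ (1 + p.1 + p.2 * I)‖, by positivity, fun η t hη hη3 ht => ?_⟩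
  have h1 : (1 + η + t * I : ℂ) ≠ 1 := by
    intro h0
    have := congrArg Complex.re h0
    simp at this
    linarith
  have h2 := riemannZeta_eq_inv_sub_mul h1
  have h3 : (1 + η + t * I : ℂ) - 1 = η + t * I := by ring
  rw [h3] at h2
  have h4 : (η : ℂ) + t * I ≠ 0 := by
    rw [← h3]; exact sub_ne_zero.mpr h1
  have h5 : ‖(η : ℂ) + t * I‖ * ‖riemannZeta (1 + η + t * I)‖ = ‖riemannZeta₁ (1 + η + t * I)‖ := by
    rw [← norm_mul, h2, mul_inv_cancel_left₀ h4]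
  have h6 : ‖riemannZeta₁ (1 + p.1 + p.2 * I)‖ ≤ ‖riemannZeta₁ (1 + η + t * I)‖ := by
    have := hmin (a := (η, t)) ?_
    · exact this
    · rw [abs_le] at ht
      simp only [Set.mem_prod, Set.mem_Icc]
      exact ⟨⟨hη.le, hη3⟩, ht⟩
  rw [mul_assoc, h5, one_div, ← div_eq_inv_mul, one_le_div hm]
  exact h6

end Pool.Agent.SQ

namespace Pool.Agent.SQ

theorem zeta_low : type_of% @zeta_low_pr := @zeta_low_pr

theorem zeta_low' : type_of% @zeta_low'_pr := @zeta_low'_pr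

end Pool.Agent.SQ
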