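import Pool.Agent.Lib_helper92.SQ.Defs
import Pool.Agent.Lib_helper92.SQA.ZETA

namespace Pool.Agent.SQ

open Complex MeasureTheory Filter Topology
open Pool.Agent.GRH

theorem nzl_L {q : ℕ} [NeZero q] (χ : DirichletCharacter ℂ q) {s : ℂ} (hs : 2 ≤ s.re) :
    1 / 2 ≤ ‖DirichletCharacter.LFunction χ s‖ := by
  have hs1 : 1 < s.re := by linarith
  rw [DirichletCharacter.LFunction_eq_LSeries χ hs1]
  have h1 := DirichletCharacter.LSeries.mul_mu_eq_one χ hs1
  have h4 := congrArg norm h1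
  rw [norm_mul, norm_one] at h4
  have h2 := (zeta_norm_LSeries_le (f := ((fun n : ℕ => χ (n : ZMod q)) *
      fun n : ℕ => ((ArithmeticFunction.moebius n : ℤ) : ℂ))) (s := s) (by
    intro n
    simp only [Pi.mul_apply, norm_mul]
    have n1 := χ.norm_le_one (n : ZMod q)
    have n2 : ‖((ArithmeticFunction.moebius n : ℤ) : ℂ)‖ ≤ 1 := by
      rw [Complex.norm_intCast]
      exact_mod_cast ArithmeticFunction.abs_moebius_le_one
    calc _ ≤ (1 : ℝ) * 1 := mul_le_mul n1 n2 (norm_nonneg _) (by norm_num)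
      _ = 1 := by norm_num) hs1).2
  have h3 : 1 + 1 / (s.re - 1) ≤ 2 := by
    have : 1 / (s.re - 1) ≤ 1 := by
      rw [div_le_one (by linarith)]; linarith
    linarith
  have h5 := h2.trans h3
  set A := ‖LSeries (fun n : ℕ => χ (n : ZMod q)) s‖ with hA
  have hA0 : 0 ≤ A := norm_nonneg _
  have h6 : (1 : ℝ) ≤ A * 2 := by
    rw [← h4]
    exact mul_le_mul_of_nonneg_left h5 hA0
  linarith

theorem nzl_gamma_ne {q : ℕ} (χ : DirichletCharacter ℂ q) {s : ℂ} (hs : 0 < s.re) :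
    DirichletCharacter.gammaFactor χ s ≠ 0 := by
  rcases χ.even_or_odd with h | h
  · rw [h.gammaFactor_def]
    exact Gammaℝ_ne_zero_of_re_pos hs
  · rw [h.gammaFactor_def]
    refine Gammaℝ_ne_zero_of_re_pos ?_
    simp only [add_re, one_re]
    linarith

theorem nzl_eq {q : ℕ} [NeZero q] (hq : 2 ≤ q) (χ : DirichletCharacter ℂ q) {s : ℂ}
    (hs : 0 < s.re) : DirichletCharacter.completedLFunction χ s =
      DirichletCharacter.LFunction χ s * DirichletCharacter.gammaFactor χ s := by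
  rw [DirichletCharacter.LFunction_eq_completed_div_gammaFactor χ s (Or.inr (by omega)),
    div_mul_cancel₀ _ (nzl_gamma_ne χ hs)]

theorem nzl_gamma_low (a T : ℝ) (ha : 0 < a) : ∃ c : ℝ, 0 < c ∧ ∀ t : ℝ, |t| ≤ T →
    c ≤ ‖Gammaℝ (a + t * I)‖ := by
  obtain ⟨M, hM⟩ := (isCompact_Icc (a := -T) (b := T)).exists_bound_of_continuousOn
    (f := fun t : ℝ => (Gammaℝ (a + t * I))⁻¹)
    ((differentiable_Gammaℝ_inv.continuous.comp (by fun_prop : Continuous
      (fun t : ℝ => (a : ℂ) + t * I))).continuousOn)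
  refine ⟨1 / (|M| + 1), by positivity, fun t ht => ?_⟩
  have h1 := hM t (abs_le.mp ht)
  have h2 : Gammaℝ (a + t * I) ≠ 0 := by
    refine Gammaℝ_ne_zero_of_re_pos ?_
    simpa using ha
  have h3 : 0 < ‖Gammaℝ (a + t * I)‖ := norm_pos_iff.mpr h2
  rw [norm_inv] at h1
  rw [div_le_iff₀ (by positivity)]
  have h4 : 1 ≤ ‖Gammaℝ (a + t * I)‖ * M := by
    have := mul_le_mul_of_nonneg_left h1 h3.le
    rwa [mul_inv_cancel₀ h3.ne'] at this
  have h5 := le_abs_self M
  nlinarith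

theorem Lam_lower_pr (T : ℝ) : ∃ c : ℝ, 0 < c ∧ ∀ (q : ℕ) [NeZero q], 2 ≤ q →
    ∀ χ : DirichletCharacter ℂ q, χ.IsPrimitive → ∀ t : ℝ, |t| ≤ T →
      c ≤ ‖DirichletCharacter.completedLFunction χ (2 + t * I)‖ := by
  obtain ⟨c0, hc0, h0⟩ := nzl_gamma_low 2 T (by norm_num)
  obtain ⟨c1, hc1, h1⟩ := nzl_gamma_low 3 T (by norm_num)
  refine ⟨1 / 2 * min c0 c1, by positivity, ?_⟩
  intro q _ hq χ _ t ht
  have hre : (2 + t * I : ℂ).re = 2 := by simp
  rw [nzl_eq hq χ (by rw [hre]; norm_num), norm_mul]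
  refine mul_le_mul (nzl_L χ (by rw [hre])) ?_ (by positivity) (norm_nonneg _)
  rcases χ.even_or_odd with h | h
  · rw [h.gammaFactor_def]
    have := h0 t ht
    push_cast at this
    exact (min_le_left _ _).trans this
  · rw [h.gammaFactor_def]
    have := h1 t ht
    push_cast at this
    have e : (2 + t * I + 1 : ℂ) = 3 + t * I := by ring
    rw [e]
    exact (min_le_right _ _).trans this

theorem nzl_ne {q : ℕ} [NeZero q] (hq : 2 ≤ q) (χ : DirichletCharacter ℂ q)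
    (hχ : χ ≠ 1) {s : ℂ} (hs : 1 ≤ s.re) : DirichletCharacter.completedLFunction χ s ≠ 0 := by
  rw [nzl_eq hq χ (by linarith)]
  exact mul_ne_zero (DirichletCharacter.LFunction_ne_zero_of_one_le_re χ (Or.inl hχ) hs)
    (nzl_gamma_ne χ (by linarith))

theorem Lam_strip_pr {q : ℕ} [NeZero q] (hq : 2 ≤ q) (χ : DirichletCharacter ℂ q)
    (hχ : χ.IsPrimitive) (ρ : ℂ)
    (h : DirichletCharacter.completedLFunction χ ρ = 0) : 0 ≤ ρ.re ∧ ρ.re ≤ 1 := by
  have hχ1 : χ ≠ 1 := by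
    intro h1
    have h2 : χ.conductor = q := hχ
    rw [h1, DirichletCharacter.conductor_one] at h2
    · omega
  have hχi : χ⁻¹ ≠ 1 := by simpa using hχ1
  refine ⟨?_, ?_⟩
  · by_contra hcon
    push Not at hcon
    have hre : 1 ≤ (1 - ρ).re := by
      simp only [sub_re, one_re]; linarith
    have h1 := hχ.completedLFunction_one_sub (1 - ρ)
    rw [sub_sub_cancel, h] at h1
    have h2 := nzl_ne hq χ⁻¹ hχi hre
    have h3 : (q : ℂ) ^ ((1 - ρ : ℂ) - 1 / 2) ≠ 0 := by
      rw [Complex.cpow_ne_zero_iff]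
      left
      exact_mod_cast NeZero.ne q
    have h4 : DirichletCharacter.rootNumber χ ≠ 0 := by
      intro h0
      have h5 := hχ.completedLFunction_one_sub (1 - 2)
      rw [sub_sub_cancel, h0, mul_zero, zero_mul] at h5
      exact nzl_ne hq χ hχ1 (s := 2) (by simp) h5
    exact (mul_ne_zero (mul_ne_zero h3 h4) h2) h1.symm
  · by_contra hcon
    push Not at hcon
    exact nzl_ne hq χ hχ1 hcon.le h

end Pool.Agent.SQ

namespace Pool.Agent.SQ

theorem Lam_lower : type_of% @Lam_lower_pr := @Lam_lower_pr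

theorem Lam_strip : type_of% @Lam_strip_pr := @Lam_strip_pr

end Pool.Agent.SQ
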