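import Pool.Agent.Lib_helper92.SQ.Defs
import Pool.Agent.Lib_helper24.GRH.GB

namespace Pool.Agent.SQ

open Complex MeasureTheory Filter Topology
open Pool.Agent.GRH

theorem G_five_pr : ∃ C : ℝ, 0 ≤ C ∧ ∀ κ : ℕ, κ ≤ 1 → ∀ y : ℝ, 0 ≤ y →
    |G κ y| ≤ C / (1 + y ^ 2) ^ 5 := by
  refine ⟨720 * Real.exp 1, by positivity, fun κ hκ y hy => ?_⟩
  have hnn : 0 ≤ G κ y := by unfold G; positivity
  rw [abs_of_nonneg hnn, le_div_iff₀ (by positivity)]
  unfold G
  have h1 : y ^ κ ≤ 1 + y ^ 2 := by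
    interval_cases κ
    · simp only [pow_zero]
      nlinarith [sq_nonneg y]
    · simp only [pow_one]
      nlinarith [sq_nonneg (y - 1)]
  have h2 := Real.pow_div_factorial_le_exp (1 + y ^ 2) (by positivity) 6
  have h3 : Real.exp (1 + y ^ 2) ≤ Real.exp 1 * Real.exp (Real.pi * y ^ 2) := by
    rw [← Real.exp_add]
    apply Real.exp_le_exp.mpr
    nlinarith [Real.pi_gt_three, sq_nonneg y]
  have h4 : Real.exp (-Real.pi * y ^ 2) * Real.exp (Real.pi * y ^ 2) = 1 := by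
    rw [← Real.exp_add]
    simp
  have h5 : (1 + y ^ 2) ^ 6 ≤ 720 * (Real.exp 1 * Real.exp (Real.pi * y ^ 2)) := by
    have h6 : ((Nat.factorial 6 : ℕ) : ℝ) = 720 := by norm_num [Nat.factorial]
    rw [h6, div_le_iff₀ (by norm_num)] at h2
    calc (1 + y ^ 2) ^ 6 ≤ Real.exp (1 + y ^ 2) * 720 := h2
      _ ≤ (Real.exp 1 * Real.exp (Real.pi * y ^ 2)) * 720 :=
        mul_le_mul_of_nonneg_right h3 (by norm_num)
      _ = _ := by ring
  calc y ^ κ * Real.exp (-Real.pi * y ^ 2) * (1 + y ^ 2) ^ 5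
      ≤ (1 + y ^ 2) * Real.exp (-Real.pi * y ^ 2) * (1 + y ^ 2) ^ 5 := by
        apply mul_le_mul_of_nonneg_right _ (by positivity)
        exact mul_le_mul_of_nonneg_right h1 (Real.exp_pos _).le
    _ = Real.exp (-Real.pi * y ^ 2) * (1 + y ^ 2) ^ 6 := by ring
    _ ≤ Real.exp (-Real.pi * y ^ 2) * (720 * (Real.exp 1 * Real.exp (Real.pi * y ^ 2))) :=
        mul_le_mul_of_nonneg_left h5 (Real.exp_pos _).le
    _ = 720 * Real.exp 1 * (Real.exp (-Real.pi * y ^ 2) * Real.exp (Real.pi * y ^ 2)) := by ring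
    _ = 720 * Real.exp 1 := by rw [h4, mul_one]

theorem cG_le_pr : ∃ C : ℝ, 0 ≤ C ∧ ∀ κ : ℕ, κ ≤ 1 → ∀ s : ℝ, 0 ≤ s → s ≤ 1 →
    0 ≤ cG κ s ∧ cG κ s ≤ C := by
  refine ⟨∫ y in Set.Ioi (0 : ℝ), (1 + y ^ 2)⁻¹, ?_, fun κ hκ s hs hs1 => ⟨?_, ?_⟩⟩
  · exact integral_nonneg fun y => by positivity
  · unfold cG
    apply setIntegral_nonneg measurableSet_Ioi
    intro y hy
    have hy0 : (0 : ℝ) < y := hy
    positivity
  · unfold cG
    apply integral_mono_of_nonneg
    · filter_upwards [ae_restrict_mem measurableSet_Ioi] with y hy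
      have hy0 : (0 : ℝ) < y := hy
      simp only [Pi.zero_apply]
      positivity
    · exact integrable_inv_one_add_sq.integrableOn
    · filter_upwards [ae_restrict_mem measurableSet_Ioi] with y hy
      have hy0 : (0 : ℝ) < y := hy
      have h1 : y ^ s ≤ 1 + y ^ 2 := by
        rcases le_total y 1 with h | h
        · have := Real.rpow_le_one hy0.le h hs
          nlinarith [sq_nonneg y]
        · have h2 : y ^ s ≤ y ^ (1 : ℝ) := Real.rpow_le_rpow_of_exponent_le h hs1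
          rw [Real.rpow_one] at h2
          nlinarith [sq_nonneg (y - 1)]
      have h2 := G_le hκ hy0.le
      have h3 : (G κ y) ^ 2 ≤ (1 / (1 + y ^ 2)) ^ 2 := by
        rw [← sq_abs]
        exact pow_le_pow_left₀ (abs_nonneg _) h2 2
      calc y ^ s * (G κ y) ^ 2 ≤ (1 + y ^ 2) * (1 / (1 + y ^ 2)) ^ 2 :=
            mul_le_mul h1 h3 (sq_nonneg _) (by positivity)
        _ = (1 + y ^ 2)⁻¹ := by
            field_simp

end Pool.Agent.SQ

namespace Pool.Agent.SQ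

theorem G_five : type_of% @G_five_pr := @G_five_pr

theorem cG_le : type_of% @cG_le_pr := @cG_le_pr

end Pool.Agent.SQ
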