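import Pool.Agent.Lib_helper92.SQ.Defs
import Pool.Agent.Lib_helper24.SQ.Sec2A
import Pool.Agent.Lib_helper92.SQA.G5

/-!
# Block NZU: `|Λ(z,χ)| ≤ C q^A` for `|Re z| ≤ 6`, `χ` primitive mod `q`
-/

namespace Pool.Agent.SQ

open Complex MeasureTheory Filter Topology HurwitzZeta
open Pool.Agent.GRH Pool.Agent.GRH.RepAux

/-- The Mellin representation at an arbitrary point. -/
theorem nzu_rep {q : ℕ} [NeZero q] (χ : DirichletCharacter ℂ q) (hχ : χ ≠ 1) (κ : ℕ)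
    (hκ : (κ = 0 ∧ χ.Even) ∨ (κ = 1 ∧ χ.Odd)) (z : ℂ) :
    DirichletCharacter.completedLFunction χ z =
      ∫ u : ℝ, dens κ 1 χ u * cexp ((z - 1 / 2) * u) := by
  have hq : (0 : ℝ) < (q : ℝ) ^ 2 := by
    have : (q : ℝ) ≠ 0 := by exact_mod_cast NeZero.ne q
    positivity
  have hqc : (q : ℂ) ≠ 0 := by exact_mod_cast NeZero.ne q
  have hpow : ∀ z : ℂ, (((q : ℝ) ^ 2 : ℝ) : ℂ) ^ z = (q : ℂ) ^ (2 * z) := by
    intro z
    have h1 := Complex.natCast_cpow_natCast_mul q 2 z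
    rw [show ((2 : ℕ) : ℂ) = 2 by norm_num] at h1
    rw [h1]
    push_cast
    rfl
  have hne : (q : ℂ) ^ z ≠ 0 := by
    rw [Ne, Complex.cpow_eq_zero_iff]
    rintro ⟨h, -⟩
    exact hqc h
  have hfac : (q : ℂ) ^ (-z) / 2 * (2 * (q : ℂ) ^ z) = 1 := by
    rw [Complex.cpow_neg, div_mul_eq_mul_div, ← mul_assoc, mul_comm _ (2 : ℂ), mul_assoc,
      inv_mul_cancel₀ hne]
    norm_num
  rcases hκ with ⟨rfl, hE⟩ | ⟨rfl, hO⟩
  · have key : ∀ u : ℝ, 2 * (((q : ℝ) ^ 2 : ℝ) : ℂ) ^ (z / 2 : ℂ) *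
        cexp (2 * (z / 2 : ℂ) * u) *
          (∑ j : ZMod q, χ j * (evenKernel (ZMod.toAddCircle j)
            ((q : ℝ) ^ 2 * Real.exp (2 * u)) : ℂ)) =
        2 * (q : ℂ) ^ z * (dens 0 1 χ u * cexp ((z - 1 / 2) * u)) := by
      intro u
      rw [theta_even χ hχ hE u, dens, hpow]
      have e1 : cexp (2 * (z / 2 : ℂ) * u) =
          cexp (((u / 2 : ℝ)) : ℂ) * cexp ((z - 1 / 2) * u) := by
        rw [← Complex.exp_add]
        congr 1
        push_cast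
        ring
      rw [e1, show (2 * (z / 2) : ℂ) = z by ring]
      push_cast
      ring
    rw [(rep_even χ hχ hE z).2, mellin_sub_eq hq]
    simp only [key]
    rw [integral_const_mul, ← mul_assoc, hfac, one_mul]
  · have key : ∀ u : ℝ, 2 * (((q : ℝ) ^ 2 : ℝ) : ℂ) ^ ((z + 1) / 2 : ℂ) *
        cexp (2 * ((z + 1) / 2 : ℂ) * u) *
          (∑ j : ZMod q, χ j * (oddKernel (ZMod.toAddCircle j)
            ((q : ℝ) ^ 2 * Real.exp (2 * u)) : ℂ)) =
        2 * (q : ℂ) ^ z * (dens 1 1 χ u * cexp ((z - 1 / 2) * u)) := by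
      intro u
      rw [dens]
      have h3 := theta_odd χ hO u
      rw [hpow, show (2 * ((z + 1) / 2) : ℂ) = z + 1 by ring,
        Complex.cpow_add _ _ hqc, Complex.cpow_one]
      have e1 : cexp ((z + 1 : ℂ) * u) =
          cexp (((u / 2 : ℝ)) : ℂ) * ((Real.exp u : ℝ) : ℂ) * cexp ((z - 1 / 2) * u) := by
        rw [Complex.ofReal_exp, ← Complex.exp_add, ← Complex.exp_add]
        congr 1
        push_cast
        ring
      rw [e1]
      have h4 : 2 * ((q : ℂ) ^ z * q) *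
          (cexp (((u / 2 : ℝ)) : ℂ) * ((Real.exp u : ℝ) : ℂ) * cexp ((z - 1 / 2) * u)) *
            (∑ j : ZMod q, χ j * (oddKernel (ZMod.toAddCircle j)
              ((q : ℝ) ^ 2 * Real.exp (2 * u)) : ℂ)) =
          2 * (q : ℂ) ^ z * cexp (((u / 2 : ℝ)) : ℂ) * cexp ((z - 1 / 2) * u) *
            ((q : ℂ) * Real.exp u * ∑ j : ZMod q, χ j * (oddKernel (ZMod.toAddCircle j)
              ((q : ℝ) ^ 2 * Real.exp (2 * u)) : ℂ)) := by ring
      rw [h4, h3]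
      push_cast
      ring
    rw [(rep_odd χ hO z).2, mellin_sub_eq hq]
    simp only [key]
    rw [integral_const_mul, ← mul_assoc, hfac, one_mul]

theorem nzu_dens_bd : ∃ C : ℝ, 0 ≤ C ∧ ∀ κ : ℕ, κ ≤ 1 → ∀ (q : ℕ), 2 ≤ q →
    ∀ (χ : DirichletCharacter ℂ q) (u : ℝ), ‖dens κ 1 χ u‖ ≤ C * Real.exp (-(19 / 2) * u) := by
  obtain ⟨C5, hC5, hG⟩ := G_five_pr
  have hs : Summable (fun n : ℕ => 1 / (n : ℝ) ^ 10) := Real.summable_one_div_nat_pow.2 (by norm_num)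
  refine ⟨2 * (C5 * ∑' n : ℕ, 1 / (n : ℝ) ^ 10), by positivity, fun κ hκ q hq χ u => ?_⟩
  have hd : 0 < Real.exp u := Real.exp_pos u
  have hT : ‖T κ 1 χ (Real.exp u)‖ ≤ C5 / (Real.exp u) ^ 10 * ∑' n : ℕ, 1 / (n : ℝ) ^ 10 := by
    unfold T
    rw [← tsum_mul_left]
    refine tsum_of_norm_bounded (hs.mul_left (C5 / (Real.exp u) ^ 10)).hasSum fun n => ?_
    rcases Nat.eq_zero_or_pos n with rfl | hn
    · have h0 : χ ((0 : ℕ) : ZMod q) = 0 := by
        rw [Nat.cast_zero]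
        exact DirichletCharacter.map_zero' χ (by omega)
      rw [h0]; simp
    · have hn' : (0 : ℝ) < n := by exact_mod_cast hn
      rw [norm_mul, if_pos (Nat.coprime_one_right n), Complex.norm_real, Real.norm_eq_abs]
      have h1 : ‖χ (n : ZMod q)‖ ≤ 1 := χ.norm_le_one _
      have h2 := hG κ hκ (n * Real.exp u) (by positivity)
      have h3 : C5 / (1 + (n * Real.exp u) ^ 2) ^ 5 ≤
          C5 / (Real.exp u) ^ 10 * (1 / (n : ℝ) ^ 10) := by
        rw [div_mul_div_comm, mul_one]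
        apply div_le_div_of_nonneg_left hC5 (by positivity)
        calc Real.exp u ^ 10 * (n : ℝ) ^ 10 = ((n * Real.exp u) ^ 2) ^ 5 := by ring
          _ ≤ (1 + (n * Real.exp u) ^ 2) ^ 5 := by
            apply pow_le_pow_left₀ (by positivity)
            linarith
      calc ‖χ (n : ZMod q)‖ * |G κ (n * Real.exp u)| ≤ 1 * |G κ (n * Real.exp u)| :=
            mul_le_mul_of_nonneg_right h1 (abs_nonneg _)
        _ = |G κ (n * Real.exp u)| := one_mul _
        _ ≤ _ := h2.trans h3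
  unfold dens
  rw [norm_mul, norm_mul, Complex.norm_real, Real.norm_eq_abs, abs_of_pos (Real.exp_pos _)]
  have h2 : ‖(2 : ℂ)‖ = 2 := by norm_num
  rw [h2]
  have h3 : Real.exp (-(19 / 2) * u) = Real.exp (u / 2) / (Real.exp u) ^ 10 := by
    rw [← Real.exp_nat_mul, ← Real.exp_sub]
    congr 1; push_cast; ring
  rw [h3]
  calc 2 * Real.exp (u / 2) * ‖T κ 1 χ (Real.exp u)‖
      ≤ 2 * Real.exp (u / 2) * (C5 / (Real.exp u) ^ 10 * ∑' n : ℕ, 1 / (n : ℝ) ^ 10) :=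
        mul_le_mul_of_nonneg_left hT (by positivity)
    _ = _ := by ring

/-- symmetry of the density, from the functional equation -/
theorem nzu_symm {q : ℕ} [NeZero q] (hq : 2 ≤ q) (χ : DirichletCharacter ℂ q)
    (hχ : χ.IsPrimitive) (hχ1 : χ ≠ 1) (κ : ℕ) (hκ : (κ = 0 ∧ χ.Even) ∨ (κ = 1 ∧ χ.Odd)) :
    ∀ᵐ v : ℝ, ‖dens κ 1 χ (-v - Real.log q / 2)‖ = ‖dens κ 1 χ (v - Real.log q / 2)‖ := by
  have h := SQS.fd_symm hq (κ := κ) (fun _ => 1) 2 χ hχ hχ1 hκ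
  have e : ∀ v : ℝ, SQS.fd κ (fun _ => 1) 2 χ v = dens κ 1 χ (v - Real.log q / 2) := by
    intro v
    have hI : Finset.Ico 1 2 = {1} := rfl
    unfold SQS.fd
    rw [hI]
    simp only [Finset.sum_singleton, Nat.cast_one, Real.log_one, Real.sqrt_one, map_one,
      Complex.ofReal_one, one_mul, mul_one, div_one, sub_self, zero_sub]
    rw [← sub_eq_add_neg]
  filter_upwards [h] with v hv
  rw [e, e] at hv
  exact hv

theorem Lam_upper_pr : ∃ A C : ℝ, 0 ≤ A ∧ 1 ≤ C ∧ ∀ (q : ℕ) [NeZero q], 2 ≤ q →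
    ∀ χ : DirichletCharacter ℂ q, χ.IsPrimitive → ∀ z : ℂ, |z.re| ≤ 6 →
      ‖DirichletCharacter.completedLFunction χ z‖ ≤ C * (q : ℝ) ^ A := by
  obtain ⟨C, hC, hb⟩ := nzu_dens_bd
  refine ⟨8, max 1 (C * Real.pi), by norm_num, le_max_left _ _, fun q _ hq χ hχ z hz => ?_⟩
  have hχ1 : χ ≠ 1 := by
    intro h1
    have h2 : χ.conductor = q := hχ
    rw [h1, DirichletCharacter.conductor_one] at h2
    omega
  obtain ⟨κ, hκ⟩ : ∃ κ : ℕ, (κ = 0 ∧ χ.Even) ∨ (κ = 1 ∧ χ.Odd) := by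
    rcases χ.even_or_odd with he | ho
    · exact ⟨0, Or.inl ⟨rfl, he⟩⟩
    · exact ⟨1, Or.inr ⟨rfl, ho⟩⟩
  have hκ1 : κ ≤ 1 := by rcases hκ with h | h <;> omega
  set l : ℝ := Real.log q with hl
  have hqpos : (0 : ℝ) < q := by positivity
  have hl0 : 0 ≤ l := Real.log_natCast_nonneg q
  rw [nzu_rep χ hχ1 κ hκ z]
  refine (norm_integral_le_integral_norm _).trans ?_
  have e1 : ∀ u : ℝ, ‖dens κ 1 χ u * cexp ((z - 1 / 2) * u)‖ =
      ‖dens κ 1 χ u‖ * Real.exp ((z.re - 1 / 2) * u) := by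
    intro u
    rw [norm_mul, Complex.norm_exp]
    congr 2
    simp
  simp only [e1]
  rw [← integral_sub_right_eq_self _ (l / 2)]
  have hmaj : ∀ᵐ v : ℝ, ‖dens κ 1 χ (v - l / 2)‖ * Real.exp ((z.re - 1 / 2) * (v - l / 2)) ≤
      C * Real.exp (8 * l) * (1 + v ^ 2)⁻¹ := by
    filter_upwards [nzu_symm hq χ hχ hχ1 κ hκ] with v hv
    have hb1 := hb κ hκ1 q hq χ (v - l / 2)
    have hb2 := hb κ hκ1 q hq χ (-v - l / 2)
    rw [hv] at hb2
    have hd : ‖dens κ 1 χ (v - l / 2)‖ ≤ C * Real.exp (19 / 4 * l - 19 / 2 * |v|) := by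
      rcases abs_cases v with ⟨h, _⟩ | ⟨h, _⟩
      · rw [h]
        convert hb1 using 3
        ring
      · rw [h]
        convert hb2 using 3
        ring
    have he : Real.exp ((z.re - 1 / 2) * (v - l / 2)) ≤
        Real.exp (13 / 2 * |v| + 13 / 4 * l) := by
      apply Real.exp_le_exp.2
      have h1 : |z.re - 1 / 2| ≤ 13 / 2 := by
        rw [abs_le] at hz ⊢
        constructor <;> linarith [hz.1, hz.2]
      have h2 : |v - l / 2| ≤ |v| + l / 2 := by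
        refine (abs_sub _ _).trans ?_
        rw [abs_of_nonneg (by positivity : (0 : ℝ) ≤ l / 2)]
      calc (z.re - 1 / 2) * (v - l / 2) ≤ |(z.re - 1 / 2) * (v - l / 2)| := le_abs_self _
        _ = |z.re - 1 / 2| * |v - l / 2| := abs_mul _ _
        _ ≤ 13 / 2 * (|v| + l / 2) := mul_le_mul h1 h2 (abs_nonneg _) (by norm_num)
        _ = _ := by ring
    have h3 : Real.exp (-(3 * |v|)) ≤ (1 + v ^ 2)⁻¹ := by
      rw [Real.exp_neg]
      apply inv_anti₀ (by positivity)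
      have h4 := Real.quadratic_le_exp_of_nonneg (by positivity : (0 : ℝ) ≤ 3 * |v|)
      have h5 : |v| ^ 2 = v ^ 2 := sq_abs v
      nlinarith [abs_nonneg v, sq_nonneg v]
    calc ‖dens κ 1 χ (v - l / 2)‖ * Real.exp ((z.re - 1 / 2) * (v - l / 2))
        ≤ (C * Real.exp (19 / 4 * l - 19 / 2 * |v|)) * Real.exp (13 / 2 * |v| + 13 / 4 * l) :=
          mul_le_mul hd he (Real.exp_pos _).le (by positivity)
      _ = C * Real.exp (8 * l) * Real.exp (-(3 * |v|)) := by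
          rw [mul_assoc, mul_assoc, ← Real.exp_add, ← Real.exp_add]
          congr 2
          ring
      _ ≤ C * Real.exp (8 * l) * (1 + v ^ 2)⁻¹ := mul_le_mul_of_nonneg_left h3 (by positivity)
  have hint : Integrable (fun v : ℝ => C * Real.exp (8 * l) * (1 + v ^ 2)⁻¹) :=
    integrable_inv_one_add_sq.const_mul _
  refine (integral_mono_of_nonneg (Eventually.of_forall fun v => by positivity) hint hmaj).trans ?_
  rw [integral_const_mul, integral_univ_inv_one_add_sq]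
  have h6 : Real.exp (8 * l) = (q : ℝ) ^ (8 : ℝ) := by
    rw [Real.rpow_def_of_pos hqpos, hl]
    congr 1
    ring
  rw [h6]
  calc C * (q : ℝ) ^ (8 : ℝ) * Real.pi = C * Real.pi * (q : ℝ) ^ (8 : ℝ) := by ring
    _ ≤ max 1 (C * Real.pi) * (q : ℝ) ^ (8 : ℝ) :=
      mul_le_mul_of_nonneg_right (le_max_right _ _) (by positivity)

end Pool.Agent.SQ

namespace Pool.Agent.SQ

theorem Lam_upper : type_of% @Lam_upper_pr := @Lam_upper_pr

end Pool.Agent.SQ
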