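import Pool.Agent.Lib_helper92.SQ.Defs

/-!
# Block ALPHA: the Dirichlet square root of the Moebius function
-/

namespace Pool.Agent.SQ

open Finset

theorem alpha_hc_zero : hc 0 = 1 := rfl

theorem alpha_hc_succ (k : ℕ) : hc (k + 1) = hc k * ((k : ℝ) - 1 / 2) / (k + 1) := rfl

theorem alpha_hc_one : hc 1 = -(1/2) := by
  have := alpha_hc_succ 0
  rw [alpha_hc_zero] at this
  norm_num at this ⊢
  exact this

/-- `-1/2 ≤ hc (k+1) ≤ 0` and `-1/8 ≤ hc (k+2)`. -/
theorem alpha_hc_bd (k : ℕ) : -(1/8) ≤ hc (k + 2) ∧ hc (k + 2) ≤ 0 := by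
  induction k with
  | zero =>
    rw [show 0 + 2 = 1 + 1 from rfl, alpha_hc_succ, alpha_hc_one]; norm_num
  | succ k ih =>
    rw [show k + 1 + 2 = (k + 2) + 1 from rfl, alpha_hc_succ]
    obtain ⟨h1, h2⟩ := ih
    have hk : (0:ℝ) ≤ k := Nat.cast_nonneg k
    have hd : (0:ℝ) < ((k + 2 : ℕ) : ℝ) + 1 := by positivity
    push_cast
    have hc0 : (0:ℝ) ≤ ((k:ℝ) + 2 - 1/2) / ((k:ℝ) + 2 + 1) := by
      apply div_nonneg <;> linarith
    have hc1 : ((k:ℝ) + 2 - 1/2) / ((k:ℝ) + 2 + 1) ≤ 1 := by
      rw [div_le_one (by linarith)]; linarith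
    rw [mul_div_assoc]
    constructor <;> nlinarith

theorem alpha_hc_nonpos (k : ℕ) : hc (k + 1) ≤ 0 := by
  cases k with
  | zero => rw [show 0 + 1 = 1 from rfl, alpha_hc_one]; norm_num
  | succ k => exact (alpha_hc_bd k).2

theorem alpha_hc_abs (k : ℕ) : |hc k| ≤ 1 := by
  match k with
  | 0 => rw [alpha_hc_zero]; norm_num
  | 1 => rw [alpha_hc_one]; norm_num [abs_of_neg]
  | (k + 2) =>
    have := alpha_hc_bd k
    rw [abs_le]; constructor <;> linarith [this.1, this.2]

theorem alpha_conv_rec (k : ℕ) :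
    ((k:ℝ) + 1) * ∑ p ∈ antidiagonal (k + 1), hc p.1 * hc p.2 =
      ((k:ℝ) - 1) * ∑ p ∈ antidiagonal k, hc p.1 * hc p.2 := by
  -- power series proof
  set f : PowerSeries ℝ := PowerSeries.mk hc with hf
  have h1 : (1 - PowerSeries.X) * PowerSeries.derivative ℝ f = -(1/2 : ℝ) • f := by
    ext n
    rw [sub_mul, one_mul, map_sub, PowerSeries.coeff_derivative, PowerSeries.coeff_smul]
    cases n with
    | zero =>
      simp [hf, alpha_hc_zero, alpha_hc_one]
    | succ n =>
      rw [PowerSeries.coeff_succ_X_mul, PowerSeries.coeff_derivative]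
      simp only [hf, PowerSeries.coeff_mk]
      rw [alpha_hc_succ (n+1)]
      push_cast
      have : (n:ℝ) + 1 + 1 ≠ 0 := by positivity
      field_simp
      simp only [smul_eq_mul]
      ring
  have h2 : (1 - PowerSeries.X) * PowerSeries.derivative ℝ (f * f) = - (f * f) := by
    rw [Derivation.leibniz]
    simp only [smul_eq_mul]
    have : (1 - PowerSeries.X) * (f * PowerSeries.derivative ℝ f + f * PowerSeries.derivative ℝ f)
      = 2 * f * ((1 - PowerSeries.X) * PowerSeries.derivative ℝ f) := by ring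
    rw [this, h1]
    rw [show (2 : PowerSeries ℝ) = (2:ℝ) • (1 : PowerSeries ℝ) by
      rw [← Algebra.algebraMap_eq_smul_one]
      exact (map_ofNat (algebraMap ℝ (PowerSeries ℝ)) 2).symm]
    simp only [smul_mul_assoc, one_mul, mul_smul_comm, smul_smul]
    norm_num
  have h3 := congrArg (PowerSeries.coeff k) h2
  rw [sub_mul, one_mul, map_sub, PowerSeries.coeff_derivative, map_neg] at h3
  have hc' : ∀ n, PowerSeries.coeff n (f * f) = ∑ p ∈ antidiagonal n, hc p.1 * hc p.2 := by
    intro n
    rw [PowerSeries.coeff_mul]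
    simp [hf]
  rw [hc', hc'] at h3
  cases k with
  | zero =>
    simp at h3 ⊢
    linarith
  | succ k =>
    rw [PowerSeries.coeff_succ_X_mul, PowerSeries.coeff_derivative, hc'] at h3
    push_cast at h3 ⊢
    linarith

theorem alpha_conv (k : ℕ) : ∑ p ∈ antidiagonal k, hc p.1 * hc p.2 =
    if k = 0 then 1 else if k = 1 then -1 else 0 := by
  match k with
  | 0 => simp [alpha_hc_zero]
  | 1 =>
    have := alpha_conv_rec 0
    simp [alpha_hc_zero] at this ⊢
    linarith
  | (k + 2) =>
    induction k with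
    | zero =>
      have := alpha_conv_rec 1
      simp at this ⊢
      linarith
    | succ k ih =>
      have h := alpha_conv_rec (k + 2)
      rw [ih] at h
      simp at ih h ⊢
      rcases h with h | h
      · exfalso
        have : (0:ℝ) ≤ k := Nat.cast_nonneg k
        linarith
      · exact h

theorem alpha_conv_abs' (k : ℕ) : ∑ p ∈ antidiagonal k, |hc p.1| * |hc p.2| ≤ 1 := by
  match k with
  | 0 => simp [alpha_hc_zero]
  | (k + 1) =>
    -- the terms with both indices positive have nonnegative product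
    have h1 : ∑ p ∈ antidiagonal (k + 1), |hc p.1| * |hc p.2| =
        ∑ p ∈ antidiagonal (k + 1), hc p.1 * hc p.2 - 4 * hc (k + 1) := by
      have h2 : ∑ p ∈ antidiagonal (k + 1), (|hc p.1| * |hc p.2| - hc p.1 * hc p.2) =
          - 4 * hc (k + 1) := by
        rw [Finset.Nat.sum_antidiagonal_eq_sum_range_succ_mk]
        rw [Finset.sum_range_succ, Finset.sum_range_succ']
        have h3 : ∀ i ∈ range k, (|hc (i + 1)| * |hc (k + 1 - (i + 1))| -
            hc (i + 1) * hc (k + 1 - (i + 1))) = 0 := by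
          intro i hi
          rw [mem_range] at hi
          obtain ⟨m, hm⟩ : ∃ m, k + 1 - (i + 1) = m + 1 := ⟨k - i - 1, by omega⟩
          rw [hm, abs_of_nonpos (alpha_hc_nonpos i), abs_of_nonpos (alpha_hc_nonpos m)]
          ring
        rw [Finset.sum_eq_zero h3]
        simp only [Nat.sub_zero, Nat.sub_self, alpha_hc_zero]
        rw [abs_of_nonpos (alpha_hc_nonpos k)]
        norm_num
        ring
      rw [Finset.sum_sub_distrib] at h2
      linarith
    rw [h1, alpha_conv]
    match k with
    | 0 =>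
      norm_num [alpha_hc_one]
    | (k + 1) =>
      have := (alpha_hc_bd k).1
      simp
      linarith

theorem alpha_ne {n : ℕ} (hn : n ≠ 0) : al n = n.factorization.prod fun _ k => hc k := by
  change (if n = 0 then 0 else n.factorization.prod fun _ k => hc k) = _
  rw [if_neg hn]

theorem al_one_pr : al 1 = 1 := by
  rw [alpha_ne one_ne_zero]; simp

theorem al_mult_pr : al.IsMultiplicative := by
  rw [ArithmeticFunction.IsMultiplicative.iff_ne_zero]
  refine ⟨al_one_pr, ?_⟩
  intro m n hm hn hmn
  rw [alpha_ne hm, alpha_ne hn, alpha_ne (mul_ne_zero hm hn), Nat.factorization_mul hm hn]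
  rw [Finsupp.prod_add_index_of_disjoint]
  simpa [Nat.support_factorization] using hmn.disjoint_primeFactors

theorem alpha_prime_pow {p : ℕ} (hp : p.Prime) (k : ℕ) : al (p ^ k) = hc k := by
  rw [alpha_ne (pow_ne_zero _ hp.ne_zero), hp.factorization_pow, Finsupp.prod_single_index]
  rfl

theorem alpha_antidiag {p : ℕ} (hp : p.Prime) (k : ℕ) (f : ℕ → ℕ → ℝ) :
    ∑ x ∈ (p ^ k).divisorsAntidiagonal, f x.1 x.2 =
      ∑ x ∈ antidiagonal k, f (p ^ x.1) (p ^ x.2) := by
  rw [Nat.sum_divisorsAntidiagonal (fun a b => f a b), Nat.divisors_prime_pow hp, Finset.sum_map,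
    Finset.Nat.sum_antidiagonal_eq_sum_range_succ_mk]
  refine Finset.sum_congr rfl fun i hi => ?_
  rw [mem_range] at hi
  simp only [Function.Embedding.coeFn_mk]
  rw [Nat.pow_div (by omega) hp.pos]

theorem al_mul_al_pr : al * al =
    ((ArithmeticFunction.moebius : ArithmeticFunction ℤ) : ArithmeticFunction ℝ) := by
  rw [ArithmeticFunction.IsMultiplicative.eq_iff_eq_on_prime_powers _ (al_mult_pr.mul al_mult_pr) _
    ArithmeticFunction.isMultiplicative_moebius.intCast]
  intro p k hp
  rw [ArithmeticFunction.mul_apply, alpha_antidiag hp k (fun a b => al a * al b)]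
  simp only [alpha_prime_pow hp]
  rw [alpha_conv, ArithmeticFunction.intCoe_apply]
  match k with
  | 0 => simp
  | 1 => simp [ArithmeticFunction.moebius_apply_prime hp]
  | (k + 2) =>
    rw [ArithmeticFunction.moebius_apply_prime_pow hp (by omega)]
    simp

theorem al_abs_pr (n : ℕ) : |al n| ≤ 1 := by
  rcases eq_or_ne n 0 with rfl | hn
  · simp
  · rw [alpha_ne hn, Finsupp.prod, Finset.abs_prod]
    exact Finset.prod_le_one (fun _ _ => abs_nonneg _) (fun _ _ => alpha_hc_abs _)

/-- `|α|` as an arithmetic function. -/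
noncomputable def alphaAbs : ArithmeticFunction ℝ := ⟨fun n => |al n|, by simp⟩

theorem alphaAbs_mult : alphaAbs.IsMultiplicative := by
  refine ⟨?_, ?_⟩
  · change |al 1| = 1
    rw [al_one_pr, abs_one]
  · intro m n h
    change |al (m * n)| = |al m| * |al n|
    rw [al_mult_pr.map_mul_of_coprime h, abs_mul]

theorem al_conv_abs_pr (n : ℕ) : ∑ p ∈ n.divisorsAntidiagonal, |al p.1| * |al p.2| ≤ 1 := by
  have h : ∑ p ∈ n.divisorsAntidiagonal, |al p.1| * |al p.2| = (alphaAbs * alphaAbs) n := by
    rw [ArithmeticFunction.mul_apply]; rfl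
  rw [h]
  rcases eq_or_ne n 0 with rfl | hn
  · simp
  · rw [(alphaAbs_mult.mul alphaAbs_mult).multiplicative_factorization _ hn, Finsupp.prod]
    have key : ∀ p ∈ n.factorization.support,
        (alphaAbs * alphaAbs) (p ^ n.factorization p) =
          ∑ x ∈ antidiagonal (n.factorization p), |hc x.1| * |hc x.2| := by
      intro p hp
      have hp' : p.Prime := by
        rw [Nat.support_factorization] at hp
        exact Nat.prime_of_mem_primeFactors hp
      rw [ArithmeticFunction.mul_apply,
        alpha_antidiag hp' _ (fun a b => alphaAbs a * alphaAbs b)]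
      refine Finset.sum_congr rfl fun x _ => ?_
      change |al (p ^ x.1)| * |al (p ^ x.2)| = _
      rw [alpha_prime_pow hp', alpha_prime_pow hp']
    refine Finset.prod_le_one (fun p hp => ?_) (fun p hp => ?_)
    · rw [key p hp]
      exact Finset.sum_nonneg fun x _ => mul_nonneg (abs_nonneg _) (abs_nonneg _)
    · rw [key p hp]
      exact alpha_conv_abs' _

end Pool.Agent.SQ

namespace Pool.Agent.SQ

theorem al_one : type_of% @al_one_pr := @al_one_pr

theorem al_mult : type_of% @al_mult_pr := @al_mult_pr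

theorem al_mul_al : type_of% @al_mul_al_pr := @al_mul_al_pr

theorem al_conv_abs : type_of% @al_conv_abs_pr := @al_conv_abs_pr

theorem al_abs : type_of% @al_abs_pr := @al_abs_pr

end Pool.Agent.SQ
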