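import Pool.Agent.Lib_helper92.SQ.Defs
import Pool.Agent.Lib_helper92.SQA.ALPHA

/-!
# Block BBD: trivial bounds for the mollifier coefficients
-/

namespace Pool.Agent.SQ

open Finset

theorem bbd_be (L : ℝ) (n : ℕ) : be L n = al n * max 0 (1 - Real.log n / L) := rfl

theorem bbd_cut {L : ℝ} (hL : 0 < L) (n : ℕ) :
    0 ≤ max 0 (1 - Real.log n / L) ∧ max 0 (1 - Real.log n / L) ≤ 1 := by
  refine ⟨le_max_left _ _, max_le zero_le_one ?_⟩
  have : 0 ≤ Real.log n / L := div_nonneg (Real.log_natCast_nonneg n) hL.le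
  linarith

theorem bbd_abs_le {L : ℝ} (hL : 0 < L) (n : ℕ) : |be L n| ≤ |al n| := by
  rw [bbd_be, abs_mul, abs_of_nonneg (bbd_cut hL n).1]
  exact mul_le_of_le_one_right (abs_nonneg _) (bbd_cut hL n).2

theorem be_abs_pr {L : ℝ} (hL : 0 < L) (n : ℕ) : |be L n| ≤ 1 :=
  (bbd_abs_le hL n).trans (al_abs_pr n)

theorem be_zero_pr {L : ℝ} (hL : 0 < L) {n : ℕ} (hn : L ≤ Real.log n) : be L n = 0 := by
  rw [bbd_be, max_eq_left, mul_zero]
  have : 1 ≤ Real.log n / L := by rwa [le_div_iff₀ hL, one_mul]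
  linarith

theorem lam_abs_pr {L : ℝ} (hL : 0 < L) (n : ℕ) : |lam L n| ≤ 1 := by
  unfold lam
  rw [ArithmeticFunction.mul_apply]
  refine (Finset.abs_sum_le_sum_abs _ _).trans ?_
  refine le_trans (Finset.sum_le_sum fun p _ => ?_) (al_conv_abs_pr n)
  rw [abs_mul]
  exact mul_le_mul (bbd_abs_le hL _) (bbd_abs_le hL _) (abs_nonneg _) (abs_nonneg _)

theorem lam_zero_pr {L : ℝ} (hL : 0 < L) {n : ℕ} (hn : 2 * L ≤ Real.log n) : lam L n = 0 := by
  unfold lam
  rw [ArithmeticFunction.mul_apply]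
  refine Finset.sum_eq_zero fun p hp => ?_
  rw [Nat.mem_divisorsAntidiagonal] at hp
  obtain ⟨hp, hn0⟩ := hp
  have h1 : p.1 ≠ 0 := by rintro h; rw [h, zero_mul] at hp; exact hn0 hp.symm
  have h2 : p.2 ≠ 0 := by rintro h; rw [h, mul_zero] at hp; exact hn0 hp.symm
  have h3 : Real.log n = Real.log p.1 + Real.log p.2 := by
    rw [← hp]; push_cast
    exact Real.log_mul (by exact_mod_cast h1) (by exact_mod_cast h2)
  rcases le_or_gt L (Real.log p.1) with h | h
  · rw [be_zero_pr hL h, zero_mul]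
  · rw [be_zero_pr hL (n := p.2) (by linarith), mul_zero]

theorem bb_one_pr {L : ℝ} (hL : 0 < L) : bb L 1 = 1 := by
  unfold bb lam
  rw [ArithmeticFunction.mul_apply_one, ArithmeticFunction.mul_apply_one]
  have h : be L 1 = 1 := by
    rw [bbd_be, al_one_pr]; simp
  rw [h]; simp

theorem bb_abs_pr {L : ℝ} (hL : 0 < L) (n : ℕ) : |bb L n| ≤ Real.exp (2 * L) := by
  unfold bb
  rw [ArithmeticFunction.coe_zeta_mul_apply]
  refine (Finset.abs_sum_le_sum_abs _ _).trans ?_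
  -- only divisors with `log d < 2 L` count
  have h1 : ∑ i ∈ n.divisors, |lam L i| ≤
      ∑ i ∈ n.divisors.filter (fun d : ℕ => Real.log d < 2 * L), (1 : ℝ) := by
    rw [Finset.sum_filter]
    refine Finset.sum_le_sum fun i _ => ?_
    split_ifs with h
    · exact lam_abs_pr hL i
    · rw [lam_zero_pr hL (not_lt.mp h), abs_zero]
  refine h1.trans ?_
  rw [Finset.sum_const, nsmul_eq_mul, mul_one]
  have h2 : n.divisors.filter (fun d : ℕ => Real.log d < 2 * L) ⊆ Finset.Ioc 0 ⌊Real.exp (2 * L)⌋₊ := by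
    intro d hd
    rw [Finset.mem_filter] at hd
    have hd0 : 0 < d := Nat.pos_of_mem_divisors hd.1
    rw [Finset.mem_Ioc]
    refine ⟨hd0, Nat.le_floor ?_⟩
    rw [← Real.log_le_iff_le_exp (by exact_mod_cast hd0)]
    exact hd.2.le
  have h3 := Finset.card_le_card h2
  rw [Nat.card_Ioc, Nat.sub_zero] at h3
  calc ((n.divisors.filter (fun d : ℕ => Real.log d < 2 * L)).card : ℝ)
      ≤ (⌊Real.exp (2 * L)⌋₊ : ℝ) := by exact_mod_cast h3
    _ ≤ Real.exp (2 * L) := Nat.floor_le (Real.exp_pos _).le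

end Pool.Agent.SQ

namespace Pool.Agent.SQ

theorem be_abs : type_of% @be_abs_pr := @be_abs_pr

theorem be_zero : type_of% @be_zero_pr := @be_zero_pr

theorem lam_abs : type_of% @lam_abs_pr := @lam_abs_pr

theorem lam_zero : type_of% @lam_zero_pr := @lam_zero_pr

theorem bb_one : type_of% @bb_one_pr := @bb_one_pr

theorem bb_abs : type_of% @bb_abs_pr := @bb_abs_pr

end Pool.Agent.SQ
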