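import Pool.Agent.Lib_helper92.SQ.Defs

/-!
# Block DIAGN : the diagonal is nonnegative
-/

namespace Pool.Agent.SQ

open Complex MeasureTheory Filter Topology
open Pool.Agent.GRH

theorem diagn_Gsq_summable {κ : ℕ} (hκ : κ ≤ 1) {y : ℝ} (hy : 0 < y) :
    Summable (fun m : ℕ => (G κ (m * y)) ^ 2) := by
  rw [← summable_nat_add_iff 1]
  refine Summable.of_nonneg_of_le (fun n => sq_nonneg _) (fun n => ?_) (X_summable hy)
  have h0 : 0 ≤ ((n + 1 : ℕ) : ℝ) * y := by positivity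
  have h1 := G_le hκ h0
  have h2 : (0 : ℝ) ≤ 1 / (1 + (((n + 1 : ℕ) : ℝ) * y) ^ 2) := by positivity
  have h3 : (1 : ℝ) / (1 + (((n + 1 : ℕ) : ℝ) * y) ^ 2) ≤ 1 := by
    rw [div_le_one (by positivity)]; nlinarith [sq_nonneg ((((n + 1 : ℕ) : ℝ) * y))]
  rw [← sq_abs]
  calc |G κ (((n + 1 : ℕ) : ℝ) * y)| ^ 2 ≤ (1 / (1 + (((n + 1 : ℕ) : ℝ) * y) ^ 2)) ^ 2 :=
        pow_le_pow_left₀ (abs_nonneg _) h1 2
    _ ≤ 1 / (1 + (((n + 1 : ℕ) : ℝ) * y) ^ 2) := by nlinarith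
    _ = 1 / (1 + (((n : ℝ) + 1) * y) ^ 2) := by push_cast; ring

theorem diagn_WW_summable {κ : ℕ} (hκ : κ ≤ 1) (q : ℕ) {y : ℝ} (hy : 0 < y) :
    Summable (fun m : ℕ => if m.Coprime q then (G κ (m * y)) ^ 2 else 0) := by
  refine Summable.of_nonneg_of_le (fun n => ?_) (fun n => ?_) (diagn_Gsq_summable hκ hy)
  · split_ifs
    · exact sq_nonneg _
    · exact le_rfl
  · split_ifs
    · exact le_rfl
    · exact sq_nonneg _

/-- `r j.2 / j.1` is a nonnegative integer coprime to `q`. -/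
def diagnP (q : ℕ) (j : ℕ × ℕ) (r : ℚ) : Prop :=
  ∃ n : ℕ, n.Coprime q ∧ r * j.2 = n * j.1

/-- The key bijection. -/
theorem diagn_iff {q : ℕ} {j j' : ℕ × ℕ} (h1 : j.1 ≠ 0) (h2 : j.2 ≠ 0) (h1' : j'.1 ≠ 0)
    (h2' : j'.2 ≠ 0) (hq : (j.1 * j.2).Coprime q) (hq' : (j'.1 * j'.2).Coprime q) (r : ℚ) :
    (diagnP q j r ∧ diagnP q j' r) ↔
      ∃ m : ℕ, m.Coprime q ∧ r = m * (j.1 * j'.1) / gg j j' := by
  have hg0 : gg j j' ≠ 0 := by
    unfold gg
    exact Nat.gcd_ne_zero_left (mul_ne_zero h1 h2')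
  have hgpos : 0 < gg j j' := Nat.pos_of_ne_zero hg0
  obtain ⟨a, ha⟩ : gg j j' ∣ j.1 * j'.2 := Nat.gcd_dvd_left _ _
  obtain ⟨b, hb⟩ : gg j j' ∣ j'.1 * j.2 := Nat.gcd_dvd_right _ _
  have hab : Nat.Coprime a b := by
    have h := Nat.coprime_div_gcd_div_gcd (m := j.1 * j'.2) (n := j'.1 * j.2) hgpos
    have h3 : j.1 * j'.2 / Nat.gcd (j.1 * j'.2) (j'.1 * j.2) = a := by
      change j.1 * j'.2 / gg j j' = a
      rw [ha]; exact Nat.mul_div_cancel_left _ hgpos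
    have h4 : j'.1 * j.2 / Nat.gcd (j.1 * j'.2) (j'.1 * j.2) = b := by
      change j'.1 * j.2 / gg j j' = b
      rw [hb]; exact Nat.mul_div_cancel_left _ hgpos
    rwa [h3, h4] at h
  have haq : a.Coprime q := by
    have h : (j.1 * j'.2).Coprime q := by
      apply Nat.Coprime.mul_left
      · exact Nat.Coprime.coprime_mul_right hq
      · exact Nat.Coprime.coprime_mul_left hq'
    rw [ha] at h
    exact Nat.Coprime.coprime_mul_left h
  have hbq : b.Coprime q := by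
    have h : (j'.1 * j.2).Coprime q := by
      apply Nat.Coprime.mul_left
      · exact Nat.Coprime.coprime_mul_right hq'
      · exact Nat.Coprime.coprime_mul_left hq
    rw [hb] at h
    exact Nat.Coprime.coprime_mul_left h
  have haQ : (j.1 : ℚ) * j'.2 = gg j j' * a := by exact_mod_cast ha
  have hbQ : (j'.1 : ℚ) * j.2 = gg j j' * b := by exact_mod_cast hb
  have hgQ : (gg j j' : ℚ) ≠ 0 := by exact_mod_cast hg0
  have h1Q : (j.1 : ℚ) ≠ 0 := by exact_mod_cast h1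
  have h2Q : (j.2 : ℚ) ≠ 0 := by exact_mod_cast h2
  have h1Q' : (j'.1 : ℚ) ≠ 0 := by exact_mod_cast h1'
  have h2Q' : (j'.2 : ℚ) ≠ 0 := by exact_mod_cast h2'
  constructor
  · rintro ⟨⟨n, hn, hnr⟩, ⟨n', hn', hnr'⟩⟩
    -- n j.1 j'.2 = n' j'.1 j.2
    have e1 : (n : ℚ) * (j.1 * j'.2) = n' * (j'.1 * j.2) := by
      calc (n : ℚ) * (j.1 * j'.2) = (n * j.1) * j'.2 := by ring
        _ = r * j.2 * j'.2 := by rw [hnr]
        _ = (r * j'.2) * j.2 := by ring
        _ = (n' * j'.1) * j.2 := by rw [hnr']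
        _ = n' * (j'.1 * j.2) := by ring
    rw [haQ, hbQ] at e1
    have e2 : (n : ℚ) * a = n' * b := by
      have : (gg j j' : ℚ) * (n * a) = gg j j' * (n' * b) := by linarith
      exact mul_left_cancel₀ hgQ this
    have e3 : n * a = n' * b := by exact_mod_cast e2
    have hdvd : b ∣ n := by
      have : b ∣ n * a := ⟨n', by rw [e3]; ring⟩
      exact (Nat.Coprime.dvd_of_dvd_mul_right hab.symm this)
    obtain ⟨m, hm⟩ := hdvd
    refine ⟨m, ?_, ?_⟩
    · rw [hm] at hn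
      exact Nat.Coprime.coprime_mul_left hn
    · rw [eq_div_iff hgQ]
      have : r * j.2 * gg j j' = m * (j.1 * j'.1) * j.2 := by
        rw [hnr, hm]; push_cast
        calc (b : ℚ) * m * j.1 * gg j j' = m * j.1 * (gg j j' * b) := by ring
          _ = m * j.1 * (j'.1 * j.2) := by rw [hbQ]
          _ = _ := by ring
      have h3 : (r * gg j j') * j.2 = m * (j.1 * j'.1) * j.2 := by linarith
      exact mul_right_cancel₀ h2Q h3
  · rintro ⟨m, hm, rfl⟩
    refine ⟨⟨b * m, Nat.Coprime.mul_left hbq hm, ?_⟩, ⟨a * m, Nat.Coprime.mul_left haq hm, ?_⟩⟩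
    · push_cast
      rw [div_mul_eq_mul_div, div_eq_iff hgQ]
      calc (m : ℚ) * (j.1 * j'.1) * j.2 = m * j.1 * (j'.1 * j.2) := by ring
        _ = m * j.1 * (gg j j' * b) := by rw [hbQ]
        _ = _ := by ring
    · push_cast
      rw [div_mul_eq_mul_div, div_eq_iff hgQ]
      calc (m : ℚ) * (j.1 * j'.1) * j'.2 = m * j'.1 * (j.1 * j'.2) := by ring
        _ = m * j'.1 * (gg j j' * a) := by rw [haQ]
        _ = _ := by ring

open Classical in
/-- The diagonal term as a sum over rationals. -/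
theorem diagn_term {κ q : ℕ} (hκ : κ ≤ 1) {δ : ℝ} (hδ : 0 < δ) {j j' : ℕ × ℕ}
    (h1 : j.1 ≠ 0) (h2 : j.2 ≠ 0) (h1' : j'.1 ≠ 0)
    (h2' : j'.2 ≠ 0) (hq : (j.1 * j.2).Coprime q) (hq' : (j'.1 * j'.2).Coprime q) :
    HasSum (fun r : ℚ => if diagnP q j r ∧ diagnP q j' r then (G κ (r * δ)) ^ 2 else 0)
      (WW κ q (δ * (j.1 * j'.1) / gg j j')) := by
  have hg0 : gg j j' ≠ 0 := by
    unfold gg
    exact Nat.gcd_ne_zero_left (mul_ne_zero h1 h2')
  have hgpos : (0 : ℝ) < gg j j' := by exact_mod_cast Nat.pos_of_ne_zero hg0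
  have h1p : (0 : ℝ) < j.1 := by exact_mod_cast Nat.pos_of_ne_zero h1
  have h1p' : (0 : ℝ) < j'.1 := by exact_mod_cast Nat.pos_of_ne_zero h1'
  have hgQ : (gg j j' : ℚ) ≠ 0 := by exact_mod_cast hg0
  have h1Q : (j.1 : ℚ) ≠ 0 := by exact_mod_cast h1
  have h1Q' : (j'.1 : ℚ) ≠ 0 := by exact_mod_cast h1'
  set g : ℕ → ℚ := fun m => m * (j.1 * j'.1) / gg j j' with hgdef
  have hinj : Function.Injective g := by
    intro m m' h
    simp only [hgdef] at h
    rw [div_left_inj' hgQ] at h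
    have := mul_right_cancel₀ (mul_ne_zero h1Q h1Q') h
    exact_mod_cast this
  have hy : 0 < δ * (j.1 * j'.1) / gg j j' := by positivity
  have hs := (diagn_WW_summable hκ q hy).hasSum
  have hcomp : (fun r : ℚ => if diagnP q j r ∧ diagnP q j' r then (G κ (r * δ)) ^ 2 else 0) ∘ g
      = fun m : ℕ => if m.Coprime q then (G κ (m * (δ * (j.1 * j'.1) / gg j j'))) ^ 2 else 0 := by
    funext m
    simp only [Function.comp]
    have hiff : (diagnP q j (g m) ∧ diagnP q j' (g m)) ↔ m.Coprime q := by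
      rw [diagn_iff h1 h2 h1' h2' hq hq']
      constructor
      · rintro ⟨m', hm', he⟩
        have : g m = g m' := he
        rw [hinj this]; exact hm'
      · intro hm
        exact ⟨m, hm, rfl⟩
    have harg : ((g m : ℚ) : ℝ) * δ = m * (δ * (j.1 * j'.1) / gg j j') := by
      simp only [hgdef]; push_cast; ring
    by_cases hm : m.Coprime q
    · rw [if_pos (hiff.mpr hm), if_pos hm, harg]
    · rw [if_neg (fun h => hm (hiff.mp h)), if_neg hm]
  have hout : ∀ x ∉ Set.range g, (fun r : ℚ => if diagnP q j r ∧ diagnP q j' r then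
      (G κ (r * δ)) ^ 2 else 0) x = 0 := by
    intro x hx
    have : ¬ (diagnP q j x ∧ diagnP q j' x) := by
      rw [diagn_iff h1 h2 h1' h2' hq hq']
      rintro ⟨m, -, he⟩
      exact hx ⟨m, he.symm⟩
    simp only [if_neg this]
  rw [← Function.Injective.hasSum_iff hinj hout, hcomp]
  exact hs

theorem diag_nonneg_pr {κ q : ℕ} (hκ : κ ≤ 1) (hq : 2 ≤ q) (L : ℝ) {δ : ℝ} (hδ : 0 < δ) :
    0 ≤ Diag κ q L δ := by
  classical
  have hJ : ∀ j ∈ JJ L q, j.1 ≠ 0 ∧ j.2 ≠ 0 ∧ (j.1 * j.2).Coprime q := by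
    intro j hj
    have hc : (j.1 * j.2).Coprime q := (Finset.mem_filter.mp hj).2
    refine ⟨?_, ?_, hc⟩
    · intro h0
      rw [h0, zero_mul, Nat.coprime_zero_left] at hc
      omega
    · intro h0
      rw [h0, mul_zero, Nat.coprime_zero_left] at hc
      omega
  unfold Diag
  refine mul_nonneg (by positivity) ?_
  have hsum : HasSum (fun r : ℚ => ∑ j ∈ JJ L q, ∑ j' ∈ JJ L q, cc L j * cc L j' *
      (if diagnP q j r ∧ diagnP q j' r then (G κ (r * δ)) ^ 2 else 0))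
      (∑ j ∈ JJ L q, ∑ j' ∈ JJ L q, cc L j * cc L j' *
        WW κ q (δ * (j.1 * j'.1) / gg j j')) := by
    refine hasSum_sum fun j hj => hasSum_sum fun j' hj' => ?_
    obtain ⟨h1, h2, h3⟩ := hJ j hj
    obtain ⟨h1', h2', h3'⟩ := hJ j' hj'
    exact (diagn_term hκ hδ h1 h2 h1' h2' h3 h3').mul_left _
  rw [← hsum.tsum_eq]
  refine tsum_nonneg fun r => ?_
  have hsq : ∑ j ∈ JJ L q, ∑ j' ∈ JJ L q, cc L j * cc L j' *
      (if diagnP q j r ∧ diagnP q j' r then (G κ (r * δ)) ^ 2 else 0) =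
      (G κ (r * δ) * ∑ j ∈ JJ L q, (if diagnP q j r then cc L j else 0)) ^ 2 := by
    rw [mul_pow, sq (∑ j ∈ JJ L q, (if diagnP q j r then cc L j else 0)),
      Finset.sum_mul_sum, Finset.mul_sum]
    refine Finset.sum_congr rfl fun j _ => ?_
    rw [Finset.mul_sum]
    refine Finset.sum_congr rfl fun j' _ => ?_
    by_cases ha : diagnP q j r <;> by_cases hb : diagnP q j' r <;> simp [ha, hb]
    ring
  rw [hsq]
  exact sq_nonneg _

end Pool.Agent.SQ

namespace Pool.Agent.SQ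

theorem diag_nonneg : type_of% @diag_nonneg_pr := @diag_nonneg_pr

end Pool.Agent.SQ
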