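import Pool.Agent.Lib_helper92.SQA.M12
import Pool.Agent.Lib_helper92.SQA.MD
import Pool.Agent.Lib_helper24.SQ.Final

namespace Pool.Agent.SQ

open Complex MeasureTheory Filter Topology
open Pool.Agent.GRH

theorem partA (T : ℝ) : ∃ C : ℝ, 0 < C ∧ ∀ (q : ℕ) [NeZero q], 2 ≤ q → ∀ h H : ℝ,
    0 < H → H ≤ h →
      (Nat.card {χ : DirichletCharacter ℂ q // χ.IsPrimitive ∧
        ∃ x : ℝ, -T ≤ x ∧ x + h ≤ T ∧
          {t : ℝ | x < t ∧ t < x + h ∧
            Odd (analyticOrderNatAt (DirichletCharacter.completedLFunction χ)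
              (1 / 2 + t * I))}.encard ≤ ⌊h / H⌋₊} : ℝ) ≤
        C * q.totient / (h * H * Real.log q) := by
  obtain ⟨C, hC, hM⟩ := Pool.Agent.SQS.means_of_wanted mean_f1 mean_f2 mean_D
  exact Pool.Agent.SQS.thmA_of_means hC hM T

end Pool.Agent.SQ
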