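import Pool.Agent.Lib_helper92.SQ.Defs
import Pool.Agent.Lib_helper92.SQA.ALPHA
import Pool.Agent.Lib_helper92.SQA.ZETA

/-! Block ASQ (helper35). Cites `al_mul_al`, `al_abs`. -/

namespace Pool.Agent.SQ

open Complex MeasureTheory Filter Topology

/-- `α` restricted to the integers coprime to `R`. -/
noncomputable def asq_a (R : ℕ) (n : ℕ) : ℂ := if n.Coprime R then ((al n : ℝ) : ℂ) else 0

theorem asq_bound (R n : ℕ) : ‖asq_a R n‖ ≤ 1 := by
  unfold asq_a
  split_ifs
  · rw [Complex.norm_real]; exact al_abs n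
  · simp

theorem asq_conv {R : ℕ} [NeZero R] : LSeries.convolution (asq_a R) (asq_a R) =
    (fun n : ℕ => (1 : DirichletCharacter ℂ R) n) *
      (fun n : ℕ => ((ArithmeticFunction.moebius n : ℤ) : ℂ)) := by
  funext n
  rw [LSeries.convolution_def]
  simp only [Pi.mul_apply]
  by_cases hn : n.Coprime R
  · have h1 : (1 : DirichletCharacter ℂ R) (n : ZMod R) = 1 :=
      MulChar.one_apply ((ZMod.isUnit_iff_coprime n R).mpr hn)
    rw [h1, one_mul]
    have h2 := congrArg (fun f : ArithmeticFunction ℝ => ((f n : ℝ) : ℂ)) al_mul_al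
    simp only [ArithmeticFunction.mul_apply, ArithmeticFunction.intCoe_apply] at h2
    push_cast at h2
    rw [← h2]
    refine Finset.sum_congr rfl fun p hp => ?_
    have hp' := (Nat.mem_divisorsAntidiagonal.mp hp).1
    have hc1 : p.1.Coprime R := Nat.Coprime.coprime_dvd_left ⟨p.2, hp'.symm⟩ hn
    have hc2 : p.2.Coprime R := Nat.Coprime.coprime_dvd_left ⟨p.1, by rw [mul_comm]; exact hp'.symm⟩ hn
    simp only [asq_a, if_pos hc1, if_pos hc2]
  · have h1 : (1 : DirichletCharacter ℂ R) (n : ZMod R) = 0 :=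
      MulChar.map_nonunit _ (fun h => hn ((ZMod.isUnit_iff_coprime n R).mp h))
    rw [h1, zero_mul]
    refine Finset.sum_eq_zero fun p hp => ?_
    have hp' := (Nat.mem_divisorsAntidiagonal.mp hp).1
    by_cases hc1 : p.1.Coprime R
    · have hc2 : ¬ p.2.Coprime R := by
        intro hc2
        apply hn
        rw [← hp']
        exact Nat.Coprime.mul_left hc1 hc2
      simp [asq_a, if_neg hc2]
    · simp [asq_a, if_neg hc1]

theorem asq_pr {R : ℕ} (hR : 0 < R) {w : ℂ} (hw : 1 < w.re) :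
    LSeriesSummable (fun n => if n.Coprime R then ((al n : ℝ) : ℂ) else 0) w ∧
      ‖LSeries (fun n => if n.Coprime R then ((al n : ℝ) : ℂ) else 0) w‖ ^ 2 *
        ‖riemannZeta w‖ ≤ R / R.totient := by
  have : NeZero R := ⟨hR.ne'⟩
  have hsum : LSeriesSummable (asq_a R) w :=
    LSeriesSummable_of_bounded_of_one_lt_re (m := 1) (fun n _ => asq_bound R n) hw
  refine ⟨hsum, ?_⟩
  change ‖LSeries (asq_a R) w‖ ^ 2 * ‖riemannZeta w‖ ≤ R / R.totient
  have h1 : LSeries (asq_a R) w * LSeries (asq_a R) w =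
      LSeries ((fun n : ℕ => (1 : DirichletCharacter ℂ R) n) *
        (fun n : ℕ => ((ArithmeticFunction.moebius n : ℤ) : ℂ))) w := by
    rw [← asq_conv, LSeries_convolution' hsum hsum]
  have h2 := DirichletCharacter.LSeries.mul_mu_eq_one (1 : DirichletCharacter ℂ R) hw
  rw [← h1, ← DirichletCharacter.LFunction_eq_LSeries _ hw] at h2
  have hw1 : w ≠ 1 := by
    rintro rfl
    simp at hw
  have h3 : (1 : DirichletCharacter ℂ R).LFunction w = _ :=
    DirichletCharacter.LFunctionTrivChar_eq_mul_riemannZeta hw1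
  rw [h3] at h2
  set P : ℂ := ∏ p ∈ R.primeFactors, (1 - (p : ℂ) ^ (-w)) with hP
  have h4 : ‖P‖ * (‖LSeries (asq_a R) w‖ ^ 2 * ‖riemannZeta w‖) = 1 := by
    have := congrArg norm h2
    rw [norm_mul, norm_mul, norm_mul, norm_one] at this
    rw [← this]
    ring
  -- lower bound for `‖P‖`
  have h5 : ∏ p ∈ R.primeFactors, (1 - (p : ℝ)⁻¹) ≤ ‖P‖ := by
    rw [hP, norm_prod]
    refine Finset.prod_le_prod (fun p hp => ?_) (fun p hp => ?_)
    · have hp1 : 1 ≤ (p : ℝ) := by
        exact_mod_cast (Nat.prime_of_mem_primeFactors hp).one_lt.le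
      rw [sub_nonneg]
      exact inv_le_one_of_one_le₀ hp1
    · have hpp := Nat.prime_of_mem_primeFactors hp
      have hp1 : 1 < (p : ℝ) := by exact_mod_cast hpp.one_lt
      have h6 : ‖(p : ℂ) ^ (-w)‖ ≤ (p : ℝ)⁻¹ := by
        rw [Complex.norm_natCast_cpow_of_pos hpp.pos, Complex.neg_re, ← Real.rpow_neg_one]
        exact Real.rpow_le_rpow_of_exponent_le hp1.le (by linarith)
      have h7 : 1 - ‖(p : ℂ) ^ (-w)‖ ≤ ‖1 - (p : ℂ) ^ (-w)‖ := by
        have := norm_sub_norm_le (1 : ℂ) ((p : ℂ) ^ (-w))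
        rwa [norm_one] at this
      linarith
  have h8 : (R.totient : ℝ) = R * ∏ p ∈ R.primeFactors, (1 - (p : ℝ)⁻¹) := by
    have := Nat.totient_eq_mul_prod_factors R
    have h9 := congrArg (fun x : ℚ => (x : ℝ)) this
    push_cast at h9
    exact h9
  have hφ : (0 : ℝ) < R.totient := by exact_mod_cast Nat.totient_pos.mpr hR
  have hR' : (0 : ℝ) < R := by exact_mod_cast hR
  set PP0 : ℝ := ∏ p ∈ R.primeFactors, (1 - (p : ℝ)⁻¹) with hPPd
  have hPP0 : 0 < PP0 := by
    by_contra hcon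
    have : (R.totient : ℝ) ≤ 0 := by
      rw [h8]
      exact mul_nonpos_of_nonneg_of_nonpos hR'.le (not_lt.mp hcon)
    linarith
  have h10 : (R : ℝ) / R.totient = 1 / PP0 := by
    rw [h8]
    field_simp
  rw [h10, le_div_iff₀ hPP0]
  have hX : 0 ≤ ‖LSeries (asq_a R) w‖ ^ 2 * ‖riemannZeta w‖ := by positivity
  calc ‖LSeries (asq_a R) w‖ ^ 2 * ‖riemannZeta w‖ * PP0
      ≤ ‖LSeries (asq_a R) w‖ ^ 2 * ‖riemannZeta w‖ * ‖P‖ := by gcongr
    _ = 1 := by rw [mul_comm]; exact h4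

end Pool.Agent.SQ

namespace Pool.Agent.SQ

theorem asq : type_of% @asq_pr := @asq_pr

end Pool.Agent.SQ
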