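import Pool.Agent.Lib_helper92.SQ.Defs

/-!
# Block PERRON
-/

namespace Pool.Agent.SQ

open Complex MeasureTheory Filter Topology FourierTransform

lemma perron_ft {w : ℂ} (hw : 0 < w.re) :
    IntegrableOn (fun x : ℝ => (x : ℂ) * cexp (-(w * x))) (Set.Ioi 0) ∧
    ∫ x in Set.Ioi (0:ℝ), (x : ℂ) * cexp (-(w * x)) = 1 / w ^ 2 := by
  have hw0 : w ≠ 0 := by rintro rfl; simp at hw
  have hint : IntegrableOn (fun x : ℝ => (x : ℂ) * cexp (-(w * x))) (Set.Ioi 0) := by
    have h1 := integrableOn_rpow_mul_exp_neg_mul_rpow (s := 1) (p := 1) (b := w.re)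
      (by norm_num) (by norm_num) hw
    refine Integrable.mono' h1 (Continuous.aestronglyMeasurable (by fun_prop)) ?_
    filter_upwards [ae_restrict_mem measurableSet_Ioi] with x hx
    have hx : (0:ℝ) < x := hx
    rw [norm_mul, Complex.norm_real, Complex.norm_exp]
    simp [abs_of_pos hx]
  refine ⟨hint, ?_⟩
  have hd : ∀ x ∈ Set.Ioi (0:ℝ), HasDerivAt (fun x : ℝ => -((x : ℂ) / w + 1 / w^2) * cexp (-(w * x)))
      ((x : ℂ) * cexp (-(w * x))) x := by
    intro x _
    have h1 : HasDerivAt (fun x : ℝ => (x : ℂ)) 1 x := Complex.ofRealCLM.hasDerivAt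
    have h2 : HasDerivAt (fun x : ℝ => -((x : ℂ) / w + 1 / w^2)) (-(1 / w)) x := by
      exact ((h1.div_const w).add_const (1 / w ^ 2)).fun_neg
    have h3 : HasDerivAt (fun x : ℝ => cexp (-(w * x))) (cexp (-(w * x)) * (-(w * 1))) x := by
      exact ((h1.const_mul w).fun_neg).cexp
    have h4 := h2.mul h3
    have e : -(1 / w) * cexp (-(w * x)) + -((x : ℂ) / w + 1 / w ^ 2) *
        (cexp (-(w * x)) * (-(w * 1))) = (x : ℂ) * cexp (-(w * x)) := by
      field_simp
      ring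
    rw [e] at h4
    exact h4
  have ht : Tendsto (fun x : ℝ => -((x : ℂ) / w + 1 / w^2) * cexp (-(w * x))) atTop (𝓝 0) := by
    have e1 := tendsto_rpow_mul_exp_neg_mul_atTop_nhds_zero 1 w.re hw
    have e0 := tendsto_rpow_mul_exp_neg_mul_atTop_nhds_zero 0 w.re hw
    have e2 := (e1.const_mul (1 / ‖w‖)).add (e0.const_mul (1 / ‖w‖ ^ 2))
    simp only [mul_zero, add_zero] at e2
    refine squeeze_zero_norm' ?_ e2
    filter_upwards [eventually_gt_atTop 0] with x hx
    rw [norm_mul, norm_neg, Complex.norm_exp]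
    have e3 : ‖(x : ℂ) / w + 1 / w ^ 2‖ ≤ x / ‖w‖ + 1 / ‖w‖ ^ 2 := by
      refine (norm_add_le _ _).trans ?_
      simp [abs_of_pos hx]
    have e4 : (-(w * (x:ℂ))).re = -w.re * x := by simp
    rw [e4]
    calc _ ≤ (x / ‖w‖ + 1 / ‖w‖ ^ 2) * Real.exp (-w.re * x) := by gcongr
      _ = _ := by simp; ring
  have := integral_Ioi_of_hasDerivAt_of_tendsto (a := (0:ℝ)) (m := (0:ℂ))
    (Continuous.continuousWithinAt (by fun_prop)) hd hint ht
  rw [this]
  simp

theorem perron_pr {σ y : ℝ} (hσ : 0 < σ) (hy : 0 < y) :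
    Integrable (fun t : ℝ => (y : ℂ) ^ ((σ : ℂ) + t * I) / ((σ : ℂ) + t * I) ^ 2) ∧
      ∫ t : ℝ, (y : ℂ) ^ ((σ : ℂ) + t * I) / ((σ : ℂ) + t * I) ^ 2 =
        2 * Real.pi * (max 0 (Real.log y) : ℝ) := by
  have hy0 : (y : ℂ) ≠ 0 := by exact_mod_cast hy.ne'
  have hne : ∀ t : ℝ, ((σ : ℂ) + t * I) ≠ 0 := by
    intro t h
    have := congrArg Complex.re h
    simp at this
    exact hσ.ne' this
  have hnsq : ∀ t : ℝ, ‖(σ : ℂ) + t * I‖ ^ 2 = σ ^ 2 + t ^ 2 := by
    intro t
    rw [← Complex.normSq_eq_norm_sq, Complex.normSq_add_mul_I]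
  -- integrability
  have hbase : Integrable (fun t : ℝ => (σ ^ 2 + t ^ 2)⁻¹) := by
    have h1 := (integrable_inv_one_add_sq).comp_div hσ.ne'
    have h2 := h1.const_mul ((σ ^ 2)⁻¹)
    refine h2.congr (Eventually.of_forall fun t => ?_)
    simp only
    rw [← mul_inv]
    congr 1
    field_simp
  have hinv : Integrable (fun t : ℝ => 1 / ((σ : ℂ) + t * I) ^ 2) := by
    refine hbase.mono' (Continuous.aestronglyMeasurable ?_) (Eventually.of_forall fun t => ?_)
    · exact Continuous.div (by fun_prop) (by fun_prop) (fun t => pow_ne_zero _ (hne t))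
    · rw [norm_div, norm_one, norm_pow, hnsq, one_div]
  have hint : Integrable (fun t : ℝ => (y : ℂ) ^ ((σ : ℂ) + t * I) / ((σ : ℂ) + t * I) ^ 2) := by
    refine (hbase.const_mul (y ^ σ)).mono' (Continuous.aestronglyMeasurable ?_)
      (Eventually.of_forall fun t => ?_)
    · refine Continuous.div ?_ (by fun_prop) (fun t => pow_ne_zero _ (hne t))
      simp_rw [Complex.cpow_def_of_ne_zero hy0]
      fun_prop
    · rw [norm_div, norm_pow, hnsq, Complex.norm_cpow_eq_rpow_re_of_pos hy]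
      simp [div_eq_mul_inv]
  refine ⟨hint, ?_⟩
  -- Fourier inversion
  set f : ℝ → ℂ := fun x => ((max 0 x * Real.exp (-(σ * x)) : ℝ) : ℂ) with hf
  have hfc : Continuous f := by fun_prop
  have hfI : ∀ w : ℂ, w.re = σ → ∀ x ∈ Set.Ioi (0 : ℝ),
      f x * cexp (-((w - σ) * x)) = (x : ℂ) * cexp (-(w * x)) := by
    intro w _ x hx
    have hx : (0:ℝ) < x := hx
    simp only [hf, max_eq_right hx.le]
    push_cast
    rw [mul_assoc, ← Complex.exp_add]
    congr 2
    ring
  have hf0 : ∀ x ∉ Set.Ioi (0 : ℝ), f x = 0 := by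
    intro x hx
    have hx : x ≤ 0 := by simpa using hx
    simp [hf, max_eq_left hx]
  have hfint : Integrable f := by
    rw [← integrableOn_iff_integrable_of_support_subset (s := Set.Ioi (0:ℝ))]
    · have h := (perron_ft (w := (σ : ℂ)) (by simpa using hσ)).1
      refine h.congr_fun (fun x hx => ?_) measurableSet_Ioi
      have := hfI (σ : ℂ) (by simp) x hx
      simpa using this.symm
    · intro x hx
      by_contra h
      exact hx (hf0 x h)
  have hFT : ∀ ξ : ℝ, 𝓕 f ξ = 1 / ((σ : ℂ) + (2 * Real.pi * ξ : ℝ) * I) ^ 2 := by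
    intro ξ
    rw [Real.fourier_real_eq_integral_exp_smul]
    have h := (perron_ft (w := (σ : ℂ) + (2 * Real.pi * ξ : ℝ) * I) (by simpa using hσ)).2
    rw [← h]
    rw [← setIntegral_eq_integral_of_forall_compl_eq_zero (s := Set.Ioi (0:ℝ))]
    · refine setIntegral_congr_fun measurableSet_Ioi (fun x hx => ?_)
      have := hfI ((σ : ℂ) + (2 * Real.pi * ξ : ℝ) * I) (by simp) x hx
      simp only [← this, smul_eq_mul]
      rw [mul_comm]
      congr 2
      push_cast
      ring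
    · intro x hx
      rw [hf0 x hx, smul_zero]
  have hFTint : Integrable (𝓕 f) := by
    have h1 := hinv.comp_mul_left' (R := 2 * Real.pi) (by positivity)
    refine h1.congr (Eventually.of_forall fun ξ => ?_)
    simp only [hFT]
  have hinvn := Continuous.fourierInv_fourier_eq hfc hfint hFTint
  have hval := congrFun hinvn (Real.log y)
  rw [Real.fourierInv_eq'] at hval
  simp only [hFT, smul_eq_mul] at hval
  -- change of variable
  have hcv : ∫ t : ℝ, cexp ((Real.log y * t : ℝ) * I) * (1 / ((σ : ℂ) + t * I) ^ 2) =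
      2 * Real.pi * f (Real.log y) := by
    rw [← hval]
    have := MeasureTheory.Measure.integral_comp_mul_left
      (fun t : ℝ => cexp ((Real.log y * t : ℝ) * I) * (1 / ((σ : ℂ) + t * I) ^ 2)) (2 * Real.pi)
    have hpi : |(2 * Real.pi)⁻¹| = (2 * Real.pi)⁻¹ := abs_of_pos (by positivity)
    rw [hpi] at this
    have e : ∀ v : ℝ, cexp (((2 * Real.pi * inner ℝ v (Real.log y) : ℝ) : ℂ) * I) *
        (1 / ((σ : ℂ) + (2 * Real.pi * v : ℝ) * I) ^ 2) =
        cexp ((Real.log y * (2 * Real.pi * v) : ℝ) * I) *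
          (1 / ((σ : ℂ) + ((2 * Real.pi * v : ℝ) : ℂ) * I) ^ 2) := by
      intro v
      congr 3
      simp
      ring
    rw [integral_congr_ae (Eventually.of_forall e), this]
    rw [Complex.real_smul, ← mul_assoc]
    have h2 : (2 : ℂ) * Real.pi * (((2 * Real.pi)⁻¹ : ℝ) : ℂ) = 1 := by
      have : (2 * Real.pi) * (2 * Real.pi)⁻¹ = 1 := mul_inv_cancel₀ (by positivity)
      exact_mod_cast congrArg (fun z : ℝ => (z : ℂ)) this
    rw [h2, one_mul]
  have hfin : ∀ t : ℝ, (y : ℂ) ^ ((σ : ℂ) + t * I) / ((σ : ℂ) + t * I) ^ 2 =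
      ((y ^ σ : ℝ) : ℂ) * (cexp ((Real.log y * t : ℝ) * I) * (1 / ((σ : ℂ) + t * I) ^ 2)) := by
    intro t
    have e1 : (y : ℂ) ^ ((t : ℂ) * I) = cexp ((Real.log y * t : ℝ) * I) := by
      rw [Complex.cpow_def_of_ne_zero hy0, ← Complex.ofReal_log hy.le]
      congr 1
      push_cast
      ring
    rw [Complex.cpow_add _ _ hy0, Complex.ofReal_cpow hy.le, e1, div_eq_mul_one_div, mul_assoc]
  simp_rw [hfin]
  rw [integral_const_mul, hcv]
  simp only [hf]
  have hyσ : y ^ σ * Real.exp (-(σ * Real.log y)) = 1 := by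
    rw [Real.rpow_def_of_pos hy, ← Real.exp_add]
    simp [mul_comm]
  push_cast
  have h' : ((y ^ σ : ℝ) : ℂ) * cexp (-(σ * (Real.log y : ℂ))) = 1 := by
    have := congrArg (fun z : ℝ => (z : ℂ)) hyσ
    push_cast at this
    exact_mod_cast this
  calc _ = (2 * Real.pi) * ((max 0 (Real.log y) : ℝ) : ℂ) * (((y ^ σ : ℝ) : ℂ) * cexp (-(σ * (Real.log y : ℂ)))) := by
        ring
    _ = _ := by rw [h']; ring

end Pool.Agent.SQ

namespace Pool.Agent.SQ

theorem perron : type_of% @perron_pr := @perron_pr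

end Pool.Agent.SQ
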