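import Pool.Agent.Lib_helper92.SQ.Defs
import Pool.Agent.Lib_helper92.SQA.ALPHA
import Pool.Agent.Lib_helper92.SQA.ASQ
import Pool.Agent.Lib_helper92.SQA.PERRON
import Pool.Agent.Lib_helper92.SQA.ZETA

/-!
# Block ABOUND
-/

namespace Pool.Agent.SQ

open Complex MeasureTheory Filter Topology

lemma abound_normsq (σ t : ℝ) : ‖(σ : ℂ) + t * I‖ ^ 2 = σ ^ 2 + t ^ 2 := by
  rw [← Complex.normSq_eq_norm_sq, Complex.normSq_add_mul_I]

lemma abound_base {σ : ℝ} (hσ : 0 < σ) : Integrable (fun t : ℝ => (σ ^ 2 + t ^ 2)⁻¹) := by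
  have h1 := (integrable_inv_one_add_sq).comp_div hσ.ne'
  have h2 := h1.const_mul ((σ ^ 2)⁻¹)
  refine h2.congr (Eventually.of_forall fun t => ?_)
  simp only
  rw [← mul_inv]
  congr 1
  field_simp

lemma abound_ne {σ : ℝ} (hσ : 0 < σ) (t : ℝ) : ((σ : ℂ) + t * I) ≠ 0 := by
  intro h
  have := congrArg Complex.re h
  simp at this
  exact hσ.ne' this

/-- the constant `∫ (1+t²)^{-3/4}` -/
noncomputable def aboundK : ℝ := ∫ t : ℝ, (1 + t ^ 2) ^ (-(3 / 4) : ℝ)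

lemma abound_K_int : Integrable (fun t : ℝ => (1 + t ^ 2) ^ (-(3 / 4) : ℝ)) := by
  have h := integrable_rpow_neg_one_add_norm_sq (E := ℝ) (μ := volume) (r := 3 / 2)
    (by simp; norm_num)
  refine h.congr (Eventually.of_forall fun t => ?_)
  simp only [Real.norm_eq_abs, sq_abs]
  norm_num

lemma abound_K_nonneg : 0 ≤ aboundK := integral_nonneg fun t => by positivity

lemma abound_scale {σ : ℝ} (hσ : 0 < σ) :
    Integrable (fun t : ℝ => (σ ^ 2 + t ^ 2) ^ (-(3 / 4) : ℝ)) ∧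
      ∫ t : ℝ, (σ ^ 2 + t ^ 2) ^ (-(3 / 4) : ℝ) = (√σ)⁻¹ * aboundK := by
  have e : ∀ t : ℝ, (σ ^ 2 + t ^ 2) ^ (-(3 / 4) : ℝ) =
      (σ ^ 2) ^ (-(3 / 4) : ℝ) * (1 + (t / σ) ^ 2) ^ (-(3 / 4) : ℝ) := by
    intro t
    rw [← Real.mul_rpow (by positivity) (by positivity)]
    congr 1
    field_simp
  constructor
  · simp_rw [e]
    exact ((abound_K_int).comp_div hσ.ne').const_mul _
  · simp_rw [e]
    rw [integral_const_mul]
    have h := MeasureTheory.Measure.integral_comp_div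
      (fun t : ℝ => (1 + t ^ 2) ^ (-(3 / 4) : ℝ)) σ
    rw [h, abs_of_pos hσ, smul_eq_mul, ← mul_assoc]
    congr 1
    rw [← Real.rpow_natCast σ 2, ← Real.rpow_mul hσ.le]
    nth_rewrite 2 [← Real.rpow_one σ]
    rw [← Real.rpow_add hσ, Real.sqrt_eq_rpow, ← Real.rpow_neg hσ.le]
    norm_num

/-- the coefficients -/
noncomputable def aba (R : ℕ) : ℕ → ℂ := fun n => if n.Coprime R then ((al n : ℝ) : ℂ) else 0

lemma abound_abs (R n : ℕ) : ‖aba R n‖ ≤ 1 := by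
  unfold aba
  split_ifs with h
  · rw [Complex.norm_real]
    exact al_abs n
  · simp

lemma abound_zero (R : ℕ) : aba R 0 = 0 := by
  unfold aba
  split_ifs <;> simp

/-- the integrand of the `n`-th term -/
noncomputable def abF (R : ℕ) (s x σ : ℝ) (n : ℕ) (t : ℝ) : ℂ :=
  aba R n * (n : ℂ) ^ (-1 - s : ℂ) *
    (((x / n : ℝ) : ℂ) ^ ((σ : ℂ) + t * I) / ((σ : ℂ) + t * I) ^ 2)

lemma abound_F_int {R : ℕ} {s x σ : ℝ} (hx : 0 < x) (hσ : 0 < σ) (n : ℕ) :
    Integrable (abF R s x σ n) ∧ ∫ t : ℝ, abF R s x σ n t =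
      aba R n * (n : ℂ) ^ (-1 - s : ℂ) * (2 * Real.pi * (max 0 (Real.log (x / n)) : ℝ)) := by
  rcases Nat.eq_zero_or_pos n with rfl | hn
  · unfold abF
    simp [abound_zero]
  · have hn' : (0 : ℝ) < n := by exact_mod_cast hn
    have h := perron (σ := σ) (y := x / n) hσ (div_pos hx hn')
    unfold abF
    refine ⟨h.1.const_mul _, ?_⟩
    rw [integral_const_mul, h.2]

lemma abound_F_norm {R : ℕ} {s x σ : ℝ} (hx : 0 < x) (hσ : 0 < σ) (n : ℕ) (t : ℝ) :
    ‖abF R s x σ n t‖ ≤ (x ^ σ * (n : ℝ) ^ (-(1 + s + σ))) * (σ ^ 2 + t ^ 2)⁻¹ := by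
  rcases Nat.eq_zero_or_pos n with rfl | hn
  · unfold abF
    simp only [abound_zero, zero_mul, norm_zero]
    positivity
  · have hn' : (0 : ℝ) < n := by exact_mod_cast hn
    unfold abF
    rw [norm_mul, norm_mul, norm_div, norm_pow, abound_normsq,
      Complex.norm_cpow_eq_rpow_re_of_pos (div_pos hx hn')]
    have e1 : ‖(n : ℂ) ^ (-1 - s : ℂ)‖ = (n : ℝ) ^ (-1 - s) := by
      rw [Complex.norm_natCast_cpow_of_pos hn]
      simp
    have e2 : ((σ : ℂ) + t * I).re = σ := by simp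
    rw [e1, e2, Real.div_rpow hx.le hn'.le]
    have e3 : (n : ℝ) ^ (-(1 + s + σ)) = (n : ℝ) ^ (-1 - s) / (n : ℝ) ^ σ := by
      rw [← Real.rpow_sub hn']
      congr 1
      ring
    rw [e3]
    calc _ ≤ 1 * (n : ℝ) ^ (-1 - s) * (x ^ σ / (n : ℝ) ^ σ / (σ ^ 2 + t ^ 2)) := by
          gcongr
          exact abound_abs R n
      _ = _ := by
          field_simp

lemma abound_rep {R : ℕ} {s x σ : ℝ} (hx : 1 ≤ x) (hs : 0 ≤ s) (hσ : 0 < σ) :
    (2 * Real.pi * (AA R s x : ℂ) : ℂ) = ∫ t : ℝ, (x : ℂ) ^ ((σ : ℂ) + t * I) *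
      LSeries (aba R) (1 + (s + σ : ℝ) + t * I) / ((σ : ℂ) + t * I) ^ 2 := by
  have hx0 : 0 < x := by linarith
  have hsum : Summable (fun n : ℕ => (n : ℝ) ^ (-(1 + s + σ))) :=
    Real.summable_nat_rpow.2 (by linarith)
  have hint := fun n => (abound_F_int (R := R) (s := s) (x := x) (σ := σ) hx0 hσ n).1
  have hH : HasSum (fun n => ∫ t, abF R s x σ n t) (∫ t, ∑' n, abF R s x σ n t) := by
    refine hasSum_integral_of_summable_integral_norm hint ?_
    refine Summable.of_nonneg_of_le (fun n => integral_nonneg fun t => norm_nonneg _)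
      (fun n => ?_) ((hsum.mul_left (x ^ σ)).mul_right (∫ t : ℝ, (σ ^ 2 + t ^ 2)⁻¹))
    rw [← integral_const_mul]
    exact integral_mono (hint n).norm ((abound_base hσ).const_mul _)
      (fun t => abound_F_norm hx0 hσ n t)
  have e1 : ∀ t : ℝ, ∑' n, abF R s x σ n t = (x : ℂ) ^ ((σ : ℂ) + t * I) *
      LSeries (aba R) (1 + (s + σ : ℝ) + t * I) / ((σ : ℂ) + t * I) ^ 2 := by
    intro t
    rw [mul_div_right_comm, LSeries, ← tsum_mul_left]
    refine tsum_congr fun n => ?_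
    rcases Nat.eq_zero_or_pos n with rfl | hn
    · simp [abF, abound_zero]
    · have hn' : (0 : ℝ) < n := by exact_mod_cast hn
      have hnc : (n : ℂ) ≠ 0 := by exact_mod_cast hn.ne'
      rw [LSeries.term_of_ne_zero hn.ne', abF]
      have e2 : (((x / n : ℝ) : ℂ)) ^ ((σ : ℂ) + t * I) =
          (x : ℂ) ^ ((σ : ℂ) + t * I) / (n : ℂ) ^ ((σ : ℂ) + t * I) := by
        have hxn : (0 : ℝ) < x / n := div_pos hx0 hn'
        rw [Complex.cpow_def_of_ne_zero (by exact_mod_cast hxn.ne'),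
          Complex.cpow_def_of_ne_zero (by exact_mod_cast hx0.ne'),
          Complex.cpow_def_of_ne_zero hnc, ← Complex.exp_sub, ← Complex.ofReal_log hxn.le,
          ← Complex.ofReal_log hx0.le, ← Complex.natCast_log,
          Real.log_div hx0.ne' hn'.ne']
        congr 1
        push_cast
        ring
      have e3 : (n : ℂ) ^ (1 + ((s + σ : ℝ) : ℂ) + t * I) =
          (n : ℂ) ^ ((σ : ℂ) + t * I) / (n : ℂ) ^ (-1 - s : ℂ) := by
        rw [← Complex.cpow_sub _ _ hnc]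
        congr 1
        push_cast
        ring
      have h1 : (n : ℂ) ^ ((σ : ℂ) + t * I) ≠ 0 := by
        rw [Ne, Complex.cpow_eq_zero_iff]
        tauto
      have h2 : (n : ℂ) ^ (-1 - s : ℂ) ≠ 0 := by
        rw [Ne, Complex.cpow_eq_zero_iff]
        tauto
      rw [e2, e3]
      field_simp
  simp_rw [e1] at hH
  rw [← hH.tsum_eq]
  have e4 : ∀ n : ℕ, n ∉ Finset.range (⌊x⌋₊ + 1) → ∫ t : ℝ, abF R s x σ n t = 0 := by
    intro n hn
    rw [(abound_F_int hx0 hσ n).2]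
    have hn1 : ⌊x⌋₊ < n := by simpa using hn
    have hn2 : x < n := (Nat.floor_lt hx0.le).1 hn1
    have hn3 : (0 : ℝ) < n := hx0.trans hn2
    have : Real.log (x / n) ≤ 0 := Real.log_nonpos (by positivity) ((div_le_one hn3).2 hn2.le)
    rw [max_eq_left this]
    simp
  rw [tsum_eq_sum e4]
  unfold AA
  push_cast
  rw [Finset.mul_sum, Finset.sum_filter]
  refine Finset.sum_congr rfl fun n hn => ?_
  rw [(abound_F_int hx0 hσ n).2]
  unfold aba
  split_ifs with hc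
  · rcases Nat.eq_zero_or_pos n with rfl | hn0
    · simp
    · have hn' : (0 : ℝ) < n := by exact_mod_cast hn0
      have hnx : (n : ℝ) ≤ x := by
        have : n ≤ ⌊x⌋₊ := by
          have := Finset.mem_range.1 hn
          omega
        exact (Nat.le_floor_iff hx0.le).1 this
      have hlog : 0 ≤ Real.log (x / n) := Real.log_nonneg ((one_le_div hn').2 hnx)
      rw [max_eq_right hlog]
      have e5 : (((n : ℝ) ^ (-1 - s) : ℝ) : ℂ) = (n : ℂ) ^ (-1 - s : ℂ) := by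
        rw [Complex.ofReal_cpow hn'.le]
        push_cast
        rfl
      rw [← e5]
      ring
  · simp

theorem AA_le_pr : ∃ C : ℝ, 0 ≤ C ∧ ∀ R : ℕ, 0 < R → ∀ s x : ℝ, 1 ≤ x → 0 ≤ s →
    s ≤ 2 / (1 + Real.log x) →
      |AA R s x| ≤ C * √(1 + Real.log x) * √(R / R.totient) := by
  obtain ⟨C, hC, hz⟩ := zeta_low
  refine ⟨Real.exp 1 * (√(3 * C) * aboundK + √2 * (2 * Real.pi)) / (2 * Real.pi), ?_, ?_⟩
  · have := abound_K_nonneg
    positivity
  intro R hR s x hx hs hsx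
  have hlog : 0 ≤ Real.log x := Real.log_nonneg hx
  have hx0 : 0 < x := by linarith
  set σ : ℝ := 1 / (1 + Real.log x) with hσdef
  have hσ : 0 < σ := by positivity
  have hσ1 : σ ≤ 1 := by
    rw [hσdef, div_le_one (by positivity)]
    linarith
  have hs2 : s ≤ 2 * σ := by
    rw [hσdef]
    convert hsx using 1
    ring
  set M : ℝ := √(R / R.totient) with hM
  have hM0 : 0 ≤ M := Real.sqrt_nonneg _
  have hφ : (0 : ℝ) < R.totient := by exact_mod_cast Nat.totient_pos.2 hR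
  have hR0 : (0 : ℝ) < R := by exact_mod_cast hR
  have hM2 : M ^ 2 = R / R.totient := Real.sq_sqrt (by positivity)
  set η : ℝ := s + σ with hη
  have hη0 : 0 < η := by positivity
  have hη3 : η ≤ 3 * σ := by linarith
  -- bound for the L-series
  have hA : ∀ t : ℝ, ‖LSeries (aba R) (1 + (η : ℝ) + t * I)‖ ^ 2 *
      ‖riemannZeta (1 + (η : ℝ) + t * I)‖ ≤ M ^ 2 := by
    intro t
    rw [hM2]
    have := (asq hR (w := 1 + (η : ℝ) + t * I) (by simp [hη0])).2
    exact this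
  have hAlow : ∀ t : ℝ, |t| ≤ 1 → ‖LSeries (aba R) (1 + (η : ℝ) + t * I)‖ ≤
      √(3 * C) * √‖(σ : ℂ) + t * I‖ * M := by
    intro t ht
    have h1 := hz η t hη0 (by linarith) ht
    have h2 := hA t
    have h3 : ‖(η : ℂ) + t * I‖ ≤ 3 * ‖(σ : ℂ) + t * I‖ := by
      refine abs_le_of_sq_le_sq' ?_ (by positivity) |>.2
      rw [mul_pow, abound_normsq, abound_normsq]
      nlinarith [sq_nonneg t, sq_nonneg σ, sq_nonneg η]
    set a := ‖LSeries (aba R) (1 + (η : ℝ) + t * I)‖ with ha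
    set z := ‖riemannZeta (1 + (η : ℝ) + t * I)‖ with hzz
    have ha0 : 0 ≤ a := norm_nonneg _
    have hz0 : 0 ≤ z := norm_nonneg _
    have h4 : a ^ 2 ≤ (√(3 * C) * √‖(σ : ℂ) + t * I‖ * M) ^ 2 := by
      rw [mul_pow, mul_pow, Real.sq_sqrt (by positivity), Real.sq_sqrt (norm_nonneg _)]
      calc a ^ 2 = a ^ 2 * 1 := by ring
        _ ≤ a ^ 2 * (C * ‖(η : ℂ) + t * I‖ * z) := by gcongr
        _ = (C * ‖(η : ℂ) + t * I‖) * (a ^ 2 * z) := by ring
        _ ≤ (C * (3 * ‖(σ : ℂ) + t * I‖)) * M ^ 2 := by gcongr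
        _ = _ := by ring
    exact abs_le_of_sq_le_sq' h4 (by positivity) |>.2
  have hAhigh : ∀ t : ℝ, ‖LSeries (aba R) (1 + (η : ℝ) + t * I)‖ ≤ √2 * (√σ)⁻¹ * M := by
    intro t
    have h1 := zeta_low' η t hη0
    have h2 := hA t
    set a := ‖LSeries (aba R) (1 + (η : ℝ) + t * I)‖ with ha
    set z := ‖riemannZeta (1 + (η : ℝ) + t * I)‖ with hzz
    have ha0 : 0 ≤ a := norm_nonneg _
    have hz0 : 0 ≤ z := norm_nonneg _
    have h3 : 1 + 1 / η ≤ 2 / σ := by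
      have e1 : 1 / η ≤ 1 / σ := one_div_le_one_div_of_le hσ (by linarith)
      have e2 : 1 ≤ 1 / σ := by rw [le_div_iff₀ hσ]; linarith
      calc 1 + 1 / η ≤ 1 / σ + 1 / σ := by linarith
        _ = 2 / σ := by ring
    have h4 : a ^ 2 ≤ (√2 * (√σ)⁻¹ * M) ^ 2 := by
      rw [mul_pow, mul_pow, Real.sq_sqrt (by positivity), inv_pow, Real.sq_sqrt hσ.le]
      calc a ^ 2 = a ^ 2 * 1 := by ring
        _ ≤ a ^ 2 * ((1 + 1 / η) * z) := by gcongr
        _ = (1 + 1 / η) * (a ^ 2 * z) := by ring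
        _ ≤ (2 / σ) * M ^ 2 := by gcongr
        _ = _ := by rw [div_eq_mul_inv]
    exact abs_le_of_sq_le_sq' h4 (by positivity) |>.2
  have hxσ : x ^ σ ≤ Real.exp 1 := by
    rw [Real.rpow_def_of_pos hx0]
    apply Real.exp_le_exp.2
    rw [hσdef, mul_one_div, div_le_one (by positivity)]
    linarith
  obtain ⟨hI1, hI2⟩ := abound_scale hσ
  set g : ℝ → ℝ := fun t => (Real.exp 1 * √(3 * C) * M) * (σ ^ 2 + t ^ 2) ^ (-(3 / 4) : ℝ) +
    (Real.exp 1 * (√2 * (√σ)⁻¹ * M) * 2) * (1 + t ^ 2)⁻¹ with hg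
  have hgint : Integrable g := (hI1.const_mul _).add (integrable_inv_one_add_sq.const_mul _)
  have hgval : ∫ t, g t = Real.exp 1 * (√(3 * C) * aboundK + √2 * (2 * Real.pi)) *
      ((√σ)⁻¹ * M) := by
    rw [hg, integral_add (hI1.const_mul _) (integrable_inv_one_add_sq.const_mul _),
      integral_const_mul, integral_const_mul, hI2, integral_univ_inv_one_add_sq]
    ring
  have hbound : ∀ t : ℝ, ‖(x : ℂ) ^ ((σ : ℂ) + t * I) *
      LSeries (aba R) (1 + (s + σ : ℝ) + t * I) / ((σ : ℂ) + t * I) ^ 2‖ ≤ g t := by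
    intro t
    have hw := abound_ne hσ t
    have hw' : 0 < ‖(σ : ℂ) + t * I‖ := norm_pos_iff.2 hw
    rw [norm_div, norm_mul, norm_pow, Complex.norm_cpow_eq_rpow_re_of_pos hx0]
    have e2 : ((σ : ℂ) + t * I).re = σ := by simp
    rw [e2, ← hη]
    have hg1 : 0 ≤ (Real.exp 1 * √(3 * C) * M) * (σ ^ 2 + t ^ 2) ^ (-(3 / 4) : ℝ) := by positivity
    have hg2 : 0 ≤ (Real.exp 1 * (√2 * (√σ)⁻¹ * M) * 2) * (1 + t ^ 2)⁻¹ := by positivity
    rcases le_or_gt |t| 1 with ht | ht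
    · have h1 := hAlow t ht
      have h2 : √‖(σ : ℂ) + t * I‖ / ‖(σ : ℂ) + t * I‖ ^ 2 = (σ ^ 2 + t ^ 2) ^ (-(3 / 4) : ℝ) := by
        rw [← abound_normsq, Real.sqrt_eq_rpow, ← Real.rpow_natCast ‖(σ : ℂ) + t * I‖ 2,
          ← Real.rpow_sub hw', ← Real.rpow_mul hw'.le]
        norm_num
      calc _ ≤ Real.exp 1 * (√(3 * C) * √‖(σ : ℂ) + t * I‖ * M) / ‖(σ : ℂ) + t * I‖ ^ 2 := by
            gcongr
        _ = (Real.exp 1 * √(3 * C) * M) * (√‖(σ : ℂ) + t * I‖ / ‖(σ : ℂ) + t * I‖ ^ 2) := by ring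
        _ = (Real.exp 1 * √(3 * C) * M) * (σ ^ 2 + t ^ 2) ^ (-(3 / 4) : ℝ) := by rw [h2]
        _ ≤ g t := by
            simp only [hg]
            linarith
    · have h1 := hAhigh t
      have ht2 : 1 < t ^ 2 := by
        rw [← sq_abs]
        nlinarith
      calc _ ≤ Real.exp 1 * (√2 * (√σ)⁻¹ * M) / ‖(σ : ℂ) + t * I‖ ^ 2 := by gcongr
        _ ≤ Real.exp 1 * (√2 * (√σ)⁻¹ * M) / ((1 + t ^ 2) / 2) := by
            gcongr
            rw [abound_normsq]
            nlinarith [sq_nonneg σ]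
        _ = (Real.exp 1 * (√2 * (√σ)⁻¹ * M) * 2) * (1 + t ^ 2)⁻¹ := by
            field_simp
        _ ≤ g t := by
            simp only [hg]
            linarith
  have hfin := norm_integral_le_of_norm_le hgint (Eventually.of_forall hbound)
  rw [← abound_rep hx hs hσ, hgval] at hfin
  have hl : ‖(2 * Real.pi * (AA R s x : ℂ) : ℂ)‖ = 2 * Real.pi * |AA R s x| := by
    rw [norm_mul, Complex.norm_real, Real.norm_eq_abs, norm_mul, Complex.norm_real,
      Real.norm_eq_abs, abs_of_pos Real.pi_pos]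
    simp
  rw [hl] at hfin
  have hsq : (√σ)⁻¹ = √(1 + Real.log x) := by
    rw [← Real.sqrt_inv, hσdef, one_div, inv_inv]
  rw [hsq] at hfin
  rw [div_mul_eq_mul_div, div_mul_eq_mul_div, le_div_iff₀ (by positivity)]
  linarith

end Pool.Agent.SQ

namespace Pool.Agent.SQ

theorem AA_le : type_of% @AA_le_pr := @AA_le_pr

end Pool.Agent.SQ
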