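import Pool.Agent.Lib_helper92.SQ.Defs

set_option autoImplicit false

namespace Pool.Agent.SQ

open Finset

theorem rsum1_step {σ : ℝ} (hσ : 0 < σ) {m : ℕ} (hm : 1 ≤ m) :
    ((m : ℝ) + 1) ^ (-1 - σ) ≤ 1 / σ * ((m : ℝ) ^ (-σ) - ((m : ℝ) + 1) ^ (-σ)) := by
  have hm0 : (0 : ℝ) < m := by exact_mod_cast hm
  have hm1 : (0 : ℝ) < (m : ℝ) + 1 := by positivity
  set x : ℝ := 1 / ((m : ℝ) + 1) with hx
  have hx0 : 0 < x := by positivity
  have hx1 : 0 < 1 - x := by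
    rw [hx, sub_pos, div_lt_one hm1]
    linarith
  have hmx : (m : ℝ) = ((m : ℝ) + 1) * (1 - x) := by
    rw [hx]
    field_simp
    ring
  have h1 : (m : ℝ) ^ (-σ) = ((m : ℝ) + 1) ^ (-σ) * (1 - x) ^ (-σ) := by
    conv_lhs => rw [hmx]
    rw [Real.mul_rpow hm1.le hx1.le]
  have h2 : 1 + σ * x ≤ (1 - x) ^ (-σ) := by
    rw [Real.rpow_def_of_pos hx1]
    have h3 : Real.log (1 - x) ≤ -x := by
      have := Real.log_le_sub_one_of_pos hx1
      linarith
    have h4 : σ * x ≤ Real.log (1 - x) * -σ := by nlinarith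
    have h5 := Real.add_one_le_exp (σ * x)
    have h6 := Real.exp_le_exp.mpr h4
    linarith
  have h7 : ((m : ℝ) + 1) ^ (-1 - σ) = ((m : ℝ) + 1) ^ (-σ) * x := by
    rw [hx, show (-1 - σ : ℝ) = -σ + -1 by ring, Real.rpow_add hm1, Real.rpow_neg_one, one_div]
  have h8 : 0 < ((m : ℝ) + 1) ^ (-σ) := Real.rpow_pos_of_pos hm1 _
  rw [h1, h7, one_div, inv_mul_eq_div, le_div_iff₀ hσ]
  have h9 : ((m : ℝ) + 1) ^ (-σ) * (1 + σ * x) ≤ ((m : ℝ) + 1) ^ (-σ) * (1 - x) ^ (-σ) :=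
    mul_le_mul_of_nonneg_left h2 h8.le
  linarith

theorem rsum1_zeta {σ : ℝ} (hσ : 0 < σ) :
    ∑' m : ℕ, (m : ℝ) ^ (-1 - σ) ≤ 1 + 1 / σ := by
  refine Real.tsum_le_of_sum_range_le (fun n => Real.rpow_nonneg (Nat.cast_nonneg n) _)
    (fun n => ?_)
  have key : ∀ N : ℕ, ∑ m ∈ range (N + 2), (m : ℝ) ^ (-1 - σ) ≤
      1 + 1 / σ * (1 - ((N : ℝ) + 1) ^ (-σ)) := by
    intro N
    induction N with
    | zero =>
      rw [Finset.sum_range_succ, Finset.sum_range_one, Nat.cast_zero,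
        Real.zero_rpow (by linarith)]
      simp
    | succ N ih =>
      rw [Finset.sum_range_succ]
      have h := rsum1_step hσ (m := N + 1) (by omega)
      push_cast at h ⊢
      have h' : ((N : ℝ) + 1 + 1) = (N : ℝ) + 2 := by ring
      rw [h'] at h ⊢
      linarith
  have hmono : ∑ m ∈ range n, (m : ℝ) ^ (-1 - σ) ≤ ∑ m ∈ range (n + 2), (m : ℝ) ^ (-1 - σ) :=
    Finset.sum_le_sum_of_subset_of_nonneg (Finset.range_mono (by omega))
      (fun i _ _ => Real.rpow_nonneg (Nat.cast_nonneg i) _)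
  have h1 := key n
  have h2 : 0 ≤ 1 / σ * ((n : ℝ) + 1) ^ (-σ) := by positivity
  linarith

theorem rsum1_summable {σ : ℝ} (hσ : 0 < σ) : Summable (fun m : ℕ => (m : ℝ) ^ (-1 - σ)) :=
  Real.summable_nat_rpow.mpr (by linarith)

theorem rsum1_summable_ite {σ : ℝ} (hσ : 0 < σ) (p : ℕ → Prop) [DecidablePred p] :
    Summable (fun m : ℕ => if p m then (m : ℝ) ^ (-1 - σ) else 0) := by
  refine Summable.of_nonneg_of_le (fun m => ?_) (fun m => ?_) (rsum1_summable hσ)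
  · split_ifs
    · exact Real.rpow_nonneg (Nat.cast_nonneg m) _
    · exact le_refl _
  · split_ifs
    · exact le_refl _
    · exact Real.rpow_nonneg (Nat.cast_nonneg m) _

theorem rsum1_sieve {σ : ℝ} (hσ : 0 < σ) (P : Finset ℕ) (hP : ∀ p ∈ P, p.Prime) :
    ∑' m : ℕ, (if ∀ p ∈ P, ¬ p ∣ m then (m : ℝ) ^ (-1 - σ) else 0) =
      (∏ p ∈ P, (1 - (p : ℝ) ^ (-1 - σ))) * ∑' m : ℕ, (m : ℝ) ^ (-1 - σ) := by
  induction P using Finset.induction_on with
  | empty => simp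
  | insert a P ha ih =>
    have hPP : ∀ p ∈ P, p.Prime := fun p hp => hP p (Finset.mem_insert_of_mem hp)
    have hap : a.Prime := hP a (Finset.mem_insert_self _ _)
    have ha0 : 0 < a := hap.pos
    set F : ℕ → ℝ := fun m => if ∀ p ∈ P, ¬ p ∣ m then (m : ℝ) ^ (-1 - σ) else 0 with hF
    have hFs : Summable F := rsum1_summable_ite hσ _
    have hGs : Summable (fun m : ℕ => if a ∣ m then F m else 0) := by
      refine Summable.of_nonneg_of_le (fun m => ?_) (fun m => ?_) hFs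
      · simp only [hF]
        split_ifs
        · exact Real.rpow_nonneg (Nat.cast_nonneg m) _
        · exact le_refl _
        · exact le_refl _
      · simp only [hF]
        split_ifs
        · exact le_refl _
        · exact le_refl _
        · exact Real.rpow_nonneg (Nat.cast_nonneg m) _
        · exact le_refl _
    have h1 : (fun m : ℕ => if ∀ p ∈ insert a P, ¬ p ∣ m then (m : ℝ) ^ (-1 - σ) else 0) =
        fun m => F m - (if a ∣ m then F m else 0) := by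
      funext m
      simp only [hF, Finset.forall_mem_insert]
      by_cases h : a ∣ m
      · simp [h]
      · simp [h]
    have h2 : ∑' m : ℕ, (if a ∣ m then F m else 0) = (a : ℝ) ^ (-1 - σ) * ∑' m : ℕ, F m := by
      have hinj : Function.Injective (fun k : ℕ => a * k) := fun x y h =>
        Nat.eq_of_mul_eq_mul_left ha0 h
      have h3 : Function.support (fun m : ℕ => if a ∣ m then F m else 0) ⊆
          Set.range (fun k : ℕ => a * k) := by
        intro m hm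
        by_contra hcon
        apply hm
        have h4 : ¬ a ∣ m := by
          rintro ⟨k, rfl⟩
          exact hcon ⟨k, rfl⟩
        simp only [if_neg h4]
      rw [← hinj.tsum_eq h3, ← tsum_mul_left]
      congr 1
      funext k
      have h5 : a ∣ a * k := dvd_mul_right a k
      simp only [if_pos h5, hF]
      have h6 : (∀ p ∈ P, ¬ p ∣ a * k) ↔ (∀ p ∈ P, ¬ p ∣ k) := by
        refine forall₂_congr (fun p hp => ?_)
        have hpp := hPP p hp
        have hne : p ≠ a := fun h => ha (h ▸ hp)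
        rw [hpp.dvd_mul, Nat.prime_dvd_prime_iff_eq hpp hap]
        constructor
        · intro h h'
          exact h (Or.inr h')
        · rintro h (h' | h')
          · exact hne h'
          · exact h h'
      by_cases h7 : ∀ p ∈ P, ¬ p ∣ k
      · rw [if_pos (h6.mpr h7), if_pos h7]
        push_cast
        rw [Real.mul_rpow (Nat.cast_nonneg a) (Nat.cast_nonneg k)]
      · rw [if_neg (fun h => h7 (h6.mp h)), if_neg h7, mul_zero]
    rw [h1, hFs.tsum_sub hGs, h2, Finset.prod_insert ha, ih hPP]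
    ring

theorem rsum1_coprime {q : ℕ} (hq : 0 < q) (m : ℕ) :
    m.Coprime q ↔ ∀ p ∈ q.primeFactors, ¬ p ∣ m := by
  constructor
  · intro h p hp hpm
    exact Nat.Prime.not_coprime_iff_dvd.mpr
      ⟨p, Nat.prime_of_mem_primeFactors hp, hpm, Nat.dvd_of_mem_primeFactors hp⟩ h
  · intro h
    by_contra hcon
    obtain ⟨p, hp, hpm, hpq⟩ := Nat.Prime.not_coprime_iff_dvd.mp hcon
    exact h p (Nat.mem_primeFactors.mpr ⟨hp, hpq, hq.ne'⟩) hpm

theorem rsum1_factor {σ : ℝ} (hσ : 0 < σ) {p : ℕ} (hp : p.Prime) :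
    1 - (p : ℝ) ^ (-1 - σ) ≤ (1 - (p : ℝ)⁻¹) * (p : ℝ) ^ σ := by
  have hp2 : (2 : ℝ) ≤ p := by exact_mod_cast hp.two_le
  have hp0 : (0 : ℝ) < p := by linarith
  set a : ℝ := (p : ℝ) ^ σ with ha
  have ha1 : 1 ≤ a := Real.one_le_rpow (by linarith) hσ.le
  have ha0 : 0 < a := by linarith
  have h1 : (p : ℝ) ^ (-1 - σ) = (p : ℝ)⁻¹ * a⁻¹ := by
    rw [show (-1 - σ : ℝ) = -1 + -σ by ring, Real.rpow_add hp0, Real.rpow_neg_one,
      Real.rpow_neg hp0.le]
  rw [h1]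
  have h2 : (1 - (p : ℝ)⁻¹) * a - (1 - (p : ℝ)⁻¹ * a⁻¹) =
      (a - 1) * (p * a - (a + 1)) * ((p : ℝ)⁻¹ * a⁻¹) := by
    field_simp
    ring
  have h3 : 0 ≤ (a - 1) * (p * a - (a + 1)) * ((p : ℝ)⁻¹ * a⁻¹) := by
    refine mul_nonneg (mul_nonneg (by linarith) ?_) (by positivity)
    nlinarith
  linarith

theorem rsum1_prod_le {q : ℕ} (hq : 0 < q) {σ : ℝ} (hσ : 0 < σ) :
    ∏ p ∈ q.primeFactors, (1 - (p : ℝ) ^ (-1 - σ)) ≤ (q.totient / q) * (q : ℝ) ^ σ := by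
  have hq0 : (0 : ℝ) < q := by exact_mod_cast hq
  have h1 : ∏ p ∈ q.primeFactors, (1 - (p : ℝ) ^ (-1 - σ)) ≤
      ∏ p ∈ q.primeFactors, ((1 - (p : ℝ)⁻¹) * (p : ℝ) ^ σ) := by
    refine Finset.prod_le_prod (fun p hp => ?_) (fun p hp => ?_)
    · have hp' := Nat.prime_of_mem_primeFactors hp
      have hp1 : (1 : ℝ) ≤ p := by exact_mod_cast hp'.one_le
      have := Real.rpow_le_one_of_one_le_of_nonpos hp1 (by linarith : -1 - σ ≤ 0)
      linarith
    · exact rsum1_factor hσ (Nat.prime_of_mem_primeFactors hp)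
  have h2 : ∏ p ∈ q.primeFactors, (1 - (p : ℝ)⁻¹) = q.totient / q := by
    have h3 := Nat.totient_eq_mul_prod_factors q
    have h4 : ((q.totient : ℚ) : ℝ) = ((q * ∏ p ∈ q.primeFactors, (1 - (p : ℚ)⁻¹) : ℚ) : ℝ) := by
      rw [h3]
    push_cast at h4
    rw [h4]
    field_simp
  have h5 : ∏ p ∈ q.primeFactors, (p : ℝ) ^ σ ≤ (q : ℝ) ^ σ := by
    rw [Real.finsetProd_rpow _ _ (fun p _ => Nat.cast_nonneg p)]
    refine Real.rpow_le_rpow (Finset.prod_nonneg (fun p _ => Nat.cast_nonneg p)) ?_ hσ.le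
    have h6 : ∏ p ∈ q.primeFactors, p ≤ q := Nat.le_of_dvd hq (Nat.prod_primeFactors_dvd q)
    have h7 : ((∏ p ∈ q.primeFactors, p : ℕ) : ℝ) ≤ q := by exact_mod_cast h6
    rwa [Nat.cast_prod] at h7
  calc ∏ p ∈ q.primeFactors, (1 - (p : ℝ) ^ (-1 - σ))
      ≤ ∏ p ∈ q.primeFactors, ((1 - (p : ℝ)⁻¹) * (p : ℝ) ^ σ) := h1
    _ = (q.totient / q) * ∏ p ∈ q.primeFactors, (p : ℝ) ^ σ := by
        rw [Finset.prod_mul_distrib, h2]
    _ ≤ (q.totient / q) * (q : ℝ) ^ σ := mul_le_mul_of_nonneg_left h5 (by positivity)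

theorem rsum1_pr {q : ℕ} (hq : 0 < q) {σ : ℝ} (hσ : 0 < σ) :
    Summable (fun m : ℕ => if m.Coprime q then (m : ℝ) ^ (-1 - σ) else 0) ∧
      ∑' m : ℕ, (if m.Coprime q then (m : ℝ) ^ (-1 - σ) else 0) ≤
        (1 + 1 / σ) * (q.totient / q) * (q : ℝ) ^ σ := by
  refine ⟨rsum1_summable_ite hσ _, ?_⟩
  have h1 : (fun m : ℕ => if m.Coprime q then (m : ℝ) ^ (-1 - σ) else 0) =
      fun m : ℕ => if ∀ p ∈ q.primeFactors, ¬ p ∣ m then (m : ℝ) ^ (-1 - σ) else 0 := by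
    funext m
    by_cases h : m.Coprime q
    · rw [if_pos h, if_pos ((rsum1_coprime hq m).mp h)]
    · rw [if_neg h, if_neg (fun h' => h ((rsum1_coprime hq m).mpr h'))]
  rw [h1, rsum1_sieve hσ _ (fun p hp => Nat.prime_of_mem_primeFactors hp)]
  have h2 : 0 ≤ ∑' m : ℕ, (m : ℝ) ^ (-1 - σ) :=
    tsum_nonneg (fun m => Real.rpow_nonneg (Nat.cast_nonneg m) _)
  have hq0 : (0 : ℝ) < q := by exact_mod_cast hq
  have h3 : 0 ≤ ((q.totient : ℝ) / q) * (q : ℝ) ^ σ := by positivity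
  calc (∏ p ∈ q.primeFactors, (1 - (p : ℝ) ^ (-1 - σ))) * ∑' m : ℕ, (m : ℝ) ^ (-1 - σ)
      ≤ ((q.totient / q) * (q : ℝ) ^ σ) * ∑' m : ℕ, (m : ℝ) ^ (-1 - σ) :=
        mul_le_mul_of_nonneg_right (rsum1_prod_le hq hσ) h2
    _ ≤ ((q.totient / q) * (q : ℝ) ^ σ) * (1 + 1 / σ) :=
        mul_le_mul_of_nonneg_left (rsum1_zeta hσ) h3
    _ = (1 + 1 / σ) * (q.totient / q) * (q : ℝ) ^ σ := by ring

end Pool.Agent.SQ

namespace Pool.Agent.SQ

theorem rsum1 : type_of% @rsum1_pr := @rsum1_pr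

end Pool.Agent.SQ
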