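import Pool.Agent.Lib_helper92.SQ.Defs

/-! Block JT (helper35). -/

namespace Pool.Agent.SQ

open ArithmeticFunction

/-- `n^{1+s}` as an arithmetic function. -/
noncomputable def jt_F (s : ℝ) : ArithmeticFunction ℝ :=
  ⟨fun n => if n = 0 then 0 else (n : ℝ) ^ (1 + s), by simp⟩

theorem jt_F_apply (s : ℝ) {n : ℕ} (hn : n ≠ 0) : jt_F s n = (n : ℝ) ^ (1 + s) := by
  simp [jt_F, hn]

theorem jt_eq (s : ℝ) (r : ℕ) :
    Jt s r = (((ArithmeticFunction.moebius : ArithmeticFunction ℤ) : ArithmeticFunction ℝ) *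
      jt_F s) r := by
  rw [ArithmeticFunction.mul_apply]
  unfold Jt
  refine Finset.sum_congr rfl fun p hp => ?_
  have h2 : p.2 ≠ 0 := by
    have := Nat.mem_divisorsAntidiagonal.mp hp
    intro h0
    rw [h0, mul_zero] at this
    exact this.2 this.1.symm
  rw [jt_F_apply s h2]
  simp [ArithmeticFunction.intCoe_apply]

theorem Jt_sum_pr {s : ℝ} (g : ℕ) (hg : 0 < g) :
    ∑ r ∈ g.divisors, Jt s r = (g : ℝ) ^ (1 + s) := by
  have h1 : ∑ r ∈ g.divisors, Jt s r =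
      ((ArithmeticFunction.zeta : ArithmeticFunction ℝ) *
        (((ArithmeticFunction.moebius : ArithmeticFunction ℤ) : ArithmeticFunction ℝ) *
          jt_F s)) g := by
    rw [ArithmeticFunction.coe_zeta_mul_apply]
    exact Finset.sum_congr rfl fun r _ => jt_eq s r
  rw [h1, ← mul_assoc, ArithmeticFunction.coe_zeta_mul_coe_moebius, one_mul,
    jt_F_apply s hg.ne']

theorem jt_F_mult (s : ℝ) : (jt_F s).IsMultiplicative := by
  refine ArithmeticFunction.IsMultiplicative.iff_ne_zero.mpr ⟨?_, ?_⟩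
  · rw [jt_F_apply s one_ne_zero]; simp
  · intro m n hm hn _
    rw [jt_F_apply s hm, jt_F_apply s hn, jt_F_apply s (Nat.mul_ne_zero hm hn), Nat.cast_mul,
      Real.mul_rpow (Nat.cast_nonneg m) (Nat.cast_nonneg n)]

theorem jt_mult (s : ℝ) : ((((ArithmeticFunction.moebius : ArithmeticFunction ℤ) :
    ArithmeticFunction ℝ) * jt_F s)).IsMultiplicative :=
  ArithmeticFunction.isMultiplicative_moebius.intCast.mul (jt_F_mult s)

theorem jt_prime_pow {s : ℝ} {p : ℕ} (hp : p.Prime) (k : ℕ) :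
    Jt s (p ^ (k + 1)) = ((p ^ (k + 1) : ℕ) : ℝ) ^ (1 + s) - ((p ^ k : ℕ) : ℝ) ^ (1 + s) := by
  have h1 := Jt_sum_pr (s := s) (p ^ (k + 1)) (pow_pos hp.pos _)
  have h2 := Jt_sum_pr (s := s) (p ^ k) (pow_pos hp.pos _)
  rw [Nat.sum_divisors_prime_pow hp] at h1 h2
  rw [Finset.sum_range_succ] at h1
  rw [h2] at h1
  linarith

theorem Jt_nonneg_pr {s : ℝ} (hs : 0 ≤ s) (r : ℕ) : 0 ≤ Jt s r := by
  rcases Nat.eq_zero_or_pos r with rfl | hr
  · simp [Jt]
  rw [jt_eq, (jt_mult s).multiplicative_factorization _ hr.ne']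
  refine Finset.prod_nonneg fun p hp => ?_
  have hpp : p.Prime := Nat.prime_of_mem_primeFactors (by simpa using hp)
  have hk : r.factorization p ≠ 0 := Finsupp.mem_support_iff.mp hp
  obtain ⟨k, hk'⟩ := Nat.exists_eq_succ_of_ne_zero hk
  simp only [hk']
  rw [← jt_eq, jt_prime_pow hpp, sub_nonneg]
  apply Real.rpow_le_rpow (Nat.cast_nonneg _)
  · exact_mod_cast Nat.pow_le_pow_right hpp.pos (Nat.le_succ k)
  · linarith

theorem Jt_le_pr {s : ℝ} (hs : 0 ≤ s) (r : ℕ) : Jt s r ≤ (r : ℝ) ^ (1 + s) := by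
  rcases Nat.eq_zero_or_pos r with rfl | hr
  · simp only [Jt, Nat.divisorsAntidiagonal_zero, Finset.sum_empty]
    exact Real.rpow_nonneg (Nat.cast_nonneg _) _
  rw [← Jt_sum_pr r hr]
  exact Finset.single_le_sum (f := fun r => Jt s r) (fun i _ => Jt_nonneg_pr hs i)
    (Nat.mem_divisors_self r hr.ne')

end Pool.Agent.SQ

namespace Pool.Agent.SQ

theorem Jt_nonneg : type_of% @Jt_nonneg_pr := @Jt_nonneg_pr

theorem Jt_le : type_of% @Jt_le_pr := @Jt_le_pr

theorem Jt_sum : type_of% @Jt_sum_pr := @Jt_sum_pr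

end Pool.Agent.SQ
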