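import Pool.Agent.Lib_helper92.SQ.Defs
import Pool.Agent.Lib_helper92.SQA.RSUM1
import Pool.Agent.Lib_helper92.SQA.RSUM2

set_option autoImplicit false

namespace Pool.Agent.SQ

open Finset

theorem rsum3_NN {L : ℝ} (hL : 0 ≤ L) : ((NN L : ℕ) : ℝ) ≤ Real.exp (L + 1) := by
  have h1 : ((NN L : ℕ) : ℝ) < Real.exp L + 1 := Nat.ceil_lt_add_one (Real.exp_pos L).le
  have h2 : 1 ≤ Real.exp L := Real.one_le_exp hL
  have h3 : (2 : ℝ) ≤ Real.exp 1 := by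
    have := Real.add_one_le_exp (1 : ℝ)
    linarith
  rw [Real.exp_add]
  nlinarith

theorem rsum3_swap (N : ℕ) (q : ℕ) :
    ∑ r ∈ (Finset.Ioc 0 N).filter (fun r => r.Coprime q),
      1 / (r : ℝ) * ∑ d ∈ r.divisors, (√(d : ℝ))⁻¹ ≤
    (∑ d ∈ Finset.Ioc 0 N, (d : ℝ) ^ (-1 - (1 / 2 : ℝ))) *
      ∑ e ∈ (Finset.Ioc 0 N).filter (fun r => r.Coprime q), 1 / (e : ℝ) := by
  set F := (Finset.Ioc 0 N).filter (fun r => r.Coprime q) with hF
  have h1 : ∀ r ∈ F, 1 / (r : ℝ) * ∑ d ∈ r.divisors, (√(d : ℝ))⁻¹ =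
      ∑ p ∈ r.divisorsAntidiagonal, (p.1 : ℝ) ^ (-1 - (1 / 2 : ℝ)) * (1 / (p.2 : ℝ)) := by
    intro r hr
    have hr0 : 0 < r := (Finset.mem_Ioc.mp (Finset.mem_filter.mp hr).1).1
    rw [Nat.sum_divisorsAntidiagonal (f := fun a b : ℕ => (a : ℝ) ^ (-1 - (1 / 2 : ℝ)) * (1 / (b : ℝ))),
      Finset.mul_sum]
    refine Finset.sum_congr rfl (fun d hd => ?_)
    have hdr := Nat.dvd_of_mem_divisors hd
    have hd0 : 0 < d := Nat.pos_of_dvd_of_pos hdr hr0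
    have hd0' : (0 : ℝ) < d := by exact_mod_cast hd0
    have hr0' : (0 : ℝ) < r := by exact_mod_cast hr0
    have h2 : ((r / d : ℕ) : ℝ) = (r : ℝ) / d := Nat.cast_div hdr hd0'.ne'
    have h3 : (d : ℝ) ^ (-1 - (1 / 2 : ℝ)) = (d : ℝ)⁻¹ * (√(d : ℝ))⁻¹ := by
      rw [show (-1 - (1 / 2 : ℝ)) = -1 + -(1 / 2 : ℝ) by ring, Real.rpow_add hd0',
        Real.rpow_neg_one, Real.rpow_neg hd0'.le, ← Real.sqrt_eq_rpow]
    rw [h2, h3]
    field_simp
  rw [Finset.sum_congr rfl h1]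
  have hdisj : (F : Set ℕ).PairwiseDisjoint (fun r => r.divisorsAntidiagonal) := by
    intro a _ b _ hab
    rw [Function.onFun, Finset.disjoint_left]
    intro p hpa hpb
    exact hab ((Nat.mem_divisorsAntidiagonal.mp hpa).1.symm.trans
      (Nat.mem_divisorsAntidiagonal.mp hpb).1)
  rw [← Finset.sum_biUnion hdisj, Finset.sum_mul_sum, ← Finset.sum_product']
  refine Finset.sum_le_sum_of_subset_of_nonneg ?_ (fun p _ _ => by positivity)
  intro p hp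
  obtain ⟨r, hr, hpr⟩ := Finset.mem_biUnion.mp hp
  obtain ⟨h2, h3⟩ := Nat.mem_divisorsAntidiagonal.mp hpr
  obtain ⟨h4, h5⟩ := Finset.mem_filter.mp hr
  obtain ⟨h6, h7⟩ := Finset.mem_Ioc.mp h4
  have hp1 : p.1 ∣ r := ⟨p.2, h2.symm⟩
  have hp2 : p.2 ∣ r := ⟨p.1, by rw [← h2]; ring⟩
  rw [Finset.mem_product, Finset.mem_Ioc, hF, Finset.mem_filter, Finset.mem_Ioc]
  exact ⟨⟨Nat.pos_of_dvd_of_pos hp1 h6, (Nat.le_of_dvd h6 hp1).trans h7⟩,
    ⟨Nat.pos_of_dvd_of_pos hp2 h6, (Nat.le_of_dvd h6 hp2).trans h7⟩, h5.coprime_dvd_left hp2⟩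

theorem rsum3_harm {L : ℝ} {q : ℕ} (hL : 1 ≤ L) (hq : 0 < q) (hqL : Real.log q ≤ 32 * L) :
    ∑ e ∈ (Finset.Ioc 0 (NN L ^ 2)).filter (fun r => r.Coprime q), 1 / (e : ℝ) ≤
      3 * Real.exp 18 * L * (q.totient / q) := by
  have hq0 : (0 : ℝ) < q := by exact_mod_cast hq
  have hL0 : (0 : ℝ) < L := by linarith
  set σ : ℝ := 1 / (2 * L) with hσ
  have hσ0 : 0 < σ := by positivity
  obtain ⟨hs, hle⟩ := rsum1_pr hq hσ0
  have h1 : ∀ e ∈ (Finset.Ioc 0 (NN L ^ 2)).filter (fun r => r.Coprime q), 1 / (e : ℝ) ≤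
      Real.exp 2 * (if e.Coprime q then (e : ℝ) ^ (-1 - σ) else 0) := by
    intro e he
    obtain ⟨he1, he2⟩ := Finset.mem_filter.mp he
    obtain ⟨he3, he4⟩ := Finset.mem_Ioc.mp he1
    have he0 : (0 : ℝ) < e := by exact_mod_cast he3
    rw [if_pos he2]
    have h2 : (1 : ℝ) / e = (e : ℝ) ^ σ * (e : ℝ) ^ (-1 - σ) := by
      rw [← Real.rpow_add he0, show σ + (-1 - σ) = -1 by ring, Real.rpow_neg_one, one_div]
    rw [h2]
    refine mul_le_mul_of_nonneg_right ?_ (Real.rpow_nonneg he0.le _)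
    have h3 : (e : ℝ) ≤ Real.exp (2 * L + 2) := by
      have h4 : ((e : ℕ) : ℝ) ≤ ((NN L : ℕ) : ℝ) ^ 2 := by exact_mod_cast he4
      have h5 := rsum3_NN hL0.le
      have h6 : ((NN L : ℕ) : ℝ) ^ 2 ≤ (Real.exp (L + 1)) ^ 2 :=
        pow_le_pow_left₀ (Nat.cast_nonneg _) h5 2
      have h7 : (Real.exp (L + 1)) ^ 2 = Real.exp (2 * L + 2) := by
        rw [← Real.exp_nat_mul]
        congr 1
        push_cast
        ring
      linarith
    calc (e : ℝ) ^ σ ≤ (Real.exp (2 * L + 2)) ^ σ := Real.rpow_le_rpow he0.le h3 hσ0.le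
      _ = Real.exp ((2 * L + 2) * σ) := by rw [← Real.exp_mul]
      _ ≤ Real.exp 2 := by
        apply Real.exp_le_exp.mpr
        have h8 : (2 * L + 2) * σ = 1 + 1 / L := by
          rw [hσ]
          field_simp
        rw [h8]
        have h9 : 1 / L ≤ 1 := by
          rw [div_le_one hL0]
          exact hL
        linarith
  have h2 : ∑ e ∈ (Finset.Ioc 0 (NN L ^ 2)).filter (fun r => r.Coprime q),
      (if e.Coprime q then (e : ℝ) ^ (-1 - σ) else 0) ≤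
      ∑' m : ℕ, (if m.Coprime q then (m : ℝ) ^ (-1 - σ) else 0) := by
    refine hs.sum_le_tsum _ (fun m _ => ?_)
    split_ifs
    · exact Real.rpow_nonneg (Nat.cast_nonneg m) _
    · exact le_refl _
  have h3 : (q : ℝ) ^ σ ≤ Real.exp 16 := by
    rw [Real.rpow_def_of_pos hq0]
    apply Real.exp_le_exp.mpr
    calc Real.log q * σ ≤ 32 * L * σ := mul_le_mul_of_nonneg_right hqL hσ0.le
      _ = 16 := by
        rw [hσ]
        field_simp
        norm_num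
  have h4 : 1 + 1 / σ ≤ 3 * L := by
    rw [hσ, one_div_one_div]
    linarith
  have hphi : (0 : ℝ) ≤ (q.totient : ℝ) / q := by positivity
  calc ∑ e ∈ (Finset.Ioc 0 (NN L ^ 2)).filter (fun r => r.Coprime q), 1 / (e : ℝ)
      ≤ ∑ e ∈ (Finset.Ioc 0 (NN L ^ 2)).filter (fun r => r.Coprime q),
        Real.exp 2 * (if e.Coprime q then (e : ℝ) ^ (-1 - σ) else 0) := Finset.sum_le_sum h1
    _ = Real.exp 2 * ∑ e ∈ (Finset.Ioc 0 (NN L ^ 2)).filter (fun r => r.Coprime q),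
        (if e.Coprime q then (e : ℝ) ^ (-1 - σ) else 0) := by rw [Finset.mul_sum]
    _ ≤ Real.exp 2 * ((1 + 1 / σ) * (q.totient / q) * (q : ℝ) ^ σ) :=
        mul_le_mul_of_nonneg_left (h2.trans hle) (Real.exp_pos _).le
    _ ≤ Real.exp 2 * ((3 * L) * (q.totient / q) * Real.exp 16) := by
        refine mul_le_mul_of_nonneg_left ?_ (Real.exp_pos _).le
        refine mul_le_mul (mul_le_mul_of_nonneg_right h4 hphi) h3 (by positivity) (by positivity)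
    _ = 3 * Real.exp 18 * L * (q.totient / q) := by
        have h5 : Real.exp 18 = Real.exp 2 * Real.exp 16 := by
          rw [← Real.exp_add]
          norm_num
        rw [h5]
        ring

theorem rsum3_pr : ∃ C : ℝ, 0 ≤ C ∧ ∀ (L : ℝ) (q : ℕ), 1 ≤ L → 0 < q → Real.log q ≤ 32 * L →
    ∑ r ∈ (Finset.Ioc 0 (NN L ^ 2)).filter (fun r => r.Coprime q),
      1 / (r : ℝ) * ((r : ℝ) / r.totient) ^ 4 ≤ C * L * (q.totient / q) := by
  obtain ⟨C₂, hC₂, h2⟩ := rsum2_pr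
  set B : ℝ := ∑' d : ℕ, (d : ℝ) ^ (-1 - (1 / 2 : ℝ)) with hB
  have hBs : Summable (fun d : ℕ => (d : ℝ) ^ (-1 - (1 / 2 : ℝ))) :=
    rsum1_summable (by norm_num)
  have hB0 : 0 ≤ B := tsum_nonneg (fun d => Real.rpow_nonneg (Nat.cast_nonneg d) _)
  refine ⟨C₂ * (B * (3 * Real.exp 18)), by positivity, fun L q hL hq hqL => ?_⟩
  have h3 : ∀ r ∈ (Finset.Ioc 0 (NN L ^ 2)).filter (fun r => r.Coprime q),
      1 / (r : ℝ) * ((r : ℝ) / r.totient) ^ 4 ≤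
        C₂ * (1 / (r : ℝ) * ∑ d ∈ r.divisors, (√(d : ℝ))⁻¹) := by
    intro r hr
    have hr0 : 0 < r := (Finset.mem_Ioc.mp (Finset.mem_filter.mp hr).1).1
    have h4 := h2 r hr0
    calc 1 / (r : ℝ) * ((r : ℝ) / r.totient) ^ 4
        ≤ 1 / (r : ℝ) * (C₂ * ∑ d ∈ r.divisors, (√(d : ℝ))⁻¹) :=
          mul_le_mul_of_nonneg_left h4 (by positivity)
      _ = _ := by ring
  have h5 : ∑ d ∈ Finset.Ioc 0 (NN L ^ 2), (d : ℝ) ^ (-1 - (1 / 2 : ℝ)) ≤ B :=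
    hBs.sum_le_tsum _ (fun d _ => Real.rpow_nonneg (Nat.cast_nonneg d) _)
  have h6 : 0 ≤ ∑ e ∈ (Finset.Ioc 0 (NN L ^ 2)).filter (fun r => r.Coprime q), 1 / (e : ℝ) :=
    Finset.sum_nonneg (fun e _ => by positivity)
  have hL0 : (0 : ℝ) ≤ L := by linarith
  calc ∑ r ∈ (Finset.Ioc 0 (NN L ^ 2)).filter (fun r => r.Coprime q),
      1 / (r : ℝ) * ((r : ℝ) / r.totient) ^ 4
      ≤ ∑ r ∈ (Finset.Ioc 0 (NN L ^ 2)).filter (fun r => r.Coprime q),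
        C₂ * (1 / (r : ℝ) * ∑ d ∈ r.divisors, (√(d : ℝ))⁻¹) := Finset.sum_le_sum h3
    _ = C₂ * ∑ r ∈ (Finset.Ioc 0 (NN L ^ 2)).filter (fun r => r.Coprime q),
        (1 / (r : ℝ) * ∑ d ∈ r.divisors, (√(d : ℝ))⁻¹) := by rw [Finset.mul_sum]
    _ ≤ C₂ * (B * (3 * Real.exp 18 * L * (q.totient / q))) := by
        refine mul_le_mul_of_nonneg_left ?_ hC₂
        refine (rsum3_swap (NN L ^ 2) q).trans ?_
        exact mul_le_mul h5 (rsum3_harm hL hq hqL) h6 hB0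
    _ = C₂ * (B * (3 * Real.exp 18)) * L * (q.totient / q) := by ring

end Pool.Agent.SQ

namespace Pool.Agent.SQ

theorem rsum3 : type_of% @rsum3_pr := @rsum3_pr

end Pool.Agent.SQ
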