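import Pool.Agent.Lib_helper92.SQ.Defs
import Pool.Agent.Lib_helper92.SQA.JT

/-! Block SQEQ (helper35). -/

namespace Pool.Agent.SQ

open ArithmeticFunction

/-- The integers below `NN L` coprime to `q`. -/
noncomputable def sq_U (L : ℝ) (q : ℕ) : Finset ℕ :=
  (Finset.range (NN L)).filter fun a => a.Coprime q

theorem sq_JJ (L : ℝ) (q : ℕ) : JJ L q = sq_U L q ×ˢ sq_U L q := by
  ext ⟨a, b⟩
  simp only [JJ, sq_U, Finset.mem_filter, Finset.mem_product, Nat.coprime_mul_iff_left]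
  tauto

theorem sq_be_zero (L : ℝ) : be L 0 = 0 := (be L).map_zero

/-- the expansion of `gg^(1+s)` -/
theorem sq_expand (L : ℝ) (q : ℕ) (s : ℝ) {a b c d : ℕ} (ha : a ∈ sq_U L q) (hb : b ∈ sq_U L q)
    (hc : c ∈ sq_U L q) (hd : d ∈ sq_U L q) (ha0 : a ≠ 0) (hb0 : b ≠ 0) (hc0 : c ≠ 0)
    (hd0 : d ≠ 0) :
    ((Nat.gcd (a * d) (c * b) : ℕ) : ℝ) ^ (1 + s) =
      ∑ r ∈ (Finset.Ioc 0 (NN L ^ 2)).filter (fun r => r.Coprime q),
        if (r ∣ a * d ∧ r ∣ c * b) then Jt s r else 0 := by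
  have hpos : 0 < Nat.gcd (a * d) (c * b) :=
    Nat.gcd_pos_of_pos_left _ (Nat.mul_pos (Nat.pos_of_ne_zero ha0) (Nat.pos_of_ne_zero hd0))
  rw [← Jt_sum_pr _ hpos, ← Finset.sum_filter]
  refine Finset.sum_congr ?_ fun _ _ => rfl
  simp only [sq_U, Finset.mem_filter, Finset.mem_range] at ha hb hc hd
  ext r
  simp only [Nat.mem_divisors, Finset.mem_filter, Finset.mem_Ioc, Nat.dvd_gcd_iff]
  constructor
  · rintro ⟨⟨h1, h2⟩, -⟩
    have hadpos : 0 < a * d := Nat.mul_pos (Nat.pos_of_ne_zero ha0) (Nat.pos_of_ne_zero hd0)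
    refine ⟨⟨⟨Nat.pos_of_dvd_of_pos h1 hadpos, ?_⟩, ?_⟩, h1, h2⟩
    · calc r ≤ a * d := Nat.le_of_dvd hadpos h1
        _ ≤ NN L * NN L := Nat.mul_le_mul ha.1.le hd.1.le
        _ = NN L ^ 2 := (sq _).symm
    · exact Nat.Coprime.coprime_dvd_left h1 (Nat.Coprime.mul_left ha.2 hd.2)
  · rintro ⟨-, h1, h2⟩
    exact ⟨⟨h1, h2⟩, hpos.ne'⟩

/-- The summand of the square of `YY`. -/
noncomputable def sq_T (L s : ℝ) (a b c d : ℕ) : ℝ :=
  (be L a * be L d * (a : ℝ) ^ (-1 - s) * (d : ℝ)⁻¹) *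
    (be L c * be L b * (c : ℝ) ^ (-1 - s) * (b : ℝ)⁻¹)

theorem sq_summand (L : ℝ) (q : ℕ) (s : ℝ) {a b c d : ℕ} (ha : a ∈ sq_U L q)
    (hb : b ∈ sq_U L q) (hc : c ∈ sq_U L q) (hd : d ∈ sq_U L q) :
    cc L (a, b) * cc L (c, d) * ((gg (a, b) (c, d) : ℝ) / (((a, b) : ℕ × ℕ).1 * ((c, d) : ℕ × ℕ).1)) ^ (1 + s) =
      ∑ r ∈ (Finset.Ioc 0 (NN L ^ 2)).filter (fun r => r.Coprime q),
        Jt s r * (if (r ∣ a * d ∧ r ∣ c * b) then sq_T L s a b c d else 0) := by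
  by_cases h0 : a ≠ 0 ∧ b ≠ 0 ∧ c ≠ 0 ∧ d ≠ 0
  · obtain ⟨ha0, hb0, hc0, hd0⟩ := h0
    have h1 := sq_expand L q s ha hb hc hd ha0 hb0 hc0 hd0
    have h2 : (gg (a, b) (c, d) : ℝ) = ((Nat.gcd (a * d) (c * b) : ℕ) : ℝ) := rfl
    rw [h2, Real.div_rpow (Nat.cast_nonneg _) (by positivity), h1, Finset.sum_div,
      Finset.mul_sum]
    refine Finset.sum_congr rfl fun r _ => ?_
    by_cases hr : r ∣ a * d ∧ r ∣ c * b
    · rw [if_pos hr, if_pos hr]
      have e1 : ((a : ℝ) * c) ^ (1 + s) = (a : ℝ) ^ (1 + s) * (c : ℝ) ^ (1 + s) :=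
        Real.mul_rpow (Nat.cast_nonneg _) (Nat.cast_nonneg _)
      have e2 : (a : ℝ) ^ (-1 - s) = ((a : ℝ) ^ (1 + s))⁻¹ := by
        rw [← Real.rpow_neg (Nat.cast_nonneg _)]; congr 1; ring
      have e3 : (c : ℝ) ^ (-1 - s) = ((c : ℝ) ^ (1 + s))⁻¹ := by
        rw [← Real.rpow_neg (Nat.cast_nonneg _)]; congr 1; ring
      simp only [sq_T, cc, e1, e2, e3, div_eq_mul_inv, mul_inv]
      ring
    · rw [if_neg hr, if_neg hr]; simp
  · have h1 : cc L (a, b) * cc L (c, d) = 0 := by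
      simp only [cc]
      by_cases ha0 : a = 0
      · subst ha0; simp
      · by_cases hb0 : b = 0
        · subst hb0; simp
        · by_cases hc0 : c = 0
          · subst hc0; simp
          · by_cases hd0 : d = 0
            · subst hd0; simp
            · exact absurd ⟨ha0, hb0, hc0, hd0⟩ h0
    have h2 : sq_T L s a b c d = 0 := by
      simp only [sq_T]
      by_cases ha0 : a = 0
      · subst ha0; simp
      · by_cases hb0 : b = 0
        · subst hb0; simp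
        · by_cases hc0 : c = 0
          · subst hc0; simp
          · by_cases hd0 : d = 0
            · subst hd0; simp
            · exact absurd ⟨ha0, hb0, hc0, hd0⟩ h0
    rw [h1, h2]
    simp

theorem Sq_eq_pr (L : ℝ) (q : ℕ) (hq : 0 < q) (s : ℝ) : Sq L q s =
    ∑ r ∈ (Finset.Ioc 0 (NN L ^ 2)).filter (fun r => r.Coprime q), Jt s r * YY L q s r ^ 2 := by
  -- the left hand side
  have h1 : Sq L q s = ∑ a ∈ sq_U L q, ∑ b ∈ sq_U L q, ∑ c ∈ sq_U L q, ∑ d ∈ sq_U L q,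
      ∑ r ∈ (Finset.Ioc 0 (NN L ^ 2)).filter (fun r => r.Coprime q),
        Jt s r * (if (r ∣ a * d ∧ r ∣ c * b) then sq_T L s a b c d else 0) := by
    unfold Sq
    rw [sq_JJ, Finset.sum_product]
    refine Finset.sum_congr rfl fun a ha => Finset.sum_congr rfl fun b hb => ?_
    rw [Finset.sum_product]
    exact Finset.sum_congr rfl fun c hc => Finset.sum_congr rfl fun d hd =>
      sq_summand L q s ha hb hc hd
  -- the square of YY
  have h2 : ∀ r, YY L q s r ^ 2 = ∑ a ∈ sq_U L q, ∑ b ∈ sq_U L q, ∑ c ∈ sq_U L q,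
      ∑ d ∈ sq_U L q, (if (r ∣ a * d ∧ r ∣ c * b) then sq_T L s a b c d else 0) := by
    intro r
    have e1 : YY L q s r = ∑ a ∈ sq_U L q, ∑ d ∈ sq_U L q,
        (if r ∣ a * d then be L a * be L d * (a : ℝ) ^ (-1 - s) * (d : ℝ)⁻¹ else 0) := by
      unfold YY
      rw [sq_JJ, Finset.sum_filter, Finset.sum_product]
    have e2 : YY L q s r = ∑ b ∈ sq_U L q, ∑ c ∈ sq_U L q,
        (if r ∣ c * b then be L c * be L b * (c : ℝ) ^ (-1 - s) * (b : ℝ)⁻¹ else 0) := by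
      rw [e1, Finset.sum_comm]
    have e3 : YY L q s r ^ 2 = YY L q s r * YY L q s r := sq _
    rw [e3]
    nth_rewrite 1 [e1]
    rw [e2, Finset.sum_mul]
    refine Finset.sum_congr rfl fun a _ => ?_
    rw [Finset.sum_mul_sum, Finset.sum_comm]
    refine Finset.sum_congr rfl fun b _ => ?_
    simp only [Finset.mul_sum]
    rw [Finset.sum_comm]
    refine Finset.sum_congr rfl fun c _ => Finset.sum_congr rfl fun d _ => ?_
    by_cases hr1 : r ∣ a * d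
    · by_cases hr2 : r ∣ c * b
      · rw [if_pos hr1, if_pos hr2, if_pos ⟨hr1, hr2⟩]; rfl
      · have hr3 : ¬ (r ∣ a * d ∧ r ∣ c * b) := fun h => hr2 h.2
        rw [if_neg hr2, if_neg hr3, mul_zero]
    · have hr3 : ¬ (r ∣ a * d ∧ r ∣ c * b) := fun h => hr1 h.1
      rw [if_neg hr1, if_neg hr3, zero_mul]
  rw [h1]
  simp only [h2, Finset.mul_sum]
  -- move the sum over `r` to the inside
  symm
  rw [Finset.sum_comm]
  refine Finset.sum_congr rfl fun a _ => ?_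
  rw [Finset.sum_comm]
  refine Finset.sum_congr rfl fun b _ => ?_
  rw [Finset.sum_comm]
  refine Finset.sum_congr rfl fun c _ => ?_
  rw [Finset.sum_comm]

end Pool.Agent.SQ

namespace Pool.Agent.SQ

theorem Sq_eq : type_of% @Sq_eq_pr := @Sq_eq_pr

end Pool.Agent.SQ
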