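import Pool.Agent.Lib_helper92.SQ.Defs
import Pool.Agent.Lib_helper92.SQA.JT
import Pool.Agent.Lib_helper92.SQA.RSUM3
import Pool.Agent.Lib_helper92.SQA.SQEQ
import Pool.Agent.Lib_helper92.SQA.YB

namespace Pool.Agent.SQ

open Complex MeasureTheory Filter Topology
open Pool.Agent.GRH

theorem sb_NN_le {L : ℝ} (hL : 0 ≤ L) : (NN L : ℝ) ≤ 2 * Real.exp L := by
  unfold NN
  have h1 := (Nat.ceil_lt_add_one (Real.exp_pos L).le).le
  have h2 : (1 : ℝ) ≤ Real.exp L := Real.one_le_exp hL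
  linarith

theorem sb_term {L s C : ℝ} (hL : 1 ≤ L) (hs : 0 ≤ s) (hs1 : s ≤ 1 / L) (_hC : 0 ≤ C)
    {q r : ℕ} (hr : r ∈ (Finset.Ioc 0 (NN L ^ 2)).filter (fun r => r.Coprime q))
    (hY : |YY L q s r| ≤ C / L * (q / q.totient) * (r / r.totient) ^ 2 / r) :
    Jt s r * YY L q s r ^ 2 ≤ (C / L * (q / q.totient)) ^ 2 * (4 * Real.exp 2) *
      (1 / (r : ℝ) * ((r : ℝ) / r.totient) ^ 4) := by
  rw [Finset.mem_filter, Finset.mem_Ioc] at hr
  have hr0 : (0 : ℝ) < r := by exact_mod_cast hr.1.1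
  have hL0 : 0 < L := by linarith
  have h1 : Jt s r ≤ (r : ℝ) ^ (1 + s) := Jt_le hs r
  have h2 : YY L q s r ^ 2 ≤ (C / L * (q / q.totient) * (r / r.totient) ^ 2 / r) ^ 2 := by
    rw [← sq_abs]
    exact pow_le_pow_left₀ (abs_nonneg _) hY 2
  have h3 : (r : ℝ) ^ s ≤ 4 * Real.exp 2 := by
    have h4 : (r : ℝ) ≤ (2 * Real.exp L) ^ 2 := by
      have h5 : (r : ℝ) ≤ (NN L : ℝ) ^ 2 := by exact_mod_cast hr.1.2
      exact h5.trans (pow_le_pow_left₀ (by positivity) (sb_NN_le hL0.le) 2)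
    have h6 : (1 : ℝ) ≤ r := by exact_mod_cast hr.1.1
    calc (r : ℝ) ^ s ≤ (r : ℝ) ^ (1 / L) := Real.rpow_le_rpow_of_exponent_le h6 hs1
      _ ≤ ((2 * Real.exp L) ^ 2) ^ (1 / L) := Real.rpow_le_rpow hr0.le h4 (by positivity)
      _ = (4 : ℝ) ^ (1 / L) * (Real.exp (2 * L)) ^ (1 / L) := by
          rw [← Real.mul_rpow (by norm_num) (Real.exp_pos _).le]
          congr 1
          rw [mul_pow, ← Real.exp_nat_mul]
          norm_num
      _ ≤ 4 * Real.exp 2 := by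
          apply mul_le_mul
          · calc (4 : ℝ) ^ (1 / L) ≤ (4 : ℝ) ^ (1 : ℝ) := by
                  apply Real.rpow_le_rpow_of_exponent_le (by norm_num)
                  rw [div_le_one hL0]
                  exact hL
              _ = 4 := Real.rpow_one 4
          · rw [← Real.exp_mul]
            apply le_of_eq
            congr 1
            field_simp
          · positivity
          · norm_num
  have h7 : (r : ℝ) ^ (1 + s) = r * (r : ℝ) ^ s := by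
    rw [Real.rpow_add hr0, Real.rpow_one]
  calc Jt s r * YY L q s r ^ 2
      ≤ (r : ℝ) ^ (1 + s) * (C / L * (q / q.totient) * (r / r.totient) ^ 2 / r) ^ 2 :=
        mul_le_mul h1 h2 (sq_nonneg _) (by positivity)
    _ = (r : ℝ) ^ s * (r * (C / L * (q / q.totient) * (r / r.totient) ^ 2 / r) ^ 2) := by
        rw [h7]; ring
    _ ≤ (4 * Real.exp 2) * (r * (C / L * (q / q.totient) * (r / r.totient) ^ 2 / r) ^ 2) :=
        mul_le_mul_of_nonneg_right h3 (by positivity)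
    _ = _ := by
        field_simp

theorem Sq_le_pr : ∃ C : ℝ, 0 ≤ C ∧ ∀ (L : ℝ) (q : ℕ) (s : ℝ), 1 ≤ L → 0 < q →
    Real.log q ≤ 32 * L → 0 ≤ s → s ≤ 1 / L → Sq L q s ≤ C * (q / q.totient) / L := by
  obtain ⟨C₁, hC₁, hY⟩ := YY_le
  obtain ⟨C₂, hC₂, hR⟩ := rsum3
  refine ⟨4 * Real.exp 2 * C₁ ^ 2 * C₂, by positivity, fun L q s hL hq hqL hs hs1 => ?_⟩
  have hL0 : 0 < L := by linarith
  have hq0 : (0 : ℝ) < q := by exact_mod_cast hq
  have hφ : (0 : ℝ) < q.totient := by exact_mod_cast Nat.totient_pos.mpr hq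
  rw [Sq_eq L q hq s]
  calc ∑ r ∈ (Finset.Ioc 0 (NN L ^ 2)).filter (fun r => r.Coprime q), Jt s r * YY L q s r ^ 2
      ≤ ∑ r ∈ (Finset.Ioc 0 (NN L ^ 2)).filter (fun r => r.Coprime q),
          (C₁ / L * (q / q.totient)) ^ 2 * (4 * Real.exp 2) *
            (1 / (r : ℝ) * ((r : ℝ) / r.totient) ^ 4) := by
        apply Finset.sum_le_sum
        intro r hr
        have hr' := hr
        rw [Finset.mem_filter, Finset.mem_Ioc] at hr'
        exact sb_term hL hs hs1 hC₁ hr (hY L q r s hL hq hr'.1.1 hr'.2 hs hs1)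
    _ = (C₁ / L * (q / q.totient)) ^ 2 * (4 * Real.exp 2) *
          ∑ r ∈ (Finset.Ioc 0 (NN L ^ 2)).filter (fun r => r.Coprime q),
            1 / (r : ℝ) * ((r : ℝ) / r.totient) ^ 4 := by rw [Finset.mul_sum]
    _ ≤ (C₁ / L * (q / q.totient)) ^ 2 * (4 * Real.exp 2) * (C₂ * L * (q.totient / q)) :=
        mul_le_mul_of_nonneg_left (hR L q hL hq hqL) (by positivity)
    _ = 4 * Real.exp 2 * C₁ ^ 2 * C₂ * (q / q.totient) / L := by
        field_simp

end Pool.Agent.SQ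

namespace Pool.Agent.SQ

theorem Sq_le : type_of% @Sq_le_pr := @Sq_le_pr

end Pool.Agent.SQ
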