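import Pool.Agent.Lib_helper92.SQ.Defs
import Pool.Agent.Lib_helper92.SQA.DIAGN
import Pool.Agent.Lib_helper92.SQA.G5
import Pool.Agent.Lib_helper92.SQA.RSUM1
import Pool.Agent.Lib_helper92.SQA.SB

set_option autoImplicit false

namespace Pool.Agent.SQ

open MeasureTheory Filter Topology Set
open Pool.Agent.GRH

/-- monotone convergence for series of non-negative functions -/
theorem diagi_tsum {F : ℕ → ℝ → ℝ} (h0 : ∀ i v, 0 ≤ F i v) (hi : ∀ i, Integrable (F i))
    (hs : Summable fun i => ∫ v, F i v) :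
    Integrable (fun v => ∑' i, F i v) ∧ ∫ v, ∑' i, F i v = ∑' i, ∫ v, F i v := by
  have hnorm : ∀ i v, ‖F i v‖ = F i v := fun i v => Real.norm_of_nonneg (h0 i v)
  constructor
  · have h1 : (fun v => ∑' i, F i v) = fun v => (∑' i, ENNReal.ofReal (F i v)).toReal := by
      funext v
      rw [ENNReal.tsum_toReal_eq (fun i => ENNReal.ofReal_ne_top)]
      congr 1
      funext i
      rw [ENNReal.toReal_ofReal (h0 i v)]
    rw [h1]
    refine integrable_toReal_of_lintegral_ne_top ?_ ?_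
    · exact AEMeasurable.tsum (fun i => (hi i).aemeasurable.ennreal_ofReal)
    · rw [lintegral_tsum (fun i => (hi i).aemeasurable.ennreal_ofReal)]
      have h2 : ∀ i, ∫⁻ v, ENNReal.ofReal (F i v) = ENNReal.ofReal (∫ v, F i v) := fun i =>
        (ofReal_integral_eq_lintegral_ofReal (hi i) (ae_of_all _ (h0 i))).symm
      rw [funext h2]
      exact hs.tsum_ofReal_ne_top
  · refine (integral_tsum_of_summable_integral_norm hi ?_).symm
    have h2 : (fun i => ∫ v, ‖F i v‖) = fun i => ∫ v, F i v := by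
      funext i
      congr 1
      funext v
      exact hnorm i v
    rw [h2]
    exact hs

/-- `∫ e^v g(e^v) dv = ∫_0^∞ g` -/
theorem diagi_exp (g : ℝ → ℝ) (hg : IntegrableOn g (Ioi 0)) :
    Integrable (fun v : ℝ => Real.exp v * g (Real.exp v)) ∧
      ∫ v : ℝ, Real.exp v * g (Real.exp v) = ∫ y in Ioi (0 : ℝ), g y := by
  have himg : Real.exp '' univ = Ioi (0 : ℝ) := by
    rw [image_univ, Real.range_exp]
  have hd : ∀ x ∈ (univ : Set ℝ), HasDerivWithinAt Real.exp (Real.exp x) univ x := fun x _ =>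
    (Real.hasDerivAt_exp x).hasDerivWithinAt
  have hinj : InjOn Real.exp univ := Real.exp_injective.injOn
  constructor
  · have h := (integrableOn_image_iff_integrableOn_abs_deriv_smul MeasurableSet.univ hd hinj g).mp
      (by rw [himg]; exact hg)
    rw [integrableOn_univ] at h
    simpa [abs_of_pos (Real.exp_pos _)] using h
  · have h := integral_image_eq_integral_abs_deriv_smul MeasurableSet.univ hd hinj g
    rw [himg, setIntegral_univ] at h
    rw [h]
    simp [abs_of_pos (Real.exp_pos _)]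

theorem diagi_h (κ : ℕ) {s : ℝ} (hs : 0 ≤ s) :
    IntegrableOn (fun y : ℝ => y ^ s * (G κ y) ^ 2) (Ioi 0) := by
  have h1 := integrableOn_rpow_mul_exp_neg_mul_sq (b := 2 * Real.pi) (by positivity)
    (s := s + (2 * κ : ℕ)) (by
      have : (0 : ℝ) ≤ ((2 * κ : ℕ) : ℝ) := Nat.cast_nonneg _
      linarith)
  refine h1.congr_fun (fun y hy => ?_) measurableSet_Ioi
  have hy0 : (0 : ℝ) < y := hy
  simp only [G]
  rw [Real.rpow_add hy0, Real.rpow_natCast, mul_pow, ← pow_mul, ← Real.exp_nat_mul, mul_assoc]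
  congr 1
  rw [mul_comm κ 2]
  congr 2
  push_cast
  ring

theorem diagi_term (κ : ℕ) {s Q b : ℝ} (hs : 0 ≤ s) (hQ : 0 < Q) (hb : 0 < b) :
    Integrable (fun v : ℝ => Real.exp (s * v) * (Real.exp v / Q) *
      (G κ (b * (Real.exp v / Q))) ^ 2) ∧
    ∫ v : ℝ, Real.exp (s * v) * (Real.exp v / Q) * (G κ (b * (Real.exp v / Q))) ^ 2 =
      Q ^ s * b ^ (-1 - s) * cG κ s := by
  set c : ℝ := b / Q with hc
  have hc0 : 0 < c := by positivity
  set h : ℝ → ℝ := fun y => y ^ s * (G κ y) ^ 2 with hh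
  set g : ℝ → ℝ := fun y => y ^ s / Q * (G κ (c * y)) ^ 2 with hg
  have hgh : ∀ y ∈ Ioi (0 : ℝ), g y = (c ^ (-s) / Q) * h (c * y) := by
    intro y hy
    have hy0 : (0 : ℝ) < y := hy
    simp only [hg, hh]
    rw [Real.mul_rpow hc0.le hy0.le, Real.rpow_neg hc0.le]
    have h1 : c ^ s ≠ 0 := (Real.rpow_pos_of_pos hc0 s).ne'
    field_simp
  have hint : IntegrableOn (fun y => h (c * y)) (Ioi 0) := by
    rw [integrableOn_Ioi_comp_mul_left_iff h 0 hc0, mul_zero]
    exact diagi_h κ hs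
  have hgint : IntegrableOn g (Ioi 0) := by
    have hint' : IntegrableOn (fun y => (c ^ (-s) / Q) * h (c * y)) (Ioi 0) :=
      hint.const_mul (c ^ (-s) / Q)
    exact hint'.congr_fun (fun y hy => (hgh y hy).symm) measurableSet_Ioi
  have hgval : ∫ y in Ioi (0 : ℝ), g y = Q ^ s * b ^ (-1 - s) * cG κ s := by
    rw [setIntegral_congr_fun measurableSet_Ioi hgh, integral_const_mul,
      integral_comp_mul_left_Ioi h 0 hc0, mul_zero, smul_eq_mul]
    have h1 : ∫ y in Ioi (0 : ℝ), h y = cG κ s := rfl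
    rw [h1, hc, Real.div_rpow hb.le hQ.le, Real.rpow_neg hb.le, Real.rpow_neg hQ.le,
      Real.rpow_sub hb, Real.rpow_neg_one]
    have h2 : b ^ s ≠ 0 := (Real.rpow_pos_of_pos hb s).ne'
    have h3 : Q ^ s ≠ 0 := (Real.rpow_pos_of_pos hQ s).ne'
    field_simp
  have hfun : (fun v : ℝ => Real.exp (s * v) * (Real.exp v / Q) *
      (G κ (b * (Real.exp v / Q))) ^ 2) = fun v => Real.exp v * g (Real.exp v) := by
    funext v
    simp only [hg]
    have h4 : Real.exp (s * v) = Real.exp v ^ s := by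
      rw [← Real.exp_mul]
      congr 1
      ring
    have h5 : b * (Real.exp v / Q) = c * Real.exp v := by
      rw [hc]
      ring
    rw [h4, h5]
    ring
  obtain ⟨h6, h7⟩ := diagi_exp g hgint
  rw [hfun]
  exact ⟨h6, h7.trans hgval⟩

theorem diagi_WW (κ : ℕ) {q : ℕ} (hq : 2 ≤ q) {s Q a : ℝ} (hs : 0 < s) (hQ : 0 < Q) (ha : 0 < a) :
    Integrable (fun v : ℝ => Real.exp (s * v) * (Real.exp v / Q * WW κ q (Real.exp v / Q * a))) ∧
    ∫ v : ℝ, Real.exp (s * v) * (Real.exp v / Q * WW κ q (Real.exp v / Q * a)) =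
      Q ^ s * a ^ (-1 - s) * cG κ s *
        ∑' m : ℕ, (if m.Coprime q then (m : ℝ) ^ (-1 - s) else 0) := by
  set F : ℕ → ℝ → ℝ := fun m v => if m.Coprime q then
    Real.exp (s * v) * (Real.exp v / Q) * (G κ ((m * a) * (Real.exp v / Q))) ^ 2 else 0 with hF
  have hpos : ∀ m : ℕ, m.Coprime q → (0 : ℝ) < m * a := by
    intro m hm
    have hm0 : m ≠ 0 := by
      rintro rfl
      rw [Nat.coprime_zero_left] at hm
      omega
    have : (0 : ℝ) < m := by exact_mod_cast Nat.pos_of_ne_zero hm0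
    positivity
  have hF0 : ∀ m v, 0 ≤ F m v := by
    intro m v
    simp only [hF]
    split_ifs
    · positivity
    · exact le_refl _
  have hFi : ∀ m, Integrable (F m) := by
    intro m
    by_cases hm : m.Coprime q
    · simp only [hF, if_pos hm]
      exact (diagi_term κ hs.le hQ (hpos m hm)).1
    · simp only [hF, if_neg hm]
      exact integrable_zero _ _ _
  have hFint : ∀ m, ∫ v, F m v = Q ^ s * a ^ (-1 - s) * cG κ s *
      (if m.Coprime q then (m : ℝ) ^ (-1 - s) else 0) := by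
    intro m
    by_cases hm : m.Coprime q
    · simp only [hF, if_pos hm]
      rw [(diagi_term κ hs.le hQ (hpos m hm)).2, Real.mul_rpow (Nat.cast_nonneg m) ha.le]
      ring
    · simp only [hF, if_neg hm]
      simp
  obtain ⟨hsum, -⟩ := rsum1_pr (q := q) (by omega) hs
  have hsF : Summable fun m => ∫ v, F m v := by
    rw [funext hFint]
    exact hsum.mul_left _
  obtain ⟨h1, h2⟩ := diagi_tsum hF0 hFi hsF
  have hfun : (fun v : ℝ => Real.exp (s * v) * (Real.exp v / Q * WW κ q (Real.exp v / Q * a))) =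
      fun v => ∑' m, F m v := by
    funext v
    unfold WW
    rw [← mul_assoc, ← tsum_mul_left]
    congr 1
    funext m
    simp only [hF]
    split_ifs
    · congr 3
      ring
    · rw [mul_zero]
  rw [hfun, h2, funext hFint, tsum_mul_left]
  exact ⟨h1, rfl⟩

theorem diagi_pos {L : ℝ} {q : ℕ} (hq : 2 ≤ q) {j : ℕ × ℕ} (hj : j ∈ JJ L q) :
    0 < j.1 ∧ 0 < j.2 := by
  unfold JJ at hj
  have h := (Finset.mem_filter.mp hj).2
  have h0 : j.1 * j.2 ≠ 0 := by
    intro h0
    rw [h0, Nat.coprime_zero_left] at h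
    omega
  exact ⟨Nat.pos_of_ne_zero (left_ne_zero_of_mul h0), Nat.pos_of_ne_zero (right_ne_zero_of_mul h0)⟩

theorem diagi_full (κ : ℕ) (L : ℝ) {q : ℕ} (hq : 2 ≤ q) {s : ℝ} (hs : 0 < s) :
    Integrable (fun v : ℝ => Real.exp (s * v) * Diag κ q L (Real.exp v / √q)) ∧
    ∫ v : ℝ, Real.exp (s * v) * Diag κ q L (Real.exp v / √q) =
      4 * (√q) ^ s * cG κ s * (∑' m : ℕ, (if m.Coprime q then (m : ℝ) ^ (-1 - s) else 0)) *
        Sq L q s := by
  have hQ : (0 : ℝ) < √q := Real.sqrt_pos.mpr (by exact_mod_cast (by omega : 0 < q))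
  set Z : ℝ := ∑' m : ℕ, (if m.Coprime q then (m : ℝ) ^ (-1 - s) else 0) with hZ
  set aa : ℕ × ℕ → ℕ × ℕ → ℝ := fun j j' => (j.1 * j'.1 : ℝ) / gg j j' with haa
  have hgg : ∀ j ∈ JJ L q, ∀ j' ∈ JJ L q, (0 : ℝ) < gg j j' := by
    intro j hj j' hj'
    obtain ⟨h1, h2⟩ := diagi_pos hq hj
    obtain ⟨h3, h4⟩ := diagi_pos hq hj'
    have : 0 < gg j j' := Nat.gcd_pos_of_pos_left _ (Nat.mul_pos h1 h4)
    exact_mod_cast this
  have haa0 : ∀ j ∈ JJ L q, ∀ j' ∈ JJ L q, 0 < aa j j' := by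
    intro j hj j' hj'
    have h1 : (0 : ℝ) < j.1 := by exact_mod_cast (diagi_pos hq hj).1
    have h2 : (0 : ℝ) < j'.1 := by exact_mod_cast (diagi_pos hq hj').1
    have h3 := hgg j hj j' hj'
    simp only [haa]
    positivity
  have hfun : (fun v : ℝ => Real.exp (s * v) * Diag κ q L (Real.exp v / √q)) = fun v : ℝ =>
      ∑ j ∈ JJ L q, ∑ j' ∈ JJ L q, (4 * (cc L j * cc L j')) *
        (Real.exp (s * v) * (Real.exp v / √q * WW κ q (Real.exp v / √q * aa j j'))) := by
    funext v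
    unfold Diag
    rw [Finset.mul_sum, Finset.mul_sum]
    refine Finset.sum_congr rfl (fun j _ => ?_)
    rw [Finset.mul_sum, Finset.mul_sum]
    refine Finset.sum_congr rfl (fun j' _ => ?_)
    simp only [haa, mul_div_assoc]
    ring
  have hint : ∀ j ∈ JJ L q, ∀ j' ∈ JJ L q, Integrable (fun v : ℝ => (4 * (cc L j * cc L j')) *
        (Real.exp (s * v) * (Real.exp v / √q * WW κ q (Real.exp v / √q * aa j j')))) := by
    intro j hj j' hj'
    exact (diagi_WW κ hq hs hQ (haa0 j hj j' hj')).1.const_mul _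
  rw [hfun]
  refine ⟨integrable_finsetSum _ (fun j hj => integrable_finsetSum _ (fun j' hj' =>
    hint j hj j' hj')), ?_⟩
  rw [integral_finsetSum _ (fun j hj => integrable_finsetSum _ (fun j' hj' => hint j hj j' hj'))]
  unfold Sq
  rw [Finset.mul_sum]
  refine Finset.sum_congr rfl (fun j hj => ?_)
  rw [integral_finsetSum _ (fun j' hj' => hint j hj j' hj'), Finset.mul_sum]
  refine Finset.sum_congr rfl (fun j' hj' => ?_)
  rw [integral_const_mul, (diagi_WW κ hq hs hQ (haa0 j hj j' hj')).2]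
  have h1 : (aa j j') ^ (-1 - s) = ((gg j j' : ℝ) / (j.1 * j'.1)) ^ (1 + s) := by
    rw [show (-1 - s : ℝ) = -(1 + s) by ring, Real.rpow_neg (haa0 j hj j' hj').le,
      ← Real.inv_rpow (haa0 j hj j' hj').le]
    simp only [haa, inv_div]
  rw [h1]
  ring

theorem diag_int_pr : ∃ C : ℝ, 0 ≤ C ∧ ∀ κ : ℕ, κ ≤ 1 → ∀ (L : ℝ) (q : ℕ), 1 ≤ L →
    32 * L = Real.log q →
      IntegrableOn (fun v => Diag κ q L (Real.exp v / √q)) (Set.Ioi 0) ∧
        ∫ v in Set.Ioi (0 : ℝ), Diag κ q L (Real.exp v / √q) ≤ C := by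
  obtain ⟨C₁, hC₁, hS⟩ := Sq_le
  obtain ⟨C₂, hC₂, hG⟩ := cG_le
  refine ⟨4 * Real.exp 1 * C₂ * (33 * Real.exp 1) * C₁, by positivity, fun κ hκ L q hL hqL => ?_⟩
  have hL0 : (0 : ℝ) < L := by linarith
  have hlog : 0 < Real.log q := by linarith
  have hq1 : (1 : ℝ) < q := by
    by_contra hcon
    push Not at hcon
    have := Real.log_nonpos (Nat.cast_nonneg q) hcon
    linarith
  have hq : 2 ≤ q := by exact_mod_cast hq1
  have hq0 : (0 : ℝ) < q := by linarith
  have hQ : (0 : ℝ) < √q := Real.sqrt_pos.mpr hq0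
  set s : ℝ := 1 / (32 * L) with hs
  have hs0 : 0 < s := by positivity
  have hs1 : s ≤ 1 / L := by
    rw [hs]
    apply one_div_le_one_div_of_le hL0
    linarith
  have hs2 : s ≤ 1 := by
    refine hs1.trans ?_
    rw [div_le_one hL0]
    exact hL
  obtain ⟨hint, hval⟩ := diagi_full κ L hq hs0
  have hnn : ∀ v : ℝ, 0 ≤ Diag κ q L (Real.exp v / √q) := fun v =>
    diag_nonneg hκ hq L (by positivity)
  have hexp : ∀ v ∈ Ioi (0 : ℝ), Diag κ q L (Real.exp v / √q) ≤
      Real.exp (s * v) * Diag κ q L (Real.exp v / √q) := by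
    intro v hv
    have hv0 : (0 : ℝ) < v := hv
    have h1 : 1 ≤ Real.exp (s * v) := Real.one_le_exp (by positivity)
    have := mul_le_mul_of_nonneg_right h1 (hnn v)
    linarith
  have hint2 : IntegrableOn (fun v => Diag κ q L (Real.exp v / √q)) (Set.Ioi 0) := by
    have hmeas : AEStronglyMeasurable (fun v : ℝ => Diag κ q L (Real.exp v / √q)) := by
      have h1 : (fun v : ℝ => Diag κ q L (Real.exp v / √q)) = fun v : ℝ =>
          Real.exp (-(s * v)) * (Real.exp (s * v) * Diag κ q L (Real.exp v / √q)) := by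
        funext v
        rw [← mul_assoc, ← Real.exp_add]
        simp
      rw [h1]
      refine AEStronglyMeasurable.mul ?_ hint.aestronglyMeasurable
      exact (Continuous.aestronglyMeasurable (by fun_prop))
    refine Integrable.mono' (hint.integrableOn (s := Ioi 0)) hmeas.restrict ?_
    refine (ae_restrict_iff' measurableSet_Ioi).mpr (ae_of_all _ (fun v hv => ?_))
    rw [Real.norm_of_nonneg (hnn v)]
    exact hexp v hv
  refine ⟨hint2, ?_⟩
  have hle1 : ∫ v in Ioi (0 : ℝ), Diag κ q L (Real.exp v / √q) ≤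
      ∫ v : ℝ, Real.exp (s * v) * Diag κ q L (Real.exp v / √q) := by
    refine (setIntegral_mono_on hint2 hint.integrableOn measurableSet_Ioi hexp).trans ?_
    exact setIntegral_le_integral hint (ae_of_all _ (fun v => mul_nonneg (Real.exp_pos _).le (hnn v)))
  refine hle1.trans ?_
  rw [hval]
  set Z : ℝ := ∑' m : ℕ, (if m.Coprime q then (m : ℝ) ^ (-1 - s) else 0) with hZ
  have hZ0 : 0 ≤ Z := by
    refine tsum_nonneg (fun m => ?_)
    split_ifs
    · exact Real.rpow_nonneg (Nat.cast_nonneg m) _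
    · exact le_refl _
  have hZ1 : Z ≤ (1 + 1 / s) * (q.totient / q) * (q : ℝ) ^ s := (rsum1_pr (by omega) hs0).2
  have hqs : (q : ℝ) ^ s = Real.exp 1 := by
    rw [Real.rpow_def_of_pos hq0, ← hqL, hs]
    congr 1
    field_simp
  have hQs : (√q) ^ s ≤ Real.exp 1 := by
    rw [← hqs]
    refine Real.rpow_le_rpow hQ.le ?_ hs0.le
    exact (Real.sqrt_le_left hq0.le).mpr (by nlinarith)
  have hphi : (0 : ℝ) < (q.totient : ℝ) := by exact_mod_cast Nat.totient_pos.mpr (by omega)
  have hZ2 : Z ≤ 33 * L * (q.totient / q) * Real.exp 1 := by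
    rw [hqs] at hZ1
    refine hZ1.trans ?_
    have h1 : 1 + 1 / s ≤ 33 * L := by
      rw [hs, one_div_one_div]
      linarith
    have h2 : (0 : ℝ) ≤ (q.totient / q) * Real.exp 1 := by positivity
    have h3 := mul_le_mul_of_nonneg_right h1 h2
    linarith
  obtain ⟨hc0, hc1⟩ := hG κ hκ s hs0.le hs2
  have hSq := hS L q s hL (by omega) hqL.ge hs0.le hs1
  have hQs0 : 0 < (√q) ^ s := Real.rpow_pos_of_pos hQ s
  calc 4 * (√q) ^ s * cG κ s * Z * Sq L q s
      ≤ 4 * (√q) ^ s * cG κ s * Z * (C₁ * (q / q.totient) / L) :=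
        mul_le_mul_of_nonneg_left hSq (by positivity)
    _ ≤ 4 * Real.exp 1 * C₂ * (33 * L * (q.totient / q) * Real.exp 1) *
          (C₁ * (q / q.totient) / L) := by
        refine mul_le_mul_of_nonneg_right ?_ (by positivity)
        refine mul_le_mul ?_ hZ2 hZ0 (by positivity)
        refine mul_le_mul ?_ hc1 hc0 (by positivity)
        linarith
    _ = 4 * Real.exp 1 * C₂ * (33 * Real.exp 1) * C₁ := by
        field_simp

end Pool.Agent.SQ

namespace Pool.Agent.SQ

theorem diag_int : type_of% @diag_int_pr := @diag_int_pr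

end Pool.Agent.SQ
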