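import Pool.Agent.Lib_helper92.SQ.Defs
import Pool.Agent.Lib_helper92.SQA.DIAGN

/-!
# Block GSUM : `∑_{(m,q)=1} G(my)^2`
-/

namespace Pool.Agent.SQ

open Complex MeasureTheory Filter Topology
open Pool.Agent.GRH

theorem gsum_cont (κ : ℕ) : Continuous (fun y : ℝ => G κ y ^ 2) := by
  unfold G
  fun_prop

theorem gsum_nonneg {κ : ℕ} {y : ℝ} (hy : 0 ≤ y) : 0 ≤ G κ y := by
  unfold G; positivity

theorem gsum_le_inv {κ : ℕ} (hκ : κ ≤ 1) {y : ℝ} (hy : 0 ≤ y) : G κ y ^ 2 ≤ (1 + y ^ 2)⁻¹ := by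
  have h1 := G_le hκ hy
  have h3 : (1 : ℝ) / (1 + y ^ 2) ≤ 1 := by
    rw [div_le_one (by positivity)]; nlinarith [sq_nonneg y]
  rw [← sq_abs]
  calc |G κ y| ^ 2 ≤ (1 / (1 + y ^ 2)) ^ 2 :=
        pow_le_pow_left₀ (abs_nonneg _) h1 2
    _ ≤ 1 / (1 + y ^ 2) := by
        have : (0 : ℝ) ≤ 1 / (1 + y ^ 2) := by positivity
        nlinarith
    _ = (1 + y ^ 2)⁻¹ := one_div _

theorem gsum_le_one {κ : ℕ} (hκ : κ ≤ 1) {y : ℝ} (hy : 0 ≤ y) : G κ y ≤ 1 := by
  have h1 := G_le hκ hy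
  have h3 : (1 : ℝ) / (1 + y ^ 2) ≤ 1 := by
    rw [div_le_one (by positivity)]; nlinarith [sq_nonneg y]
  exact (le_abs_self _).trans (h1.trans h3)

theorem gsum_integrable {κ : ℕ} (hκ : κ ≤ 1) :
    IntegrableOn (fun y : ℝ => G κ y ^ 2) (Set.Ioi 0) := by
  refine Integrable.mono' (integrable_inv_one_add_sq.integrableOn)
    ((gsum_cont κ).aestronglyMeasurable) ?_
  refine (ae_restrict_iff' measurableSet_Ioi).mpr (ae_of_all _ fun y hy => ?_)
  rw [Real.norm_eq_abs, abs_of_nonneg (sq_nonneg _)]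
  exact gsum_le_inv hκ (le_of_lt hy)

theorem gsum_cell {κ : ℕ} {z : ℝ} (hz : 0 < z) (n : ℕ) {B : ℝ}
    (hB : ∀ t : ℝ, n * z ≤ t → t ≤ (n + 1) * z → |G κ ((n + 1) * z) ^ 2 - G κ t ^ 2| ≤ B) :
    |G κ ((n + 1) * z) ^ 2 - 1 / z * ∫ t in (n * z)..((n + 1) * z), G κ t ^ 2| ≤ B := by
  have hle : (n : ℝ) * z ≤ (n + 1) * z := by nlinarith
  have h1 : ∫ t in (n * z)..((n + 1) * z), (G κ ((n + 1) * z) ^ 2 - G κ t ^ 2) =
      z * G κ ((n + 1) * z) ^ 2 - ∫ t in (n * z)..((n + 1) * z), G κ t ^ 2 := by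
    rw [intervalIntegral.integral_sub]
    · rw [intervalIntegral.integral_const, smul_eq_mul]
      ring_nf
    · exact (continuous_const).intervalIntegrable _ _
    · exact (gsum_cont κ).intervalIntegrable _ _
  have h2 : ‖∫ t in (n * z)..((n + 1) * z), (G κ ((n + 1) * z) ^ 2 - G κ t ^ 2)‖ ≤
      B * |(n + 1) * z - n * z| := by
    apply intervalIntegral.norm_integral_le_of_norm_le_const
    intro t ht
    rw [Set.uIoc_of_le hle] at ht
    exact hB t ht.1.le ht.2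
  rw [h1, Real.norm_eq_abs] at h2
  have h3 : |((n : ℝ) + 1) * z - n * z| = z := by
    rw [show ((n : ℝ) + 1) * z - n * z = z by ring, abs_of_pos hz]
  rw [h3] at h2
  have h4 : G κ ((n + 1) * z) ^ 2 - 1 / z * ∫ t in (n * z)..((n + 1) * z), G κ t ^ 2 =
      1 / z * (z * G κ ((n + 1) * z) ^ 2 - ∫ t in (n * z)..((n + 1) * z), G κ t ^ 2) := by
    field_simp
  rw [h4, abs_mul, abs_of_pos (by positivity : (0 : ℝ) < 1 / z)]
  calc 1 / z * |z * G κ ((n + 1) * z) ^ 2 - ∫ t in (n * z)..((n + 1) * z), G κ t ^ 2|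
      ≤ 1 / z * (B * z) := mul_le_mul_of_nonneg_left h2 (by positivity)
    _ = B := by field_simp

theorem gsum_riemann : ∃ C : ℝ, 0 ≤ C ∧ ∀ κ : ℕ, κ ≤ 1 → ∀ z : ℝ, 0 < z →
    |∑' n : ℕ, G κ ((n + 1) * z) ^ 2 - 1 / z * ∫ t in Set.Ioi (0 : ℝ), G κ t ^ 2| ≤ C := by
  obtain ⟨C0, hC0, h0⟩ := G_lip (κ := 0) (by norm_num)
  obtain ⟨C1, hC1, h1⟩ := G_lip (κ := 1) (by norm_num)
  set Cm := C0 + C1 with hCm
  have hCmn : 0 ≤ Cm := by positivity
  have hlip : ∀ κ : ℕ, κ ≤ 1 → ∀ x y : ℝ, 0 ≤ x → x ≤ y →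
      |G κ x - G κ y| ≤ Cm * (y - x) / (1 + x ^ 2) := by
    intro κ hκ x y hx hxy
    have hyx : 0 ≤ y - x := by linarith
    interval_cases κ
    · refine (h0 x y hx hxy).trans ?_
      apply div_le_div_of_nonneg_right _ (by positivity)
      exact mul_le_mul_of_nonneg_right (by linarith) hyx
    · refine (h1 x y hx hxy).trans ?_
      apply div_le_div_of_nonneg_right _ (by positivity)
      exact mul_le_mul_of_nonneg_right (by linarith) hyx
  refine ⟨1 + Cm * Real.pi, by positivity, fun κ hκ z hz => ?_⟩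
  have hpart : ∀ N : ℕ, |∑ n ∈ Finset.range (N + 1), G κ ((n + 1) * z) ^ 2 -
      1 / z * ∫ t in (0 : ℝ)..((N + 1 : ℕ) * z), G κ t ^ 2| ≤ 1 + Cm * Real.pi := by
    intro N
    have hadj : ∑ n ∈ Finset.range (N + 1), ∫ t in ((n : ℕ) * z)..(((n + 1 : ℕ) : ℝ) * z), G κ t ^ 2
        = ∫ t in (((0 : ℕ) : ℝ) * z)..((N + 1 : ℕ) * z), G κ t ^ 2 :=
      intervalIntegral.sum_integral_adjacent_intervals (a := fun n : ℕ => (n : ℝ) * z)
        (fun k _ => (gsum_cont κ).intervalIntegrable _ _)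
    rw [Nat.cast_zero, zero_mul] at hadj
    rw [← hadj, Finset.mul_sum, ← Finset.sum_sub_distrib]
    refine (Finset.abs_sum_le_sum_abs _ _).trans ?_
    rw [Finset.sum_range_succ']
    have hcell0 : |G κ (((0 : ℕ) + 1) * z) ^ 2 -
        1 / z * ∫ t in (((0 : ℕ) : ℝ) * z)..(((0 + 1 : ℕ) : ℝ) * z), G κ t ^ 2| ≤ 1 := by
      have := gsum_cell (κ := κ) hz 0 (B := 1) (by
        intro t ht ht'
        have ht0 : 0 ≤ t := by simpa using ht
        have hz0 : 0 ≤ (((0 : ℕ) : ℝ) + 1) * z := by positivity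
        have a1 := gsum_nonneg (κ := κ) ht0
        have a2 := gsum_le_one hκ ht0
        have a3 := gsum_nonneg (κ := κ) hz0
        have a4 := gsum_le_one hκ hz0
        rw [abs_le]
        constructor <;> nlinarith)
      simpa using this
    have hcells : ∑ k ∈ Finset.range N, |G κ (((k + 1 : ℕ) + 1) * z) ^ 2 -
        1 / z * ∫ t in (((k + 1 : ℕ) : ℝ) * z)..(((k + 1 + 1 : ℕ) : ℝ) * z), G κ t ^ 2| ≤
        ∑ k ∈ Finset.range N, 2 * Cm * z * (1 / (1 + (((k : ℝ) + 1) * z) ^ 2)) := by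
      refine Finset.sum_le_sum fun k _ => ?_
      have := gsum_cell (κ := κ) hz (k + 1)
        (B := 2 * Cm * z * (1 / (1 + (((k : ℝ) + 1) * z) ^ 2))) (by
        intro t ht ht'
        have hkz : 0 < ((k + 1 : ℕ) : ℝ) * z := by positivity
        have ht0 : 0 ≤ t := hkz.le.trans ht
        have hz0 : 0 ≤ (((k + 1 : ℕ) : ℝ) + 1) * z := by positivity
        have a1 := gsum_nonneg (κ := κ) ht0
        have a2 := gsum_le_one hκ ht0
        have a3 := gsum_nonneg (κ := κ) hz0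
        have a4 := gsum_le_one hκ hz0
        have a5 := hlip κ hκ t _ ht0 ht'
        have a6 : |G κ ((((k + 1 : ℕ) : ℝ) + 1) * z) ^ 2 - G κ t ^ 2| =
            |G κ t - G κ ((((k + 1 : ℕ) : ℝ) + 1) * z)| *
              (G κ t + G κ ((((k + 1 : ℕ) : ℝ) + 1) * z)) := by
          rw [← abs_of_nonneg (add_nonneg a1 a3), ← abs_mul, ← abs_neg]
          congr 1; ring
        rw [a6]
        have a7 : Cm * ((((k + 1 : ℕ) : ℝ) + 1) * z - t) / (1 + t ^ 2) ≤
            Cm * z * (1 / (1 + (((k : ℝ) + 1) * z) ^ 2)) := by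
          rw [mul_one_div]
          have b1 : (((k + 1 : ℕ) : ℝ) + 1) * z - t ≤ z := by
            have : (((k + 1 : ℕ) : ℝ) + 1) * z = ((k + 1 : ℕ) : ℝ) * z + z := by ring
            linarith
          have b2 : 1 + (((k : ℝ) + 1) * z) ^ 2 ≤ 1 + t ^ 2 := by
            have b3 : ((k : ℝ) + 1) * z ≤ t := by
              have : ((k + 1 : ℕ) : ℝ) * z = ((k : ℝ) + 1) * z := by push_cast; ring
              linarith
            have b4 : 0 ≤ ((k : ℝ) + 1) * z := by positivity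
            nlinarith
          exact div_le_div₀ (by positivity) (mul_le_mul_of_nonneg_left b1 hCmn) (by positivity) b2
        calc |G κ t - G κ ((((k + 1 : ℕ) : ℝ) + 1) * z)| *
              (G κ t + G κ ((((k + 1 : ℕ) : ℝ) + 1) * z))
            ≤ (Cm * z * (1 / (1 + (((k : ℝ) + 1) * z) ^ 2))) * 2 := by
              apply mul_le_mul (a5.trans a7) (by linarith) (by linarith) (by positivity)
          _ = _ := by ring)
      have e : (((k + 1 + 1 : ℕ) : ℝ)) = ((k + 1 : ℕ) : ℝ) + 1 := by push_cast; ring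
      rw [e]
      exact this
    have hX : ∑ k ∈ Finset.range N, 2 * Cm * z * (1 / (1 + (((k : ℝ) + 1) * z) ^ 2)) ≤
        Cm * Real.pi := by
      rw [← Finset.mul_sum]
      have h1 : ∑ k ∈ Finset.range N, 1 / (1 + (((k : ℝ) + 1) * z) ^ 2) ≤ X z :=
        (X_summable hz).sum_le_tsum _ (fun n _ => by positivity)
      calc 2 * Cm * z * ∑ k ∈ Finset.range N, 1 / (1 + (((k : ℝ) + 1) * z) ^ 2)
          ≤ 2 * Cm * z * (Real.pi / (2 * z)) :=
            mul_le_mul_of_nonneg_left (h1.trans (X_le hz)) (by positivity)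
        _ = Cm * Real.pi := by field_simp
    have := add_le_add (hcells.trans hX) hcell0
    linarith
  have hs1 : Summable (fun n : ℕ => G κ ((n + 1) * z) ^ 2) := by
    have := (summable_nat_add_iff 1).mpr (diagn_Gsq_summable hκ hz)
    simpa using this
  have ht1 : Tendsto (fun N : ℕ => ∑ n ∈ Finset.range (N + 1), G κ ((n + 1) * z) ^ 2) atTop
      (𝓝 (∑' n : ℕ, G κ ((n + 1) * z) ^ 2)) :=
    (hs1.hasSum.tendsto_sum_nat).comp (tendsto_add_atTop_nat 1)
  have ht2 : Tendsto (fun N : ℕ => ∫ t in (0 : ℝ)..((N + 1 : ℕ) * z), G κ t ^ 2) atTop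
      (𝓝 (∫ t in Set.Ioi (0 : ℝ), G κ t ^ 2)) := by
    apply intervalIntegral_tendsto_integral_Ioi _ (gsum_integrable hκ)
    apply Tendsto.atTop_mul_const hz
    exact tendsto_natCast_atTop_atTop.comp (tendsto_add_atTop_nat 1)
  have ht3 := (ht1.sub (ht2.const_mul (1 / z))).abs
  exact le_of_tendsto ht3 (Eventually.of_forall hpart)

/-! ### Sieve identity -/

theorem gsum_coprime {q : ℕ} (hq : q ≠ 0) (m : ℕ) :
    (if m.Coprime q then (1 : ℝ) else 0) = ∑ S ∈ q.primeFactors.powerset,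
      (-1) ^ S.card * (if (∏ p ∈ S, p) ∣ m then (1 : ℝ) else 0) := by
  have h1 : ∏ p ∈ q.primeFactors, ((1 : ℝ) - if p ∣ m then 1 else 0) =
      if m.Coprime q then 1 else 0 := by
    by_cases hc : m.Coprime q
    · rw [if_pos hc]
      refine Finset.prod_eq_one fun p hp => ?_
      have hpp := Nat.prime_of_mem_primeFactors hp
      have hpq := Nat.dvd_of_mem_primeFactors hp
      have : ¬ p ∣ m := fun hpm => by
        have := Nat.Coprime.eq_one_of_dvd (Nat.Coprime.coprime_dvd_left hpm hc) hpq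
        exact hpp.one_lt.ne' this
      rw [if_neg this, sub_zero]
    · rw [if_neg hc]
      obtain ⟨p, hpp, hpm, hpq⟩ := Nat.Prime.not_coprime_iff_dvd.mp hc
      refine Finset.prod_eq_zero (i := p) (Nat.mem_primeFactors.mpr ⟨hpp, hpq, hq⟩) ?_
      rw [if_pos hpm, sub_self]
  rw [← h1, Finset.prod_sub]
  refine Finset.sum_congr rfl fun S hS => ?_
  rw [Finset.prod_const_one, mul_one]
  congr 1
  rw [Finset.mem_powerset] at hS
  by_cases hd : (∏ p ∈ S, p) ∣ m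
  · rw [if_pos hd]
    refine Finset.prod_eq_one fun p hp => ?_
    rw [if_pos ((Finset.dvd_prod_of_mem _ hp).trans hd)]
  · rw [if_neg hd]
    by_contra hne
    apply hd
    refine Finset.prod_primes_dvd m (fun p hp => ?_) (fun p hp => ?_)
    · exact (Nat.prime_of_mem_primeFactors (hS hp)).prime
    · by_contra hpm
      exact hne (Finset.prod_eq_zero hp (if_neg hpm))

theorem gsum_totient {q : ℕ} (hq : q ≠ 0) :
    (q.totient : ℝ) / q = ∑ S ∈ q.primeFactors.powerset,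
      (-1) ^ S.card * (1 / ((∏ p ∈ S, p : ℕ) : ℝ)) := by
  have hq' : (q : ℝ) ≠ 0 := by exact_mod_cast hq
  have h := Nat.totient_eq_mul_prod_factors q
  have h2 : (q.totient : ℝ) = q * ∏ p ∈ q.primeFactors, (1 - (p : ℝ)⁻¹) := by
    have h3 := congrArg (fun x : ℚ => (x : ℝ)) h
    push_cast at h3
    exact h3
  rw [h2, mul_div_assoc, mul_comm, div_mul_cancel₀ _ hq', Finset.prod_sub]
  refine Finset.sum_congr rfl fun S _ => ?_
  rw [Finset.prod_const_one, mul_one]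
  congr 1
  push_cast
  rw [Finset.prod_inv_distrib, one_div]

/-- The multiples of `d`. -/
theorem gsum_mult {κ : ℕ} (hκ : κ ≤ 1) {d : ℕ} (hd : d ≠ 0) {y : ℝ} (hy : 0 < y) :
    HasSum (fun m : ℕ => if d ∣ m then G κ (m * y) ^ 2 else 0)
      (G κ 0 ^ 2 + ∑' n : ℕ, G κ ((n + 1) * (d * y)) ^ 2) := by
  have hd' : (0 : ℝ) < d := by exact_mod_cast Nat.pos_of_ne_zero hd
  have hdy : 0 < (d : ℝ) * y := by positivity
  have hinj : Function.Injective (fun n : ℕ => d * n) :=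
    fun a b h => Nat.eq_of_mul_eq_mul_left (Nat.pos_of_ne_zero hd) h
  have hout : ∀ x ∉ Set.range (fun n : ℕ => d * n),
      (fun m : ℕ => if d ∣ m then G κ (m * y) ^ 2 else 0) x = 0 := by
    intro x hx
    have : ¬ d ∣ x := by
      rintro ⟨c, rfl⟩
      exact hx ⟨c, rfl⟩
    simp only [if_neg this]
  rw [← Function.Injective.hasSum_iff hinj hout]
  have hcomp : (fun m : ℕ => if d ∣ m then G κ (m * y) ^ 2 else 0) ∘ (fun n : ℕ => d * n) =
      fun n : ℕ => G κ (n * (d * y)) ^ 2 := by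
    funext n
    simp only [Function.comp, dvd_mul_right, if_true]
    congr 2
    push_cast; ring
  rw [hcomp]
  have hs := diagn_Gsq_summable hκ hdy
  have h0 := hs.tsum_eq_zero_add
  have h1 : G κ 0 ^ 2 + ∑' n : ℕ, G κ ((n + 1) * (d * y)) ^ 2 =
      ∑' n : ℕ, G κ (n * (d * y)) ^ 2 := by
    rw [h0]
    simp
  rw [h1]
  exact hs.hasSum

theorem gsum_pr : ∃ C : ℝ, 0 ≤ C ∧ ∀ κ : ℕ, κ ≤ 1 → ∀ q : ℕ, 2 ≤ q → ∀ y : ℝ, 0 < y →
    |WW κ q y - cG κ 0 * (q.totient / q) / y| ≤ C * 2 ^ q.primeFactors.card := by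
  obtain ⟨C, hC, hR⟩ := gsum_riemann
  refine ⟨C, hC, fun κ hκ q hq y hy => ?_⟩
  have hq0 : q ≠ 0 := by omega
  have hcG : cG κ 0 = ∫ t in Set.Ioi (0 : ℝ), G κ t ^ 2 := by
    unfold cG
    simp
  have hSpos : ∀ S ∈ q.primeFactors.powerset, (∏ p ∈ S, p) ≠ 0 := by
    intro S hS
    rw [Finset.mem_powerset] at hS
    exact Finset.prod_ne_zero_iff.mpr fun p hp =>
      (Nat.prime_of_mem_primeFactors (hS hp)).ne_zero
  -- WW as a sieve sum
  have hWW : WW κ q y = ∑ S ∈ q.primeFactors.powerset, (-1) ^ S.card *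
      (G κ 0 ^ 2 + ∑' n : ℕ, G κ ((n + 1) * ((∏ p ∈ S, p : ℕ) * y)) ^ 2) := by
    have hsum : HasSum (fun m : ℕ => ∑ S ∈ q.primeFactors.powerset, (-1) ^ S.card *
        (if (∏ p ∈ S, p) ∣ m then G κ (m * y) ^ 2 else 0))
        (∑ S ∈ q.primeFactors.powerset, (-1) ^ S.card *
      (G κ 0 ^ 2 + ∑' n : ℕ, G κ ((n + 1) * ((∏ p ∈ S, p : ℕ) * y)) ^ 2)) := by
      refine hasSum_sum fun S hS => ?_
      exact (gsum_mult hκ (hSpos S hS) hy).mul_left _
    rw [← hsum.tsum_eq]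
    unfold WW
    refine tsum_congr fun m => ?_
    have h1 := gsum_coprime hq0 m
    have h2 : (if m.Coprime q then G κ (m * y) ^ 2 else 0) =
        (if m.Coprime q then (1 : ℝ) else 0) * G κ (m * y) ^ 2 := by
      split_ifs <;> simp
    rw [h2, h1, Finset.sum_mul]
    refine Finset.sum_congr rfl fun S _ => ?_
    split_ifs <;> simp
  have hneg : ∑ S ∈ q.primeFactors.powerset, (-1 : ℝ) ^ S.card = 0 := by
    have hne : q.primeFactors.Nonempty := Nat.nonempty_primeFactors.mpr (by omega)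
    have h := Finset.sum_powerset_neg_one_pow_card_of_nonempty hne
    exact_mod_cast congrArg (fun x : ℤ => (x : ℝ)) h
  have hdiff : WW κ q y - cG κ 0 * (q.totient / q) / y =
      ∑ S ∈ q.primeFactors.powerset, (-1) ^ S.card *
        (∑' n : ℕ, G κ ((n + 1) * ((∏ p ∈ S, p : ℕ) * y)) ^ 2 -
          1 / ((∏ p ∈ S, p : ℕ) * y) * ∫ t in Set.Ioi (0 : ℝ), G κ t ^ 2) := by
    have e1 : WW κ q y = ∑ S ∈ q.primeFactors.powerset, (-1) ^ S.card *
        (∑' n : ℕ, G κ ((n + 1) * ((∏ p ∈ S, p : ℕ) * y)) ^ 2) := by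
      rw [hWW]
      simp only [mul_add, Finset.sum_add_distrib]
      rw [← Finset.sum_mul, hneg, zero_mul, zero_add]
    rw [e1, gsum_totient hq0, hcG]
    simp only [mul_sub, Finset.sum_sub_distrib]
    congr 1
    rw [Finset.mul_sum, Finset.sum_div]
    refine Finset.sum_congr rfl fun S hS => ?_
    have h0 : ((∏ p ∈ S, p : ℕ) : ℝ) ≠ 0 := by exact_mod_cast hSpos S hS
    field_simp
  rw [hdiff]
  refine (Finset.abs_sum_le_sum_abs _ _).trans ?_
  have hterm : ∀ S ∈ q.primeFactors.powerset, |(-1 : ℝ) ^ S.card *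
        (∑' n : ℕ, G κ ((n + 1) * ((∏ p ∈ S, p : ℕ) * y)) ^ 2 -
          1 / ((∏ p ∈ S, p : ℕ) * y) * ∫ t in Set.Ioi (0 : ℝ), G κ t ^ 2)| ≤ C := by
    intro S hS
    rw [abs_mul, abs_pow, abs_neg, abs_one, one_pow, one_mul]
    have h0 : (0 : ℝ) < ((∏ p ∈ S, p : ℕ) : ℝ) := by
      exact_mod_cast Nat.pos_of_ne_zero (hSpos S hS)
    exact hR κ hκ _ (by positivity)
  refine (Finset.sum_le_card_nsmul _ _ _ hterm).trans (le_of_eq ?_)
  rw [Finset.card_powerset, nsmul_eq_mul]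
  push_cast
  ring

end Pool.Agent.SQ

namespace Pool.Agent.SQ

theorem gsum : type_of% @gsum_pr := @gsum_pr

end Pool.Agent.SQ
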