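import Pool.Agent.Lib_helper92.SQ.Defs

namespace Pool.Agent.SQ

open Complex MeasureTheory Filter Topology
open Pool.Agent.GRH

theorem omega_aux {p : ℕ} (hp : 0 < p) :
    (2 : ℝ) ≤ (p : ℝ) ^ (1 / 8 : ℝ) * (if p < 256 then 2 else 1) := by
  have h1 : (1 : ℝ) ≤ p := by exact_mod_cast hp
  split_ifs with h
  · have : (1 : ℝ) ≤ (p : ℝ) ^ (1 / 8 : ℝ) := Real.one_le_rpow h1 (by norm_num)
    linarith
  · have h2 : (256 : ℝ) ≤ p := by exact_mod_cast (not_lt.mp h)
    have h3 : (256 : ℝ) ^ (1 / 8 : ℝ) ≤ (p : ℝ) ^ (1 / 8 : ℝ) :=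
      Real.rpow_le_rpow (by norm_num) h2 (by norm_num)
    have h4 : (256 : ℝ) ^ (1 / 8 : ℝ) = 2 := by
      have : (256 : ℝ) = 2 ^ (8 : ℝ) := by norm_num
      rw [this, ← Real.rpow_mul (by norm_num)]
      norm_num
    rw [h4] at h3
    linarith

theorem omega_le_pr : ∃ C : ℝ, 0 ≤ C ∧ ∀ q : ℕ, 0 < q →
    (2 : ℝ) ^ q.primeFactors.card ≤ C * (q : ℝ) ^ (1 / 8 : ℝ) := by
  refine ⟨2 ^ 256, by positivity, fun q hq => ?_⟩
  have h1 : (2 : ℝ) ^ q.primeFactors.card ≤
      ∏ p ∈ q.primeFactors, ((p : ℝ) ^ (1 / 8 : ℝ) * (if p < 256 then 2 else 1)) := by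
    rw [← Finset.prod_const]
    apply Finset.prod_le_prod (fun _ _ => by norm_num)
    intro p hp
    exact omega_aux (Nat.prime_of_mem_primeFactors hp).pos
  refine h1.trans ?_
  rw [Finset.prod_mul_distrib, mul_comm]
  apply mul_le_mul
  · rw [Finset.prod_ite, Finset.prod_const, Finset.prod_const, one_pow, mul_one]
    apply pow_le_pow_right₀ (by norm_num)
    calc (q.primeFactors.filter (fun p => p < 256)).card ≤ (Finset.range 256).card := by
          apply Finset.card_le_card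
          intro p hp
          rw [Finset.mem_filter] at hp
          exact Finset.mem_range.mpr hp.2
      _ = 256 := Finset.card_range 256
  · rw [Real.finset_prod_rpow _ _ (fun p _ => by positivity)]
    apply Real.rpow_le_rpow (Finset.prod_nonneg fun p _ => by positivity) _ (by norm_num)
    have h2 : (∏ p ∈ q.primeFactors, p) ≤ q := Nat.le_of_dvd hq (Nat.prod_primeFactors_dvd q)
    calc ∏ p ∈ q.primeFactors, (p : ℝ) = ((∏ p ∈ q.primeFactors, p : ℕ) : ℝ) := by push_cast; rfl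
      _ ≤ q := by exact_mod_cast h2
  · exact Finset.prod_nonneg fun p _ => by positivity
  · positivity

end Pool.Agent.SQ

namespace Pool.Agent.SQ

theorem omega_le : type_of% @omega_le_pr := @omega_le_pr

end Pool.Agent.SQ
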