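import Pool.Agent.Lib_helper92.SQ.Defs
import Pool.Agent.Lib_helper92.SQA.BBD
import Pool.Agent.Lib_helper92.SQA.G5
import Pool.Agent.Lib_helper92.SQA.GSUM
import Pool.Agent.Lib_helper92.SQA.OMEGA
import Pool.Agent.Lib_helper92.SQA.SB

namespace Pool.Agent.SQ

open Complex MeasureTheory Filter Topology
open Pool.Agent.GRH

theorem diags_two_le {L : ℝ} {q : ℕ} (hL : 1 ≤ L) (hq : 32 * L = Real.log q) : 2 ≤ q := by
  by_contra h
  have h1 : q = 0 ∨ q = 1 := by omega
  rcases h1 with rfl | rfl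
  · simp at hq
    linarith
  · simp at hq
    linarith

theorem diags_cc {L : ℝ} (hL : 0 < L) (j : ℕ × ℕ) : |cc L j| ≤ 1 := by
  unfold cc
  rw [abs_div, abs_mul]
  have h1 := be_abs hL j.1
  have h2 := be_abs hL j.2
  have h3 : |be L j.1| * |be L j.2| ≤ 1 := by
    calc |be L j.1| * |be L j.2| ≤ 1 * 1 := mul_le_mul h1 h2 (abs_nonneg _) zero_le_one
      _ = 1 := one_mul 1
  rcases Nat.eq_zero_or_pos j.2 with h | h
  · rw [h]; simp
  · have h4 : (1 : ℝ) ≤ |(j.2 : ℝ)| := by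
      rw [Nat.abs_cast]
      exact_mod_cast h
    rw [div_le_one (by linarith)]
    linarith

theorem diags_NN_le {L : ℝ} (hL : 0 ≤ L) : (NN L : ℝ) ≤ 2 * Real.exp L := by
  unfold NN
  have h1 := (Nat.ceil_lt_add_one (Real.exp_pos L).le).le
  have h2 : (1 : ℝ) ≤ Real.exp L := Real.one_le_exp hL
  linarith

theorem diags_card {L : ℝ} (hL : 0 ≤ L) (q : ℕ) : ((JJ L q).card : ℝ) ≤ 4 * Real.exp (2 * L) := by
  have h1 : (JJ L q).card ≤ NN L * NN L := by
    unfold JJ
    refine (Finset.card_filter_le _ _).trans ?_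
    rw [Finset.card_product, Finset.card_range]
  have h2 : ((JJ L q).card : ℝ) ≤ (NN L : ℝ) * NN L := by exact_mod_cast h1
  refine h2.trans ?_
  calc (NN L : ℝ) * NN L ≤ (2 * Real.exp L) * (2 * Real.exp L) :=
        mul_le_mul (diags_NN_le hL) (diags_NN_le hL) (by positivity) (by positivity)
    _ = 4 * Real.exp (2 * L) := by
        rw [two_mul L, Real.exp_add]; ring

theorem diag_small_pr : ∃ C : ℝ, 0 ≤ C ∧ ∀ κ : ℕ, κ ≤ 1 → ∀ (L : ℝ) (q : ℕ), 1 ≤ L →
    32 * L = Real.log q → ∀ δ : ℝ, 0 < δ → δ ≤ Real.exp (L / 2) / √q →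
      Diag κ q L δ ≤ C / L := by
  obtain ⟨C₁, hC₁, hS⟩ := Sq_le
  obtain ⟨C₂, hC₂, hG⟩ := gsum
  obtain ⟨C₃, hC₃, hO⟩ := omega_le
  obtain ⟨C₄, hC₄, hc⟩ := cG_le
  refine ⟨4 * C₄ * C₁ + 64 * C₂ * C₃, by positivity, fun κ hκ L q hL hqL δ hδ hδ' => ?_⟩
  have hL0 : 0 < L := by linarith
  have hq2 := diags_two_le hL hqL
  have hq0 : (0 : ℝ) < q := by
    have : 0 < q := by omega
    exact_mod_cast this
  have hφ : (0 : ℝ) < q.totient := by exact_mod_cast Nat.totient_pos.mpr (by omega)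
  have hqe : (q : ℝ) = Real.exp (32 * L) := by rw [hqL, Real.exp_log hq0]
  have hsq : √(q : ℝ) = Real.exp (16 * L) := by
    rw [hqe, Real.sqrt_eq_iff_mul_self_eq (Real.exp_pos _).le (Real.exp_pos _).le, ← Real.exp_add]
    congr 1
    ring
  have hq8 : (q : ℝ) ^ (1 / 8 : ℝ) = Real.exp (4 * L) := by
    rw [hqe, ← Real.exp_mul]
    congr 1
    ring
  obtain ⟨hcg0, hcg1⟩ := hc κ hκ 0 le_rfl zero_le_one
  set W : ℝ := 2 ^ q.primeFactors.card with hW
  have hW' : W ≤ C₃ * Real.exp (4 * L) := by rw [← hq8]; exact hO q (by omega)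
  have hW0 : 0 ≤ W := by positivity
  have hpos : ∀ j ∈ JJ L q, 0 < j.1 ∧ 0 < j.2 := by
    intro j hj
    unfold JJ at hj
    rw [Finset.mem_filter] at hj
    have h1 : j.1 * j.2 ≠ 0 := by
      intro h0
      rw [h0, Nat.coprime_zero_left] at hj
      omega
    exact ⟨Nat.pos_of_ne_zero (left_ne_zero_of_mul h1), Nat.pos_of_ne_zero (right_ne_zero_of_mul h1)⟩
  have hterm : ∀ j ∈ JJ L q, ∀ j' ∈ JJ L q,
      cc L j * cc L j' * WW κ q (δ * (j.1 * j'.1) / gg j j') ≤
      (cG κ 0 * (q.totient / q) / δ) *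
        (cc L j * cc L j' * ((gg j j' : ℝ) / (j.1 * j'.1)) ^ (1 + (0 : ℝ))) + C₂ * W := by
    intro j hj j' hj'
    obtain ⟨h1, h2⟩ := hpos j hj
    obtain ⟨h1', h2'⟩ := hpos j' hj'
    have hg : 0 < gg j j' := Nat.gcd_pos_of_pos_left _ (Nat.mul_pos h1 h2')
    have hgR : (0 : ℝ) < gg j j' := by exact_mod_cast hg
    have h1R : (0 : ℝ) < j.1 := by exact_mod_cast h1
    have h1R' : (0 : ℝ) < j'.1 := by exact_mod_cast h1'
    have hy : 0 < δ * (j.1 * j'.1) / gg j j' := by positivity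
    have h3 := hG κ hκ q hq2 _ hy
    have h4 : |cc L j * cc L j'| ≤ 1 := by
      rw [abs_mul]
      calc |cc L j| * |cc L j'| ≤ 1 * 1 :=
            mul_le_mul (diags_cc hL0 j) (diags_cc hL0 j') (abs_nonneg _) zero_le_one
        _ = 1 := one_mul 1
    have h5 : cc L j * cc L j' * (WW κ q (δ * (j.1 * j'.1) / gg j j') -
        cG κ 0 * (q.totient / q) / (δ * (j.1 * j'.1) / gg j j')) ≤ C₂ * W := by
      refine (le_abs_self _).trans ?_
      rw [abs_mul]
      calc |cc L j * cc L j'| * |WW κ q (δ * (j.1 * j'.1) / gg j j') -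
            cG κ 0 * (q.totient / q) / (δ * (j.1 * j'.1) / gg j j')| ≤ 1 * (C₂ * W) :=
            mul_le_mul h4 h3 (abs_nonneg _) zero_le_one
        _ = C₂ * W := one_mul _
    have h6 : cG κ 0 * (q.totient / q) / (δ * (j.1 * j'.1) / gg j j') =
        (cG κ 0 * (q.totient / q) / δ) * ((gg j j' : ℝ) / (j.1 * j'.1)) := by
      field_simp
    rw [h6] at h5
    rw [add_zero, Real.rpow_one]
    nlinarith [h5]
  have hcard := diags_card hL0.le q
  have hsum : ∑ j ∈ JJ L q, ∑ j' ∈ JJ L q,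
      cc L j * cc L j' * WW κ q (δ * (j.1 * j'.1) / gg j j') ≤
      (cG κ 0 * (q.totient / q) / δ) * Sq L q 0 + (JJ L q).card * (JJ L q).card * (C₂ * W) := by
    calc ∑ j ∈ JJ L q, ∑ j' ∈ JJ L q, cc L j * cc L j' * WW κ q (δ * (j.1 * j'.1) / gg j j')
        ≤ ∑ j ∈ JJ L q, ∑ j' ∈ JJ L q, ((cG κ 0 * (q.totient / q) / δ) *
            (cc L j * cc L j' * ((gg j j' : ℝ) / (j.1 * j'.1)) ^ (1 + (0 : ℝ))) + C₂ * W) :=
          Finset.sum_le_sum fun j hj => Finset.sum_le_sum fun j' hj' => hterm j hj j' hj'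
      _ = _ := by
          unfold Sq
          simp only [Finset.sum_add_distrib, Finset.sum_const, nsmul_eq_mul, ← Finset.mul_sum]
          ring
  unfold Diag
  have hmain : cG κ 0 * (q.totient / q) * Sq L q 0 ≤ C₄ * C₁ / L := by
    have h1 := hS L q 0 hL (by omega) hqL.ge le_rfl (by positivity)
    calc cG κ 0 * (q.totient / q) * Sq L q 0
        ≤ cG κ 0 * (q.totient / q) * (C₁ * (q / q.totient) / L) :=
          mul_le_mul_of_nonneg_left h1 (by positivity)
      _ = cG κ 0 * C₁ / L := by field_simp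
      _ ≤ C₄ * C₁ / L := by
          apply div_le_div_of_nonneg_right _ hL0.le
          exact mul_le_mul_of_nonneg_right hcg1 hC₁
  have herr : δ * ((JJ L q).card * (JJ L q).card * (C₂ * W)) ≤ 16 * C₂ * C₃ / L := by
    have hδ2 : δ ≤ Real.exp (-(31 / 2) * L) := by
      refine hδ'.trans (le_of_eq ?_)
      rw [hsq, ← Real.exp_sub]
      congr 1
      ring
    have hc0 : (0 : ℝ) ≤ (JJ L q).card := Nat.cast_nonneg _
    have hcc : ((JJ L q).card : ℝ) * (JJ L q).card ≤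
        (4 * Real.exp (2 * L)) * (4 * Real.exp (2 * L)) :=
      mul_le_mul hcard hcard hc0 (hc0.trans hcard)
    have hww : C₂ * W ≤ C₂ * (C₃ * Real.exp (4 * L)) := mul_le_mul_of_nonneg_left hW' hC₂
    have hcw : ((JJ L q).card : ℝ) * (JJ L q).card * (C₂ * W) ≤
        (4 * Real.exp (2 * L)) * (4 * Real.exp (2 * L)) * (C₂ * (C₃ * Real.exp (4 * L))) :=
      mul_le_mul hcc hww (mul_nonneg hC₂ hW0) ((mul_nonneg hc0 hc0).trans hcc)
    calc δ * ((JJ L q).card * (JJ L q).card * (C₂ * W))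
        ≤ Real.exp (-(31 / 2) * L) * ((4 * Real.exp (2 * L)) * (4 * Real.exp (2 * L)) *
            (C₂ * (C₃ * Real.exp (4 * L)))) :=
          mul_le_mul hδ2 hcw (mul_nonneg (mul_nonneg hc0 hc0) (mul_nonneg hC₂ hW0))
            (Real.exp_pos _).le
      _ = 16 * C₂ * C₃ * (Real.exp (-(31 / 2) * L) * Real.exp (2 * L) * Real.exp (2 * L) *
            Real.exp (4 * L)) := by ring
      _ = 16 * C₂ * C₃ * Real.exp (-(15 / 2) * L) := by
          rw [← Real.exp_add, ← Real.exp_add, ← Real.exp_add]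
          congr 2
          ring
      _ ≤ 16 * C₂ * C₃ * (1 / L) := by
          apply mul_le_mul_of_nonneg_left _ (by positivity)
          rw [neg_mul, Real.exp_neg, ← one_div]
          apply one_div_le_one_div_of_le hL0
          have := Real.add_one_le_exp (15 / 2 * L)
          linarith
      _ = 16 * C₂ * C₃ / L := by ring
  calc 4 * δ * ∑ j ∈ JJ L q, ∑ j' ∈ JJ L q,
        cc L j * cc L j' * WW κ q (δ * (j.1 * j'.1) / gg j j')
      ≤ 4 * δ * ((cG κ 0 * (q.totient / q) / δ) * Sq L q 0 +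
          (JJ L q).card * (JJ L q).card * (C₂ * W)) :=
        mul_le_mul_of_nonneg_left hsum (by positivity)
    _ = 4 * (cG κ 0 * (q.totient / q) * Sq L q 0) +
          4 * (δ * ((JJ L q).card * (JJ L q).card * (C₂ * W))) := by
        field_simp
    _ ≤ 4 * (C₄ * C₁ / L) + 4 * (16 * C₂ * C₃ / L) := by
        apply add_le_add
        · linarith
        · linarith
    _ = (4 * C₄ * C₁ + 64 * C₂ * C₃) / L := by ring

end Pool.Agent.SQ

namespace Pool.Agent.SQ

theorem diag_small : type_of% @diag_small_pr := @diag_small_pr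

end Pool.Agent.SQ
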