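import Pool.Agent.Lib_helper92.SQ.Defs
import Pool.Agent.Lib_helper92.SQA.BBD
import Pool.Agent.Lib_helper92.SQA.FEQ
import Pool.Agent.Lib_helper92.SQA.G5
import Pool.Agent.Lib_helper92.SQA.ORTHF

namespace Pool.Agent.SQ

open Complex MeasureTheory Filter Topology
open Pool.Agent.GRH

theorem mf_G_nonneg (κ : ℕ) {y : ℝ} (hy : 0 ≤ y) : 0 ≤ G κ y := by
  unfold G; positivity

theorem mf_sum_X {α : ℝ} (hα : 0 < α) (M : ℕ) :
    ∑ n ∈ Finset.Ico 1 M, 1 / (1 + ((n : ℝ) * α) ^ 2) ≤ X α := by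
  rw [Finset.sum_Ico_eq_sum_range]
  refine le_trans (le_of_eq (Finset.sum_congr rfl fun i _ => ?_))
    ((X_summable hα).sum_le_tsum (Finset.range (M - 1)) fun i _ => by positivity)
  push_cast
  ring

theorem mf_off {κ : ℕ} (hκ : κ ≤ 1) {C5 : ℝ}
    (hC5 : ∀ y : ℝ, 0 ≤ y → |G κ y| ≤ C5 / (1 + y ^ 2) ^ 5) (hC0 : 0 ≤ C5)
    {α β Y : ℝ} (hα : 0 < α) (hβ : 0 < β) (hY : 0 < Y) (M : ℕ) (S : Finset (ℕ × ℕ))
    (hS : ∀ p ∈ S, p ∈ Finset.Ico 1 M ×ˢ Finset.Ico 1 M)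
    (hS' : ∀ p ∈ S, Y ≤ p.1 * α ∨ Y ≤ p.2 * β) :
    ∑ p ∈ S, G κ (p.1 * α) * G κ (p.2 * β) ≤ C5 / Y ^ 8 * (X α * X β) := by
  have key : ∀ z : ℝ, Y ≤ z → G κ z ≤ C5 / Y ^ 8 * (1 / (1 + z ^ 2)) := by
    intro z hz
    have hz0 : 0 ≤ z := hY.le.trans hz
    refine (le_abs_self _).trans ((hC5 z hz0).trans ?_)
    rw [div_mul_div_comm, mul_one]
    apply div_le_div_of_nonneg_left hC0 (by positivity)
    have h1 : Y ^ 8 ≤ (z ^ 2) ^ 4 := by
      rw [← pow_mul]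
      exact pow_le_pow_left₀ hY.le hz 8
    have h2 : (z ^ 2) ^ 4 ≤ (1 + z ^ 2) ^ 4 := pow_le_pow_left₀ (by positivity) (by linarith) 4
    calc Y ^ 8 * (1 + z ^ 2) ≤ (1 + z ^ 2) ^ 4 * (1 + z ^ 2) :=
          mul_le_mul_of_nonneg_right (h1.trans h2) (by positivity)
      _ = (1 + z ^ 2) ^ 5 := by ring
  have triv : ∀ z : ℝ, 0 ≤ z → G κ z ≤ 1 / (1 + z ^ 2) := fun z hz =>
    (le_abs_self _).trans (G_le hκ hz)
  have h1 : ∀ p ∈ S, G κ (p.1 * α) * G κ (p.2 * β) ≤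
      C5 / Y ^ 8 * ((1 / (1 + ((p.1 : ℝ) * α) ^ 2)) * (1 / (1 + ((p.2 : ℝ) * β) ^ 2))) := by
    intro p hp
    have hx0 : 0 ≤ (p.1 : ℝ) * α := by positivity
    have hy0 : 0 ≤ (p.2 : ℝ) * β := by positivity
    rcases hS' p hp with h | h
    · calc G κ (p.1 * α) * G κ (p.2 * β) ≤
          (C5 / Y ^ 8 * (1 / (1 + ((p.1 : ℝ) * α) ^ 2))) * (1 / (1 + ((p.2 : ℝ) * β) ^ 2)) :=
          mul_le_mul (key _ h) (triv _ hy0) (mf_G_nonneg κ hy0) (by positivity)
        _ = _ := by ring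
    · calc G κ (p.1 * α) * G κ (p.2 * β) ≤
          (1 / (1 + ((p.1 : ℝ) * α) ^ 2)) * (C5 / Y ^ 8 * (1 / (1 + ((p.2 : ℝ) * β) ^ 2))) :=
          mul_le_mul (triv _ hx0) (key _ h) (mf_G_nonneg κ hy0) (by positivity)
        _ = _ := by ring
  refine (Finset.sum_le_sum h1).trans ?_
  rw [← Finset.mul_sum]
  refine mul_le_mul_of_nonneg_left ?_ (by positivity)
  refine (Finset.sum_le_sum_of_subset_of_nonneg (fun p hp => hS p hp)
    fun p _ _ => by positivity).trans ?_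
  rw [Finset.sum_product]
  simp_rw [← Finset.mul_sum]
  rw [← Finset.sum_mul]
  exact mul_le_mul (mf_sum_X hα M) (mf_sum_X hβ M)
    (Finset.sum_nonneg fun i _ => by positivity) (X_nonneg _)

/-- summability of `G κ (n α)` over `n` -/
theorem mf_summable {κ : ℕ} (hκ : κ ≤ 1) {α : ℝ} (hα : 0 < α) :
    Summable (fun n : ℕ => G κ (n * α)) := by
  refine Summable.of_norm_bounded (ell_aux_summable hα) fun n => ?_
  rw [Real.norm_eq_abs]
  exact G_le hκ (by positivity)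

theorem mf_diag {κ : ℕ} (hκ : κ ≤ 1) {q a b : ℕ} (ha : 0 < a) (hb : 0 < b)
    (haq : a.Coprime q) (hbq : b.Coprime q) {τ : ℝ} (hτ : 0 < τ) :
    Tendsto (fun M : ℕ => ∑ p ∈ Finset.range M ×ˢ Finset.range M,
      if (p.1.Coprime q ∧ p.2.Coprime q ∧ p.1 * a = p.2 * b) then
        G κ (p.1 * (a * τ)) * G κ (p.2 * (b * τ)) else 0) atTop
      (𝓝 (WW κ q ((a * b : ℕ) / (Nat.gcd a b : ℕ) * τ))) := by
  have haτ : 0 < (a : ℝ) * τ := by positivity
  have hbτ : 0 < (b : ℝ) * τ := by positivity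
  set F : ℕ × ℕ → ℝ := fun p => if (p.1.Coprime q ∧ p.2.Coprime q ∧ p.1 * a = p.2 * b) then
        G κ (p.1 * (a * τ)) * G κ (p.2 * (b * τ)) else 0 with hF
  have hsum : Summable F := by
    have h0 : Summable fun p : ℕ × ℕ => G κ (p.1 * (a * τ)) * G κ (p.2 * (b * τ)) :=
      (mf_summable hκ haτ).mul_of_nonneg (mf_summable hκ hbτ)
        (fun n => mf_G_nonneg κ (by positivity)) (fun n => mf_G_nonneg κ (by positivity))
    refine Summable.of_nonneg_of_le (fun p => ?_) (fun p => ?_) h0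
    · simp only [hF]
      split_ifs
      · exact mul_nonneg (mf_G_nonneg κ (by positivity)) (mf_G_nonneg κ (by positivity))
      · exact le_rfl
    · simp only [hF]
      split_ifs
      · exact le_rfl
      · exact mul_nonneg (mf_G_nonneg κ (by positivity)) (mf_G_nonneg κ (by positivity))
  have htend : Tendsto (fun M : ℕ => ∑ p ∈ Finset.range M ×ˢ Finset.range M, F p) atTop
      (𝓝 (∑' p, F p)) := by
    have := hsum.hasSum
    rw [HasSum] at this
    refine this.comp ?_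
    refine tendsto_atTop.mpr fun S => ?_
    refine eventually_atTop.mpr ⟨(S.sup fun p => max p.1 p.2) + 1, fun M hM => ?_⟩
    intro p hp
    have h1 : max p.1 p.2 ≤ S.sup fun p => max p.1 p.2 :=
      Finset.le_sup (f := fun p : ℕ × ℕ => max p.1 p.2) hp
    simp only [Finset.mem_product, Finset.mem_range]
    have h2 := le_max_left p.1 p.2
    have h3 := le_max_right p.1 p.2
    constructor <;> omega
  -- the parametrisation
  set g := Nat.gcd a b with hg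
  have hg0 : 0 < g := Nat.gcd_pos_of_pos_left _ ha
  obtain ⟨a', ha'⟩ : g ∣ a := Nat.gcd_dvd_left a b
  obtain ⟨b', hb'⟩ : g ∣ b := Nat.gcd_dvd_right a b
  have ha'0 : 0 < a' := by
    rcases Nat.eq_zero_or_pos a' with h | h
    · rw [h, mul_zero] at ha'; omega
    · exact h
  have hb'0 : 0 < b' := by
    rcases Nat.eq_zero_or_pos b' with h | h
    · rw [h, mul_zero] at hb'; omega
    · exact h
  have hcop : a'.Coprime b' := by
    have := Nat.coprime_div_gcd_div_gcd (m := a) (n := b) (hg ▸ hg0)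
    rw [← hg] at this
    rwa [ha', hb', Nat.mul_div_cancel_left _ hg0, Nat.mul_div_cancel_left _ hg0] at this
  have ha'q : a'.Coprime q := Nat.Coprime.coprime_dvd_left ⟨g, by rw [ha', mul_comm]⟩ haq
  have hb'q : b'.Coprime q := Nat.Coprime.coprime_dvd_left ⟨g, by rw [hb', mul_comm]⟩ hbq
  set e : ℕ → ℕ × ℕ := fun m => (m * b', m * a') with he
  have hinj : Function.Injective e := by
    intro m n hmn
    simp only [he, Prod.mk.injEq] at hmn
    exact Nat.eq_of_mul_eq_mul_right hb'0 hmn.1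
  have hsupp : Function.support F ⊆ Set.range e := by
    intro p hp
    have hp' : p.1 * a = p.2 * b := by
      by_contra hcon
      apply hp
      simp only [hF]
      rw [if_neg]
      tauto
    rw [ha', hb'] at hp'
    have h1 : p.1 * a' = p.2 * b' := by
      have : g * (p.1 * a') = g * (p.2 * b') := by linarith [hp', mul_comm g a', mul_comm g b']
      exact Nat.eq_of_mul_eq_mul_left hg0 this
    have h2 : b' ∣ p.1 := by
      have : b' ∣ p.1 * a' := ⟨p.2, by rw [h1, mul_comm]⟩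
      exact (hcop.symm).dvd_of_dvd_mul_right this
    obtain ⟨m, hm⟩ := h2
    refine ⟨m, ?_⟩
    simp only [he]
    refine Prod.ext ?_ ?_
    · simp only; rw [hm, mul_comm]
    · simp only
      rw [hm] at h1
      have : b' * (m * a') = b' * p.2 := by linarith [mul_comm p.2 b', mul_assoc b' m a']
      exact Nat.eq_of_mul_eq_mul_left hb'0 this
  have htsum : ∑' p, F p = WW κ q ((a * b : ℕ) / (g : ℕ) * τ) := by
    rw [← hinj.tsum_eq hsupp, WW]
    refine tsum_congr fun m => ?_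
    have hgr : (g : ℝ) ≠ 0 := by exact_mod_cast hg0.ne'
    have hA : (a : ℝ) = g * a' := by rw [ha']; push_cast; ring
    have hB : (b : ℝ) = g * b' := by rw [hb']; push_cast; ring
    have harg : ((a * b : ℕ) : ℝ) / (g : ℕ) * τ = g * a' * b' * τ := by
      push_cast
      rw [hA, hB]
      field_simp
    simp only [hF, he]
    by_cases hm : m.Coprime q
    · rw [if_pos, if_pos hm]
      · have e1 : ((m * b' : ℕ) : ℝ) * (a * τ) = m * ((a * b : ℕ) / (g : ℕ) * τ) := by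
          rw [harg, hA]; push_cast; ring
        have e2 : ((m * a' : ℕ) : ℝ) * (b * τ) = m * ((a * b : ℕ) / (g : ℕ) * τ) := by
          rw [harg, hB]; push_cast; ring
        rw [e1, e2, sq]
      · refine ⟨Nat.Coprime.mul_left hm hb'q, Nat.Coprime.mul_left hm ha'q, ?_⟩
        rw [ha', hb']; ring
    · rw [if_neg, if_neg hm]
      rintro ⟨h1, -, -⟩
      exact hm (Nat.Coprime.coprime_mul_right h1)
  rw [← htsum]
  exact htend

theorem mf_NN_pos {L : ℝ} : 0 < NN L := Nat.ceil_pos.mpr (Real.exp_pos L)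

theorem mf_NN_le {L : ℝ} (hL : 0 ≤ L) : (NN L : ℝ) ≤ 2 * Real.exp L := by
  have h1 := Nat.ceil_lt_add_one (Real.exp_pos L).le
  have h2 := Real.one_le_exp hL
  unfold NN
  linarith

theorem mf_cc_abs {L : ℝ} (hL : 0 < L) {j : ℕ × ℕ} (hj : 0 < j.2) : |cc L j| ≤ 1 := by
  unfold cc
  rw [abs_div, abs_mul]
  have h1 := be_abs hL j.1
  have h2 := be_abs hL j.2
  have h3 : (1 : ℝ) ≤ |((j.2 : ℕ) : ℝ)| := by
    rw [Nat.abs_cast]; exact_mod_cast hj
  rw [div_le_one (by linarith)]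
  calc |be L j.1| * |be L j.2| ≤ 1 * 1 := mul_le_mul h1 h2 (abs_nonneg _) (by norm_num)
    _ ≤ _ := by linarith

theorem mf_JJ {L : ℝ} {q : ℕ} (hq : 2 ≤ q) {j : ℕ × ℕ} (hj : j ∈ JJ L q) :
    0 < j.1 ∧ 0 < j.2 ∧ j.1 < NN L ∧ j.2 < NN L ∧ j.1.Coprime q ∧ j.2.Coprime q := by
  unfold JJ at hj
  rw [Finset.mem_filter, Finset.mem_product, Finset.mem_range, Finset.mem_range] at hj
  obtain ⟨⟨h1, h2⟩, h3⟩ := hj
  have h4 : j.1.Coprime q := Nat.Coprime.coprime_mul_right h3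
  have h5 : j.2.Coprime q := Nat.Coprime.coprime_mul_left h3
  refine ⟨?_, ?_, h1, h2, h4, h5⟩
  · rcases Nat.eq_zero_or_pos j.1 with h | h
    · rw [h, Nat.coprime_zero_left] at h4; omega
    · exact h
  · rcases Nat.eq_zero_or_pos j.2 with h | h
    · rw [h, Nat.coprime_zero_left] at h5; omega
    · exact h

theorem mf_card {L : ℝ} {q : ℕ} : ((JJ L q).card : ℝ) ≤ (NN L : ℝ) ^ 2 := by
  unfold JJ
  have h1 := Finset.card_filter_le (Finset.range (NN L) ×ˢ Finset.range (NN L))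
    (fun j : ℕ × ℕ => (j.1 * j.2).Coprime q)
  rw [Finset.card_product, Finset.card_range] at h1
  calc _ ≤ ((NN L * NN L : ℕ) : ℝ) := by exact_mod_cast h1
    _ = _ := by push_cast; ring

/-- for one pair `(j,j')`: diagonal plus off-diagonal -/
theorem mf_pair {κ : ℕ} (hκ : κ ≤ 1) {C5 : ℝ}
    (hC5 : ∀ y : ℝ, 0 ≤ y → |G κ y| ≤ C5 / (1 + y ^ 2) ^ 5) (hC0 : 0 ≤ C5)
    {L : ℝ} {q : ℕ} (hq : 2 ≤ q) {δ : ℝ} (hδ : 0 < δ) {j j' : ℕ × ℕ}
    (hj : j ∈ JJ L q) (hj' : j' ∈ JJ L q) (M : ℕ) :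
    |(∑ p ∈ Finset.range M ×ˢ Finset.range M,
        if ((j.1 * p.1 * j.2).Coprime q ∧ (j'.1 * p.2 * j'.2).Coprime q ∧
          p.1 * (j.1 * j'.2) ≡ p.2 * (j'.1 * j.2) [MOD q]) then
          G κ (p.1 * j.1 * δ / j.2) * G κ (p.2 * j'.1 * δ / j'.2) else 0) -
      (∑ p ∈ Finset.range M ×ˢ Finset.range M,
        if (p.1.Coprime q ∧ p.2.Coprime q ∧ p.1 * (j.1 * j'.2) = p.2 * (j'.1 * j.2)) then
        G κ (p.1 * ((j.1 * j'.2 : ℕ) * (δ / (j.2 * j'.2)))) *
          G κ (p.2 * ((j'.1 * j.2 : ℕ) * (δ / (j.2 * j'.2)))) else 0)| ≤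
      C5 / (q * δ / (NN L : ℝ) ^ 2) ^ 8 * (Real.pi * NN L / (2 * δ)) ^ 2 := by
  obtain ⟨h1, h2, h3, h4, h5, h6⟩ := mf_JJ hq hj
  obtain ⟨h1', h2', h3', h4', h5', h6'⟩ := mf_JJ hq hj'
  have r1 : (0 : ℝ) < j.1 := by exact_mod_cast h1
  have r2 : (0 : ℝ) < j.2 := by exact_mod_cast h2
  have r1' : (0 : ℝ) < j'.1 := by exact_mod_cast h1'
  have r2' : (0 : ℝ) < j'.2 := by exact_mod_cast h2'
  have rN : (0 : ℝ) < NN L := by exact_mod_cast mf_NN_pos
  set α : ℝ := j.1 * δ / j.2 with hα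
  set β : ℝ := j'.1 * δ / j'.2 with hβ
  have hα0 : 0 < α := by positivity
  have hβ0 : 0 < β := by positivity
  have eα : ((j.1 * j'.2 : ℕ) : ℝ) * (δ / (j.2 * j'.2)) = α := by
    rw [hα]; push_cast; field_simp
  have eβ : ((j'.1 * j.2 : ℕ) : ℝ) * (δ / (j.2 * j'.2)) = β := by
    rw [hβ]; push_cast; field_simp
  rw [eα, eβ, ← Finset.sum_sub_distrib]
  set S : Finset (ℕ × ℕ) := (Finset.range M ×ˢ Finset.range M).filter fun p =>
    (p.1.Coprime q ∧ p.2.Coprime q ∧ p.1 * (j.1 * j'.2) ≡ p.2 * (j'.1 * j.2) [MOD q] ∧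
      p.1 * (j.1 * j'.2) ≠ p.2 * (j'.1 * j.2)) with hS
  have hcond : ∀ p : ℕ × ℕ, ((if ((j.1 * p.1 * j.2).Coprime q ∧ (j'.1 * p.2 * j'.2).Coprime q ∧
          p.1 * (j.1 * j'.2) ≡ p.2 * (j'.1 * j.2) [MOD q]) then
          G κ (p.1 * j.1 * δ / j.2) * G κ (p.2 * j'.1 * δ / j'.2) else 0) -
      if (p.1.Coprime q ∧ p.2.Coprime q ∧ p.1 * (j.1 * j'.2) = p.2 * (j'.1 * j.2)) then
        G κ (p.1 * α) * G κ (p.2 * β) else 0) =
      if (p.1.Coprime q ∧ p.2.Coprime q ∧ p.1 * (j.1 * j'.2) ≡ p.2 * (j'.1 * j.2) [MOD q] ∧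
      p.1 * (j.1 * j'.2) ≠ p.2 * (j'.1 * j.2)) then G κ (p.1 * α) * G κ (p.2 * β) else 0 := by
    intro p
    have a1 : (p.1 : ℝ) * j.1 * δ / j.2 = p.1 * α := by rw [hα]; ring
    have a2 : (p.2 : ℝ) * j'.1 * δ / j'.2 = p.2 * β := by rw [hβ]; ring
    rw [a1, a2]
    have c1 : (j.1 * p.1 * j.2).Coprime q ↔ p.1.Coprime q := by
      constructor
      · intro h
        exact Nat.Coprime.coprime_mul_left (Nat.Coprime.coprime_mul_right h)
      · intro h
        exact (Nat.Coprime.mul_left (Nat.Coprime.mul_left h5 h) h6)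
    have c2 : (j'.1 * p.2 * j'.2).Coprime q ↔ p.2.Coprime q := by
      constructor
      · intro h
        exact Nat.Coprime.coprime_mul_left (Nat.Coprime.coprime_mul_right h)
      · intro h
        exact (Nat.Coprime.mul_left (Nat.Coprime.mul_left h5' h) h6')
    simp only [c1, c2]
    by_cases e1 : p.1.Coprime q <;> by_cases e2 : p.2.Coprime q <;>
      by_cases e3 : p.1 * (j.1 * j'.2) = p.2 * (j'.1 * j.2)
    · have e4 : p.1 * (j.1 * j'.2) ≡ p.2 * (j'.1 * j.2) [MOD q] := by rw [e3]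
      rw [if_pos ⟨e1, e2, e4⟩, if_pos ⟨e1, e2, e3⟩, if_neg (fun h => h.2.2.2 e3), sub_self]
    · simp [e1, e2, e3]
    all_goals simp [e1, e2]
  have hre : ∑ p ∈ Finset.range M ×ˢ Finset.range M, ((if ((j.1 * p.1 * j.2).Coprime q ∧
          (j'.1 * p.2 * j'.2).Coprime q ∧
          p.1 * (j.1 * j'.2) ≡ p.2 * (j'.1 * j.2) [MOD q]) then
          G κ (p.1 * j.1 * δ / j.2) * G κ (p.2 * j'.1 * δ / j'.2) else 0) -
      if (p.1.Coprime q ∧ p.2.Coprime q ∧ p.1 * (j.1 * j'.2) = p.2 * (j'.1 * j.2)) then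
        G κ (p.1 * α) * G κ (p.2 * β) else 0) =
      ∑ p ∈ S, G κ (p.1 * α) * G κ (p.2 * β) := by
    rw [hS, Finset.sum_filter]
    exact Finset.sum_congr rfl fun p _ => hcond p
  rw [hre, abs_of_nonneg (Finset.sum_nonneg fun p _ =>
    mul_nonneg (mf_G_nonneg κ (by positivity)) (mf_G_nonneg κ (by positivity)))]
  have hY : 0 < q * δ / (NN L : ℝ) ^ 2 := by
    have : (0 : ℝ) < q := by exact_mod_cast (by omega : 0 < q)
    positivity
  have hNj : (j.2 : ℝ) * j'.2 ≤ (NN L : ℝ) ^ 2 := by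
    rw [sq]
    exact mul_le_mul (by exact_mod_cast h4.le) (by exact_mod_cast h4'.le) r2'.le rN.le
  have hbig : ∀ n a : ℕ, q ≤ n * a → q * δ / (NN L : ℝ) ^ 2 ≤ n * (a * (δ / (j.2 * j'.2))) := by
    intro n a h
    have h' : (q : ℝ) ≤ n * a := by exact_mod_cast h
    calc q * δ / (NN L : ℝ) ^ 2 ≤ q * δ / (j.2 * j'.2) := by
          apply div_le_div_of_nonneg_left (by positivity) (by positivity) hNj
      _ ≤ (n * a) * δ / (j.2 * j'.2) := by gcongr
      _ = _ := by ring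
  refine (mf_off hκ hC5 hC0 hα0 hβ0 hY M S ?_ ?_).trans ?_
  · intro p hp
    rw [hS, Finset.mem_filter, Finset.mem_product, Finset.mem_range, Finset.mem_range] at hp
    obtain ⟨⟨b1, b2⟩, b3, b4, -, -⟩ := hp
    simp only [Finset.mem_product, Finset.mem_Ico]
    refine ⟨⟨?_, b1⟩, ⟨?_, b2⟩⟩
    · rcases Nat.eq_zero_or_pos p.1 with h | h
      · rw [h, Nat.coprime_zero_left] at b3; omega
      · exact h
    · rcases Nat.eq_zero_or_pos p.2 with h | h
      · rw [h, Nat.coprime_zero_left] at b4; omega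
      · exact h
  · intro p hp
    rw [hS, Finset.mem_filter] at hp
    obtain ⟨-, -, -, b5, b6⟩ := hp
    by_contra hcon
    push Not at hcon
    obtain ⟨n1, n2⟩ := hcon
    have m1 : p.1 * (j.1 * j'.2) < q := by
      by_contra hge
      push Not at hge
      have := hbig p.1 (j.1 * j'.2) hge
      rw [eα] at this
      linarith
    have m2 : p.2 * (j'.1 * j.2) < q := by
      by_contra hge
      push Not at hge
      have := hbig p.2 (j'.1 * j.2) hge
      rw [eβ] at this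
      linarith
    exact b6 (Nat.ModEq.eq_of_lt_of_lt b5 m1 m2)
  · refine mul_le_mul_of_nonneg_left ?_ (by positivity)
    have x1 : X α ≤ Real.pi * NN L / (2 * δ) := by
      refine (X_le hα0).trans ?_
      rw [div_le_div_iff₀ (by positivity) (by positivity), hα]
      have : (j.2 : ℝ) ≤ NN L * j.1 := by
        have e1 : (j.2 : ℝ) ≤ NN L := by exact_mod_cast h4.le
        have e2 : (1 : ℝ) ≤ j.1 := by exact_mod_cast h1
        nlinarith
      calc Real.pi * (2 * δ) = Real.pi * (2 * δ) * (j.2 / j.2) := by field_simp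
        _ ≤ Real.pi * (2 * δ) * ((NN L * j.1) / j.2) := by gcongr
        _ = _ := by ring
    have x2 : X β ≤ Real.pi * NN L / (2 * δ) := by
      refine (X_le hβ0).trans ?_
      rw [div_le_div_iff₀ (by positivity) (by positivity), hβ]
      have : (j'.2 : ℝ) ≤ NN L * j'.1 := by
        have e1 : (j'.2 : ℝ) ≤ NN L := by exact_mod_cast h4'.le
        have e2 : (1 : ℝ) ≤ j'.1 := by exact_mod_cast h1'
        nlinarith
      calc Real.pi * (2 * δ) = Real.pi * (2 * δ) * (j'.2 / j'.2) := by field_simp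
        _ ≤ Real.pi * (2 * δ) * ((NN L * j'.1) / j'.2) := by gcongr
        _ = _ := by ring
    rw [sq]
    exact mul_le_mul x1 x2 (X_nonneg _) (by positivity)

theorem mean_f_pr : ∃ C : ℝ, 0 ≤ C ∧ ∀ κ : ℕ, κ ≤ 1 → ∀ (L : ℝ) (q : ℕ) [NeZero q], 1 ≤ L →
    32 * L = Real.log q → ∀ v : ℝ, 0 ≤ v →
      ∑ χ : DirichletCharacter ℂ q, ‖dF κ L χ v‖ ^ 2 ≤
        q.totient * (Diag κ q L (Real.exp v / √q) + C * Real.exp (-v) / q) := by
  obtain ⟨C5, hC0, hC5⟩ := G_five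
  refine ⟨Real.pi ^ 2 * C5 * 2 ^ 22, by positivity, ?_⟩
  intro κ hκ L q _ hL hLq v hv
  have hL0 : 0 < L := by linarith
  have hq0 : 0 < q := Nat.pos_of_ne_zero (NeZero.ne q)
  have hq : 2 ≤ q := by
    by_contra hcon
    have : q = 1 := by omega
    rw [this] at hLq
    simp at hLq
    linarith
  have hqr : (0 : ℝ) < q := by exact_mod_cast hq0
  have hq1 : (1 : ℝ) ≤ q := by exact_mod_cast hq0
  set δ : ℝ := Real.exp v / √q with hδ
  have hsq : 0 < √(q : ℝ) := Real.sqrt_pos.mpr hqr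
  have hδ0 : 0 < δ := by positivity
  have hG5 : ∀ y : ℝ, 0 ≤ y → |G κ y| ≤ C5 / (1 + y ^ 2) ^ 5 := hC5 κ hκ
  set a : (ℕ × ℕ) × ℕ → ℝ := fun x =>
    2 * √δ * cc L x.1 * G κ (x.2 * x.1.1 * δ / x.1.2) with ha
  set FM : ℕ → DirichletCharacter ℂ q → ℂ := fun M χ =>
    ∑ x ∈ JJ L q ×ˢ Finset.range M,
      (a x : ℂ) * χ (x.1.1 * x.2 : ℕ) * starRingEnd ℂ (χ (x.1.2 : ℕ)) with hFM
  -- pointwise convergence
  have hlim : ∀ χ : DirichletCharacter ℂ q, Tendsto (fun M => FM M χ) atTop (𝓝 (dF κ L χ v)) := by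
    intro χ
    rw [dF_eq hq hκ L χ v]
    simp only [hFM]
    have : ∀ M : ℕ, ∑ x ∈ JJ L q ×ˢ Finset.range M,
        (a x : ℂ) * χ (x.1.1 * x.2 : ℕ) * starRingEnd ℂ (χ (x.1.2 : ℕ)) =
        ∑ j ∈ JJ L q, ∑ n ∈ Finset.range M,
          ((2 * √(Real.exp v / √q) * cc L j * G κ (n * j.1 * (Real.exp v / √q) / j.2) : ℝ) : ℂ) *
          χ (j.1 * n : ℕ) * starRingEnd ℂ (χ (j.2 : ℕ)) := by
      intro M
      rw [Finset.sum_product]
    simp only [this]
    refine tendsto_finsetSum _ fun j hj => ?_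
    obtain ⟨h1, h2, -⟩ := mf_JJ hq hj
    have hα : 0 < (j.1 : ℝ) * δ / j.2 := by positivity
    have hs : Summable fun n : ℕ =>
        ((2 * √(Real.exp v / √q) * cc L j * G κ (n * j.1 * (Real.exp v / √q) / j.2) : ℝ) : ℂ) *
          χ (j.1 * n : ℕ) * starRingEnd ℂ (χ (j.2 : ℕ)) := by
      refine Summable.of_norm_bounded
        (((mf_summable hκ hα).mul_left (|2 * √δ * cc L j|))) fun n => ?_
      rw [norm_mul, norm_mul, Complex.norm_real, RCLike.norm_conj, Real.norm_eq_abs, abs_mul]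
      have e1 : |G κ (n * j.1 * (Real.exp v / √q) / j.2)| = G κ (n * (j.1 * δ / j.2)) := by
        rw [abs_of_nonneg (mf_G_nonneg κ (by positivity))]
        congr 1
        rw [hδ]; ring
      rw [e1]
      have n1 := χ.norm_le_one ((j.1 * n : ℕ) : ZMod q)
      have n2 := χ.norm_le_one ((j.2 : ℕ) : ZMod q)
      have p1 : 0 ≤ |2 * √δ * cc L j| * G κ (n * (j.1 * δ / j.2)) :=
        mul_nonneg (abs_nonneg _) (mf_G_nonneg κ (by positivity))
      calc _ ≤ |2 * √δ * cc L j| * G κ (n * (j.1 * δ / j.2)) * 1 * 1 := by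
            refine mul_le_mul (mul_le_mul le_rfl n1 (norm_nonneg _) p1) n2 (norm_nonneg _)
              (by rw [mul_one]; exact p1)
        _ = _ := by ring
    exact hs.hasSum.tendsto_sum_nat
  have hlim2 : Tendsto (fun M => ∑ χ : DirichletCharacter ℂ q, ‖FM M χ‖ ^ 2) atTop
      (𝓝 (∑ χ : DirichletCharacter ℂ q, ‖dF κ L χ v‖ ^ 2)) :=
    tendsto_finsetSum _ fun χ _ => ((hlim χ).norm.pow 2)
  -- the diagonal
  set DD : ℕ → ℝ := fun M => ∑ j ∈ JJ L q, ∑ j' ∈ JJ L q, 4 * δ * (cc L j * cc L j') *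
    ∑ p ∈ Finset.range M ×ˢ Finset.range M,
        if (p.1.Coprime q ∧ p.2.Coprime q ∧ p.1 * (j.1 * j'.2) = p.2 * (j'.1 * j.2)) then
        G κ (p.1 * ((j.1 * j'.2 : ℕ) * (δ / (j.2 * j'.2)))) *
          G κ (p.2 * ((j'.1 * j.2 : ℕ) * (δ / (j.2 * j'.2)))) else 0 with hDD
  have hDlim : Tendsto DD atTop (𝓝 (Diag κ q L δ)) := by
    have e0 : Diag κ q L δ = ∑ j ∈ JJ L q, ∑ j' ∈ JJ L q, 4 * δ * (cc L j * cc L j') *
        WW κ q (δ * (j.1 * j'.1) / gg j j') := by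
      unfold Diag
      rw [Finset.mul_sum]
      refine Finset.sum_congr rfl fun j _ => ?_
      rw [Finset.mul_sum]
      exact Finset.sum_congr rfl fun j' _ => by ring
    rw [e0]
    refine tendsto_finsetSum _ fun j hj => tendsto_finsetSum _ fun j' hj' => ?_
    refine Tendsto.const_mul _ ?_
    obtain ⟨h1, h2, -, -, h5, h6⟩ := mf_JJ hq hj
    obtain ⟨h1', h2', -, -, h5', h6'⟩ := mf_JJ hq hj'
    have r1 : (0 : ℝ) < j.1 := by exact_mod_cast h1
    have r2 : (0 : ℝ) < j.2 := by exact_mod_cast h2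
    have r1' : (0 : ℝ) < j'.1 := by exact_mod_cast h1'
    have r2' : (0 : ℝ) < j'.2 := by exact_mod_cast h2'
    have := mf_diag hκ (q := q) (a := j.1 * j'.2) (b := j'.1 * j.2) (by positivity)
      (by positivity) (Nat.Coprime.mul_left h5 h6') (Nat.Coprime.mul_left h5' h6)
      (τ := δ / (j.2 * j'.2)) (by positivity)
    have e1 : δ * (j.1 * j'.1) / gg j j' =
        (((j.1 * j'.2) * (j'.1 * j.2) : ℕ) : ℝ) / (Nat.gcd (j.1 * j'.2) (j'.1 * j.2) : ℕ) *
          (δ / (j.2 * j'.2)) := by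
      unfold gg
      push_cast
      have hg : ((Nat.gcd (j.1 * j'.2) (j'.1 * j.2) : ℕ) : ℝ) ≠ 0 := by
        have : 0 < Nat.gcd (j.1 * j'.2) (j'.1 * j.2) := Nat.gcd_pos_of_pos_left _ (by positivity)
        exact_mod_cast this.ne'
      field_simp
    rw [e1]
    exact this
  -- the bound for every `M`
  have hbound : ∀ M : ℕ, ∑ χ : DirichletCharacter ℂ q, ‖FM M χ‖ ^ 2 ≤
      q.totient * (DD M + Real.pi ^ 2 * C5 * 2 ^ 22 * Real.exp (-v) / q) := by
    intro M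
    rw [orth_fin (JJ L q ×ˢ Finset.range M) a]
    refine mul_le_mul_of_nonneg_left ?_ (by positivity)
    have e1 : (∑ x ∈ JJ L q ×ˢ Finset.range M, ∑ y ∈ JJ L q ×ˢ Finset.range M,
        if ((x.1.1 * x.2 * x.1.2).Coprime q ∧ (y.1.1 * y.2 * y.1.2).Coprime q ∧
          x.2 * (x.1.1 * y.1.2) ≡ y.2 * (y.1.1 * x.1.2) [MOD q]) then a x * a y else 0) =
        ∑ j ∈ JJ L q, ∑ j' ∈ JJ L q, 4 * δ * (cc L j * cc L j') *
          ∑ p ∈ Finset.range M ×ˢ Finset.range M,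
            if ((j.1 * p.1 * j.2).Coprime q ∧ (j'.1 * p.2 * j'.2).Coprime q ∧
              p.1 * (j.1 * j'.2) ≡ p.2 * (j'.1 * j.2) [MOD q]) then
              G κ (p.1 * j.1 * δ / j.2) * G κ (p.2 * j'.1 * δ / j'.2) else 0 := by
      rw [Finset.sum_product]
      refine Finset.sum_congr rfl fun j _ => ?_
      have : ∀ n : ℕ, (∑ y ∈ JJ L q ×ˢ Finset.range M,
          if ((j.1 * n * j.2).Coprime q ∧ (y.1.1 * y.2 * y.1.2).Coprime q ∧
            n * (j.1 * y.1.2) ≡ y.2 * (y.1.1 * j.2) [MOD q]) then a (j, n) * a y else 0) =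
          ∑ j' ∈ JJ L q, ∑ n' ∈ Finset.range M,
            if ((j.1 * n * j.2).Coprime q ∧ (j'.1 * n' * j'.2).Coprime q ∧
            n * (j.1 * j'.2) ≡ n' * (j'.1 * j.2) [MOD q]) then a (j, n) * a (j', n') else 0 := by
        intro n
        rw [Finset.sum_product]
      simp only [this]
      rw [Finset.sum_comm]
      refine Finset.sum_congr rfl fun j' _ => ?_
      rw [Finset.mul_sum, Finset.sum_product]
      refine Finset.sum_congr rfl fun n _ => Finset.sum_congr rfl fun n' _ => ?_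
      rw [mul_ite, mul_zero]
      refine if_congr Iff.rfl ?_ rfl
      simp only [ha]
      have hs : √δ * √δ = δ := Real.mul_self_sqrt hδ0.le
      calc _ = 4 * (√δ * √δ) * (cc L j * cc L j') *
            (G κ (n * j.1 * δ / j.2) * G κ (n' * j'.1 * δ / j'.2)) := by ring
        _ = _ := by rw [hs]
    rw [e1]
    set E : ℝ := C5 / (q * δ / (NN L : ℝ) ^ 2) ^ 8 * (Real.pi * NN L / (2 * δ)) ^ 2 with hE
    have hNpos : (0 : ℝ) < NN L := by exact_mod_cast mf_NN_pos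
    have hE0 : 0 ≤ E := by positivity
    have hdiff : ∀ j ∈ JJ L q, ∀ j' ∈ JJ L q, 4 * δ * (cc L j * cc L j') *
          (∑ p ∈ Finset.range M ×ˢ Finset.range M,
            if ((j.1 * p.1 * j.2).Coprime q ∧ (j'.1 * p.2 * j'.2).Coprime q ∧
              p.1 * (j.1 * j'.2) ≡ p.2 * (j'.1 * j.2) [MOD q]) then
              G κ (p.1 * j.1 * δ / j.2) * G κ (p.2 * j'.1 * δ / j'.2) else 0) ≤
          4 * δ * (cc L j * cc L j') *
          (∑ p ∈ Finset.range M ×ˢ Finset.range M,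
        if (p.1.Coprime q ∧ p.2.Coprime q ∧ p.1 * (j.1 * j'.2) = p.2 * (j'.1 * j.2)) then
        G κ (p.1 * ((j.1 * j'.2 : ℕ) * (δ / (j.2 * j'.2)))) *
          G κ (p.2 * ((j'.1 * j.2 : ℕ) * (δ / (j.2 * j'.2)))) else 0) + 4 * δ * E := by
      intro j hj j' hj'
      have h := mf_pair hκ hG5 hC0 hq hδ0 hj hj' M
      obtain ⟨-, h2, -⟩ := mf_JJ hq hj
      obtain ⟨-, h2', -⟩ := mf_JJ hq hj'
      have c1 := mf_cc_abs hL0 h2
      have c2 := mf_cc_abs hL0 h2'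
      have c3 : |cc L j * cc L j'| ≤ 1 := by
        rw [abs_mul]
        calc _ ≤ (1 : ℝ) * 1 := mul_le_mul c1 c2 (abs_nonneg _) (by norm_num)
          _ = 1 := by norm_num
      rw [← sub_le_iff_le_add', ← mul_sub]
      refine (le_abs_self _).trans ?_
      rw [abs_mul, abs_mul, abs_of_pos (by positivity : 0 < 4 * δ)]
      calc _ ≤ 4 * δ * 1 * E := mul_le_mul (mul_le_mul_of_nonneg_left c3 (by positivity)) h
            (abs_nonneg _) (by positivity)
        _ = _ := by ring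
    have hsum := Finset.sum_le_sum fun j hj => Finset.sum_le_sum fun j' hj' => hdiff j hj j' hj'
    refine hsum.trans ?_
    simp only [Finset.sum_add_distrib, Finset.sum_const, nsmul_eq_mul]
    have hDDM : DD M = ∑ j ∈ JJ L q, ∑ j' ∈ JJ L q, 4 * δ * (cc L j * cc L j') *
      ∑ p ∈ Finset.range M ×ˢ Finset.range M,
        if (p.1.Coprime q ∧ p.2.Coprime q ∧ p.1 * (j.1 * j'.2) = p.2 * (j'.1 * j.2)) then
        G κ (p.1 * ((j.1 * j'.2 : ℕ) * (δ / (j.2 * j'.2)))) *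
          G κ (p.2 * ((j'.1 * j.2 : ℕ) * (δ / (j.2 * j'.2)))) else 0 := rfl
    rw [← hDDM]
    refine add_le_add le_rfl ?_
    -- numerical estimate of the error
    have hcard : ((JJ L q).card : ℝ) ≤ (NN L : ℝ) ^ 2 := mf_card
    have hexp : Real.exp L ^ 32 = q := by
      rw [← Real.exp_nat_mul]
      push_cast
      rw [hLq, Real.exp_log hqr]
    have hN := mf_NN_le hL0.le
    have hN22 : (NN L : ℝ) ^ 22 ≤ 2 ^ 22 * q := by
      calc (NN L : ℝ) ^ 22 ≤ (2 * Real.exp L) ^ 22 := pow_le_pow_left₀ hNpos.le hN 22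
        _ = 2 ^ 22 * Real.exp L ^ 22 := by ring
        _ ≤ 2 ^ 22 * Real.exp L ^ 32 := by
            gcongr
            · exact Real.one_le_exp hL0.le
            · norm_num
        _ = _ := by rw [hexp]
    have hE2 : ((JJ L q).card : ℝ) * (((JJ L q).card : ℝ) * (4 * δ * E)) ≤
        Real.pi ^ 2 * C5 * (NN L : ℝ) ^ 22 / (q ^ 8 * δ ^ 9) := by
      calc _ ≤ (NN L : ℝ) ^ 2 * ((NN L : ℝ) ^ 2 * (4 * δ * E)) := by gcongr
        _ = _ := by
            rw [hE]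
            field_simp
            ring
    refine hE2.trans ?_
    have hδ9 : Real.exp v / q ^ 5 ≤ δ ^ 9 := by
      rw [hδ, div_pow]
      have e1 : Real.exp v ≤ Real.exp v ^ 9 := by
        calc Real.exp v = Real.exp v ^ 1 := (pow_one _).symm
          _ ≤ _ := pow_le_pow_right₀ (Real.one_le_exp hv) (by norm_num)
      have e2 : (√(q : ℝ)) ^ 9 ≤ q ^ 5 := by
        have h1 : 1 ≤ √(q : ℝ) := by rw [Real.one_le_sqrt]; exact hq1
        calc (√(q : ℝ)) ^ 9 ≤ (√(q : ℝ)) ^ 10 := pow_le_pow_right₀ h1 (by norm_num)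
          _ = ((√(q : ℝ)) ^ 2) ^ 5 := by ring
          _ = _ := by rw [Real.sq_sqrt hqr.le]
      exact div_le_div₀ (by positivity) e1 (by positivity) e2
    calc Real.pi ^ 2 * C5 * (NN L : ℝ) ^ 22 / (q ^ 8 * δ ^ 9) ≤
          Real.pi ^ 2 * C5 * (2 ^ 22 * q) / (q ^ 8 * (Real.exp v / q ^ 5)) := by gcongr
      _ = Real.pi ^ 2 * C5 * 2 ^ 22 * Real.exp (-v) / q / q := by
          rw [Real.exp_neg]
          field_simp
      _ ≤ Real.pi ^ 2 * C5 * 2 ^ 22 * Real.exp (-v) / q / 1 := by gcongr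
      _ = _ := by rw [div_one]
  refine le_of_tendsto_of_tendsto' hlim2 ?_ hbound
  exact (hDlim.add_const _).const_mul _

end Pool.Agent.SQ

namespace Pool.Agent.SQ

theorem mean_f : type_of% @mean_f_pr := @mean_f_pr

end Pool.Agent.SQ
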