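import Pool.Agent.Lib_helper92.SQ.Defs
import Pool.Agent.Lib_helper24.GRH.ELL
import Pool.Agent.Lib_helper92.SQA.DIAGI
import Pool.Agent.Lib_helper92.SQA.DIAGS
import Pool.Agent.Lib_helper92.SQA.MEANF

namespace Pool.Agent.SQ

open Complex MeasureTheory Filter Topology
open Pool.Agent.GRH

theorem m12_q {L : ℝ} {q : ℕ} (hL : 1 ≤ L) (hq : 32 * L = Real.log q) :
    0 < (q : ℝ) ∧ L ≤ q := by
  have h0 : 0 < (q : ℝ) := by
    rcases Nat.eq_zero_or_pos q with h | h
    · subst h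
      simp at hq
      linarith
    · exact_mod_cast h
  refine ⟨h0, ?_⟩
  have h1 : (q : ℝ) = Real.exp (32 * L) := by rw [hq, Real.exp_log h0]
  rw [h1]
  have := Real.add_one_le_exp (32 * L)
  linarith

theorem mean_f1_pr : ∃ C : ℝ, 0 ≤ C ∧ ∀ κ : ℕ, κ ≤ 1 → ∀ (L : ℝ) (q : ℕ) [NeZero q], 1 ≤ L →
    32 * L = Real.log q → ∀ v : ℝ, 0 ≤ v → v ≤ L / 2 →
      ∑ χ : DirichletCharacter ℂ q, ‖dF κ L χ v‖ ^ 2 ≤ C * q.totient / L := by
  obtain ⟨C1, hC1, h1⟩ := mean_f
  obtain ⟨C2, hC2, h2⟩ := diag_small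
  refine ⟨C1 + C2, by positivity, ?_⟩
  intro κ hκ L q _ hL hq v hv hvL
  obtain ⟨hq0, hLq⟩ := m12_q hL hq
  have hL0 : 0 < L := by linarith
  have e1 := h1 κ hκ L q hL hq v hv
  have e2 := h2 κ hκ L q hL hq (Real.exp v / √q) (by positivity)
    (by gcongr)
  have e3 : C1 * Real.exp (-v) / q ≤ C1 / L := by
    have : Real.exp (-v) ≤ 1 := Real.exp_le_one_iff.mpr (by linarith)
    calc C1 * Real.exp (-v) / q ≤ C1 * 1 / q := by gcongr
      _ ≤ C1 * 1 / L := by gcongr
      _ = C1 / L := by rw [mul_one]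
  calc _ ≤ (q.totient : ℝ) * (Diag κ q L (Real.exp v / √q) + C1 * Real.exp (-v) / q) := e1
    _ ≤ (q.totient : ℝ) * (C2 / L + C1 / L) := by gcongr
    _ = (C1 + C2) * q.totient / L := by ring

theorem dF_cont_m12 {q : ℕ} [NeZero q] {κ : ℕ} (hκ : κ ≤ 1) (L : ℝ)
    (χ : DirichletCharacter ℂ q) : Measurable (dF κ L χ) := by
  unfold dF
  refine Finset.measurable_fun_sum _ fun k _ => Finset.measurable_fun_sum _ fun l _ => ?_
  refine measurable_const.mul ?_
  exact (dens_measurable hκ 1 χ).comp (by fun_prop)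

theorem mean_f2_pr : ∃ C : ℝ, 0 ≤ C ∧ ∀ κ : ℕ, κ ≤ 1 → ∀ (L : ℝ) (q : ℕ) [NeZero q], 1 ≤ L →
    32 * L = Real.log q →
      IntegrableOn (fun v => ∑ χ : DirichletCharacter ℂ q, ‖dF κ L χ v‖ ^ 2) (Set.Ioi 0) ∧
      ∫ v in Set.Ioi (0 : ℝ), ∑ χ : DirichletCharacter ℂ q, ‖dF κ L χ v‖ ^ 2 ≤
        C * q.totient := by
  obtain ⟨C1, hC1, h1⟩ := mean_f
  obtain ⟨C2, hC2, h2⟩ := diag_int
  refine ⟨C2 + C1, by positivity, ?_⟩
  intro κ hκ L q _ hL hq
  obtain ⟨hq0, hLq⟩ := m12_q hL hq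
  obtain ⟨i1, i2⟩ := h2 κ hκ L q hL hq
  have hint : IntegrableOn (fun v : ℝ => Real.exp (-v)) (Set.Ioi 0) := by
    have := integrableOn_exp_mul_Ioi (a := -1) (by norm_num) 0
    refine this.congr_fun (fun x _ => by simp) measurableSet_Ioi
  have hval : ∫ v in Set.Ioi (0 : ℝ), Real.exp (-v) = 1 := by
    simpa using integral_exp_neg_Ioi 0
  have hdom : IntegrableOn (fun v => (q.totient : ℝ) * (Diag κ q L (Real.exp v / √q) +
      C1 * Real.exp (-v) / q)) (Set.Ioi 0) := by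
    refine Integrable.const_mul (Integrable.add i1 ?_) _
    have : (fun v : ℝ => C1 * Real.exp (-v) / q) = fun v => (C1 / q) * Real.exp (-v) := by
      funext v; ring
    rw [this]
    exact hint.const_mul _
  have hcont : Measurable (fun v => ∑ χ : DirichletCharacter ℂ q, ‖dF κ L χ v‖ ^ 2) :=
    Finset.measurable_fun_sum _ fun χ _ => ((dF_cont_m12 hκ L χ).norm).pow_const 2
  have hI : IntegrableOn (fun v => ∑ χ : DirichletCharacter ℂ q, ‖dF κ L χ v‖ ^ 2)
      (Set.Ioi 0) := by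
    refine Integrable.mono' hdom hcont.aestronglyMeasurable ?_
    refine (ae_restrict_iff' measurableSet_Ioi).mpr (Eventually.of_forall fun v hv => ?_)
    rw [Real.norm_of_nonneg (Finset.sum_nonneg fun _ _ => by positivity)]
    exact h1 κ hκ L q hL hq v (le_of_lt hv)
  refine ⟨hI, ?_⟩
  calc ∫ v in Set.Ioi (0 : ℝ), ∑ χ : DirichletCharacter ℂ q, ‖dF κ L χ v‖ ^ 2
      ≤ ∫ v in Set.Ioi (0 : ℝ), (q.totient : ℝ) * (Diag κ q L (Real.exp v / √q) +
          C1 * Real.exp (-v) / q) := by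
        refine setIntegral_mono_on hI hdom measurableSet_Ioi fun v hv => ?_
        exact h1 κ hκ L q hL hq v (le_of_lt hv)
    _ = (q.totient : ℝ) * ((∫ v in Set.Ioi (0 : ℝ), Diag κ q L (Real.exp v / √q)) +
          C1 / q) := by
        rw [integral_const_mul, integral_add i1]
        · congr 2
          have : (fun v : ℝ => C1 * Real.exp (-v) / q) = fun v => (C1 / q) * Real.exp (-v) := by
            funext v; ring
          rw [this, integral_const_mul, hval, mul_one]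
        · have : (fun v : ℝ => C1 * Real.exp (-v) / q) = fun v => (C1 / q) * Real.exp (-v) := by
            funext v; ring
          rw [this]
          exact hint.const_mul _
    _ ≤ (q.totient : ℝ) * (C2 + C1 / 1) := by
        gcongr
        linarith
    _ = (C2 + C1) * q.totient := by ring

end Pool.Agent.SQ

namespace Pool.Agent.SQ

theorem mean_f1 : type_of% @mean_f1_pr := @mean_f1_pr

theorem mean_f2 : type_of% @mean_f2_pr := @mean_f2_pr

end Pool.Agent.SQ
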